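import Pool.Agent.Lib.MP_b893bf_co.Conn

set_option autoImplicit false

namespace Pool.Agent.Lib.MP_b893bf_co

open Set

variable {V : Type*}

/-- Chains with at most `m` steps of a relation. -/
inductive Ch (R : V → V → Prop) : ℕ → V → V → Prop
  | refl (m : ℕ) (x : V) : Ch R m x x
  | tail {m : ℕ} {x y z : V} : Ch R m x y → R y z → Ch R (m + 1) x z

section
variable {R R' : V → V → Prop} {m n : ℕ} {x y z : V}

theorem Ch.succ (h : Ch R m x y) : Ch R (m + 1) x y := by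
  induction h with
  | refl => exact Ch.refl _ _
  | tail _ hr ih => exact ih.tail hr

theorem Ch.le (h : Ch R m x y) (hmn : m ≤ n) : Ch R n x y := by
  induction hmn with
  | refl => exact h
  | step _ ih => exact ih.succ

theorem Ch.single (h : R x y) : Ch R 1 x y := (Ch.refl 0 x).tail h

theorem Ch.trans (h : Ch R m x y) (h' : Ch R n y z) : Ch R (m + n) x z := by
  induction h' with
  | refl => exact h.le (Nat.le_add_right _ _)
  | tail _ hr ih => exact (ih h).tail hr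

theorem Ch.symm (hR : ∀ a b, R a b → R b a) (h : Ch R m x y) : Ch R m y x := by
  induction h with
  | refl => exact Ch.refl _ _
  | tail _ hr ih => exact ((Ch.single (hR _ _ hr)).trans ih).le (by omega)

theorem Ch.imp (hR : ∀ a b, R a b → R' a b) (h : Ch R m x y) : Ch R' m x y := by
  induction h with
  | refl => exact Ch.refl _ _
  | tail _ hr ih => exact ih.tail (hR _ _ hr)

theorem Ch.bind (hR : ∀ a b, R a b → Ch R' n a b) (h : Ch R m x y) : Ch R' (m * n) x y := by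
  induction h with
  | refl => exact Ch.refl _ _
  | tail _ hr ih => exact (ih.trans (hR _ _ hr)).le (by rw [Nat.succ_mul])

theorem Ch.zero (h : Ch R 0 x y) : x = y := by
  cases h
  rfl

theorem Ch.succ_cases (h : Ch R (m + 1) x z) : x = z ∨ ∃ y, Ch R m x y ∧ R y z := by
  cases h with
  | refl => exact Or.inl rfl
  | tail h hr => exact Or.inr ⟨_, h, hr⟩

end

variable {G : SimpleGraph V}

theorem Rch.restrict {S T : Set V} {x y : V} (h : Rch G S x y)
    (hT : ∀ w, w ∈ S → Rch G S x w → w ∈ T) : Rch G T x y := by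
  have : Rch G S x y ∧ Rch G T x y := by
    refine h.ind (fun y => Rch G S x y ∧ Rch G T x y) ⟨Rch.refl _ _, Rch.refl _ _⟩ ?_
    intro a b ha hb hab ih
    have h2 := ih.1.trans (Rch.step hab ha hb)
    exact ⟨h2, ih.2.trans (Rch.step hab (hT a ha ih.1) (hT b hb h2))⟩
  exact this.2

theorem Rch.first {X : Set V} {x y : V} (h : Rch G X x y) (hx : x ∈ X) (B : Set V) :
    (x ∉ B ∧ y ∉ B ∧ Rch G (X \ B) x y) ∨ ∃ a, a ∈ X ∧ a ∈ B ∧ Rch G X x a ∧
      (x = a ∨ ∃ z, x ∉ B ∧ Rch G (X \ B) x z ∧ G.Adj z a) := by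
  by_cases hB : x ∈ B
  · exact Or.inr ⟨x, hx, hB, Rch.refl _ _, Or.inl rfl⟩
  refine h.ind (fun y => (x ∉ B ∧ y ∉ B ∧ Rch G (X \ B) x y) ∨ ∃ a, a ∈ X ∧ a ∈ B ∧ Rch G X x a ∧
      (x = a ∨ ∃ z, x ∉ B ∧ Rch G (X \ B) x z ∧ G.Adj z a))
    (Or.inl ⟨hB, hB, Rch.refl _ _⟩) ?_
  intro a b ha hb hab ih
  rcases ih with ⟨-, h2, h3⟩ | ih
  · by_cases hbB : b ∈ B
    · exact Or.inr ⟨b, hb, hbB, (h3.mono sdiff_subset).trans (Rch.step hab ha hb),
        Or.inr ⟨a, hB, h3, hab⟩⟩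
    · exact Or.inl ⟨hB, hbB, h3.trans (Rch.step hab ⟨ha, h2⟩ ⟨hb, hbB⟩)⟩
  · exact Or.inr ih

theorem attach [Nonempty V] (Z R : Set V)
    (h : ∀ v ∈ Z, ∃ z b, Rch G Z v z ∧ G.Adj z b ∧ b ∈ R) :
    ∃ g : V → V, ∀ v ∈ Z, g v ∈ R ∧ ∃ z, Rch G {w | w ∈ Z ∧ g w = g v} v z ∧ G.Adj z (g v) := by
  classical
  let F : Set V → V := fun C => Classical.epsilon fun b => b ∈ R ∧ ∃ z ∈ C, G.Adj z b
  refine ⟨fun v => F (comp G Z v), fun v hv => ?_⟩
  obtain ⟨z, b, h1, h2, h3⟩ := h v hv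
  have : F (comp G Z v) ∈ R ∧ ∃ z ∈ comp G Z v, G.Adj z (F (comp G Z v)) :=
    Classical.epsilon_spec (p := fun b => b ∈ R ∧ ∃ z ∈ comp G Z v, G.Adj z b)
      ⟨b, h3, z, ⟨h1.mem hv, h1⟩, h2⟩
  obtain ⟨h4, z', h5, h6⟩ := this
  refine ⟨h4, z', h5.2.restrict fun w hw hw' => ⟨hw, ?_⟩, h6⟩
  show F (comp G Z w) = F (comp G Z v)
  rw [comp_eq (show w ∈ comp G Z v from ⟨hw, hw'⟩)]

variable (G) in
/-- One hop: same label or adjacent. -/
def HopR (K : Set V) (c : V → V) (x y : V) : Prop :=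
  x ∈ K ∧ y ∈ K ∧ (c x = c y ∨ G.Adj x y)

theorem HopR.symm {K : Set V} {c : V → V} (x y : V) (h : HopR G K c x y) : HopR G K c y x :=
  ⟨h.2.1, h.1, h.2.2.imp Eq.symm G.adj_symm⟩

/-- Growth of the hop bound. -/
def gg (h : ℕ) : ℕ → ℕ
  | 0 => h
  | n + 1 => 2 * gg h n + 3

theorem hop_colours {K A : Set V} {c : V → V} {col : V → ℕ} {h : ℕ} (N : ℕ) :
    ∀ X : Set V, X ⊆ K → (∀ v ∈ X, v ∈ A → col v < N) →
      (∀ v ∈ X, v ∈ A → ∀ w ∈ X, w ∈ A → col v = col w → c v = c w) →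
      (∀ x y, x ∈ X \ A → Rch G (X \ A) x y → Ch (HopR G K c) h x y) →
      ∀ x y, x ∈ X → Rch G X x y → Ch (HopR G K c) (gg h N) x y := by
  induction N with
  | zero =>
    intro X _ h1 _ h3 x y hx hxy
    have e : X \ A = X := by
      ext v
      exact ⟨fun h => h.1, fun h => ⟨h, fun h' => absurd (h1 v h h') (by omega)⟩⟩
    exact h3 x y (by rwa [e]) (by rwa [e])
  | succ N ih =>
    intro X hX h1 h2 h3 x y hx hxy
    set B : Set V := {v | v ∈ A ∧ col v = N} with hB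
    have e : (X \ B) \ A = X \ A := by
      ext v
      exact ⟨fun h => ⟨h.1.1, h.2⟩, fun h => ⟨⟨h.1, fun h' => h.2 h'.1⟩, h.2⟩⟩
    have IH := ih (X \ B) (sdiff_subset.trans hX)
      (fun v hv hA => by
        have := h1 v hv.1 hA
        have : col v ≠ N := fun h' => hv.2 ⟨hA, h'⟩
        omega)
      (fun v hv hA w hw hA' => h2 v hv.1 hA w hw.1 hA') (by rw [e]; exact h3)
    have key : ∀ x y, x ∈ X → Rch G X x y → (x ∉ B ∧ y ∉ B ∧ Rch G (X \ B) x y) ∨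
        ∃ a, a ∈ X ∧ a ∈ B ∧ Ch (HopR G K c) (gg h N + 1) x a := by
      intro x y hx hxy
      rcases hxy.first hx B with h | ⟨a, ha, haB, -, rfl | ⟨z, hxB, hz, hza⟩⟩
      · exact Or.inl h
      · exact Or.inr ⟨_, ha, haB, Ch.refl _ _⟩
      · exact Or.inr ⟨a, ha, haB, (IH x z ⟨hx, hxB⟩ hz).tail
          ⟨hX (hz.mem ⟨hx, hxB⟩).1, hX ha, Or.inr hza⟩⟩
    have hy := hxy.mem hx
    rcases key x y hx hxy with h | ⟨a, ha, haB, h4⟩
    · exact (IH x y ⟨hx, h.1⟩ h.2.2).le (by simp only [gg]; omega)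
    rcases key y x hy hxy.symm with h | ⟨b, hb, hbB, h5⟩
    · exact (IH x y ⟨hx, h.2.1⟩ h.2.2.symm).le (by simp only [gg]; omega)
    have h6 : HopR G K c a b :=
      ⟨hX ha, hX hb, Or.inl (h2 a ha haB.1 b hb hbB.1 (haB.2.trans hbB.2.symm))⟩
    exact ((h4.tail h6).trans (h5.symm HopR.symm)).le (by simp only [gg]; omega)

variable {ι : Type*}

variable (G) in
/-- Both points lie in one piece of a region inside `U`. -/
def Stp (D : ι → Set V) (U : Set V) (x y : V) : Prop :=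
  ∃ e, x ∈ D e ∩ U ∧ Rch G (D e ∩ U) x y

variable {D : ι → Set V}

theorem Stp.symm {U : Set V} (x y : V) (h : Stp G D U x y) : Stp G D U y x := by
  obtain ⟨e, h1, h2⟩ := h
  exact ⟨e, h2.mem h1, h2.symm⟩

theorem Stp.mono {U U' : Set V} (hU : U ⊆ U') (x y : V) (h : Stp G D U x y) : Stp G D U' x y := by
  obtain ⟨e, h1, h2⟩ := h
  exact ⟨e, ⟨h1.1, hU h1.2⟩, h2.mono (inter_subset_inter_right _ hU)⟩

variable (G) in
/-- Distance at most `m` in the region metric of `U`. -/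
def Near (D : ι → Set V) (U : Set V) (m : ℕ) (x y : V) : Prop := Ch (Stp G D U) m x y

theorem Near.symm {U : Set V} {m : ℕ} {x y : V} (h : Near G D U m x y) : Near G D U m y x :=
  Ch.symm Stp.symm h

theorem Near.mono {U U' : Set V} {m : ℕ} {x y : V} (h : Near G D U m x y) (hU : U ⊆ U') :
    Near G D U' m x y := Ch.imp (Stp.mono hU) h

theorem Near.trans {U : Set V} {m n : ℕ} {x y z : V} (h : Near G D U m x y)
    (h' : Near G D U n y z) : Near G D U (m + n) x z := Ch.trans h h'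

theorem Near.le {U : Set V} {m n : ℕ} {x y : V} (h : Near G D U m x y) (hmn : m ≤ n) :
    Near G D U n x y := Ch.le h hmn

theorem Near.refl (U : Set V) (m : ℕ) (x : V) : Near G D U m x x := Ch.refl _ _

variable (G) in
/-- The piece of `v` inside `K` is attached to the root `b`. -/
def Root (D : ι → Set V) (K R : Set V) (v b : V) : Prop :=
  b ∈ R ∧ ∃ e z, v ∈ D e ∩ K ∧ Rch G (D e ∩ K) v z ∧ G.Adj z b ∧ b ∈ D e

theorem Root.near {K R U : Set V} {v b : V} (h : Root G D K R v b) (hK : K ⊆ U) (hb : b ∈ U) :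
    Near G D U 1 v b := by
  obtain ⟨-, e, z, h1, h2, h3, h4⟩ := h
  have h5 := h2.mem h1
  exact Ch.single ⟨e, ⟨h1.1, hK h1.2⟩, (h2.mono (inter_subset_inter_right _ hK)).trans
    (Rch.step h3 ⟨h5.1, hK h5.2⟩ ⟨h4, hb⟩)⟩

theorem cv [Nonempty V] (K R : Set V) (cls blk : V → ℕ) (Nr : V → V → V → Prop)
    (sep : ∀ v b b', Root G D K R v b → Root G D K R v b' → cls b = cls b' → blk b = blk b')
    (close : ∀ b0 b b' v w, b0 ∈ R → cls b0 ≤ cls b → Root G D K R v b → b' ∈ R →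
      cls b' = cls b → blk b' = blk b → (w = b' ∨ Root G D K R w b') → Nr b0 w v) (t : ℕ) :
    ∃ β : V → V, ∀ v, (∃ b, Root G D K R v b ∧ cls b < t) → β v ∈ R ∧ cls (β v) < t ∧
      (∃ z, Rch G {w | (∃ b, Root G D K R w b ∧ cls b < t) ∧ β w = β v} v z ∧ G.Adj z (β v)) ∧
      Ch (Nr (β v)) t (β v) v := by
  classical
  induction t with
  | zero => exact ⟨id, fun v ⟨b, _, h⟩ => absurd h (by omega)⟩
  | succ t ih =>
    obtain ⟨β, hβ⟩ := ih
    set A : Set V := {w | ∃ b, Root G D K R w b ∧ cls b < t} with hA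
    let Bl : ℕ → Set V := fun q => {w | ∃ b, Root G D K R w b ∧ cls b = t ∧ blk b = q}
    have hg : ∀ q, ∃ g : V → V, ∀ v ∈ Bl q \ A,
        g v ∈ (Bl q ∩ A) ∪ {b | b ∈ R ∧ cls b = t ∧ blk b = q} ∧
        ∃ z, Rch G {w | w ∈ Bl q \ A ∧ g w = g v} v z ∧ G.Adj z (g v) := by
      intro q
      refine attach _ _ ?_
      rintro v ⟨⟨b, ⟨hb, e, z, h1, h2, h3, h4⟩, h5, h6⟩, hv⟩
      have hin : ∀ w, Rch G (D e ∩ K) v w → w ∈ Bl q := fun w hw =>
        ⟨b, ⟨hb, e, z, hw.mem h1, hw.symm.trans h2, h3, h4⟩, h5, h6⟩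
      have hres : ∀ y, Rch G ((D e ∩ K) \ A) v y → Rch G (Bl q \ A) v y := fun y hy =>
        hy.restrict fun w hw hw' => ⟨hin w (hw'.mono sdiff_subset), hw.2⟩
      rcases h2.first h1 A with h | ⟨a, -, ha, ha', rfl | ⟨y, -, hy, hya⟩⟩
      · exact ⟨z, b, hres z h.2.2, h3, Or.inr ⟨hb, h5, h6⟩⟩
      · exact (hv ha).elim
      · exact ⟨y, a, hres y hy, hya, Or.inl ⟨hin a ha', ha⟩⟩
    choose g hg using hg
    let q : V → ℕ := fun v => blk (Classical.epsilon fun b => Root G D K R v b ∧ cls b = t)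
    have hq : ∀ r v, v ∈ Bl r → q v = r := by
      rintro r v ⟨b, h1, h2, h3⟩
      have := Classical.epsilon_spec (p := fun b => Root G D K R v b ∧ cls b = t) ⟨b, h1, h2⟩
      exact (sep v _ b this.1 h1 (this.2.trans h2.symm)).trans h3
    let β' : V → V := fun v =>
      if v ∈ A then β v else if g (q v) v ∈ A then β (g (q v) v) else g (q v) v
    have e1 : ∀ v ∈ A, β' v = β v := fun v hv => if_pos hv
    have old : ∀ v ∈ A, ∀ x, β v = x → ∃ z, Rch G
        {w | (∃ b, Root G D K R w b ∧ cls b < t + 1) ∧ β' w = x} v z ∧ G.Adj z x := by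
      rintro v hv x rfl
      obtain ⟨-, -, ⟨z, h1, h2⟩, -⟩ := hβ v hv
      refine ⟨z, h1.mono ?_, h2⟩
      rintro w ⟨⟨b, h3, h4⟩, h5⟩
      exact ⟨⟨b, h3, by omega⟩, (e1 w ⟨b, h3, h4⟩).trans h5⟩
    refine ⟨β', ?_⟩
    rintro v ⟨b, hb, hbt⟩
    by_cases hv : v ∈ A
    · obtain ⟨h1, h2, -, h4⟩ := hβ v hv
      refine ⟨by rwa [e1 v hv], by rw [e1 v hv]; omega, old v hv _ (e1 v hv).symm, ?_⟩
      rw [e1 v hv]
      exact h4.succ
    have hbt' : cls b = t := by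
      by_contra hne
      exact hv ⟨b, hb, by omega⟩
    have hvB : v ∈ Bl (blk b) := ⟨b, hb, hbt', rfl⟩
    obtain ⟨h1, z, h2, h3⟩ := hg (blk b) v ⟨hvB, hv⟩
    have hfib : Rch G {w | (∃ b, Root G D K R w b ∧ cls b < t + 1) ∧ β' w = β' v} v z := by
      refine h2.mono ?_
      rintro w ⟨⟨hw1, hw2⟩, hw3⟩
      refine ⟨?_, ?_⟩
      · obtain ⟨b', h4, h5, -⟩ := hw1
        exact ⟨b', h4, by omega⟩
      · simp only [β', if_neg hw2, if_neg hv, hq _ w hw1, hq _ v hvB, hw3]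
    have hz := hfib.mem ⟨⟨b, hb, hbt⟩, rfl⟩
    by_cases hw : g (blk b) v ∈ A
    · have e2 : β' v = β (g (blk b) v) := by
        simp only [β', if_neg hv, hq _ v hvB, if_pos hw]
      obtain ⟨h4, h5, -, h6⟩ := hβ _ hw
      obtain ⟨z', h7, h8⟩ := old _ hw _ e2.symm
      have h9 : g (blk b) v ∈
          {w | (∃ b, Root G D K R w b ∧ cls b < t + 1) ∧ β' w = β' v} := by
        obtain ⟨b', h4, h5⟩ := hw
        exact ⟨⟨b', h4, by omega⟩, (e1 _ ⟨b', h4, h5⟩).trans e2.symm⟩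
      refine ⟨by rwa [e2], by rw [e2]; omega,
        ⟨z', hfib.trans ((Rch.step h3 hz h9).trans h7), h8⟩, ?_⟩
      rw [e2]
      refine h6.tail ?_
      rcases h1 with ⟨⟨b', h10, h11, h12⟩, -⟩ | ⟨h10, h11, h12⟩
      · exact close _ b b' v _ h4 (by omega) hb h10.1 (by omega) h12 (Or.inr h10)
      · exact close _ b _ v _ h4 (by omega) hb h10 (by omega) h12 (Or.inl rfl)
    · have e2 : β' v = g (blk b) v := by
        simp only [β', if_neg hv, hq _ v hvB, if_neg hw]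
      rcases h1 with h1 | ⟨h10, h11, h12⟩
      · exact (hw h1.2).elim
      refine ⟨by rwa [e2], by rw [e2]; omega, ⟨z, hfib, by rwa [e2]⟩, ?_⟩
      rw [e2]
      exact (Ch.refl t _).tail (close _ b _ v _ h10 (by omega) hb h10 (by omega) h12 (Or.inl rfl))

end Pool.Agent.Lib.MP_b893bf_co
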