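import Pool.Agent.Lib.MP_b893bf_co.Step

set_option autoImplicit false

namespace Pool.Agent.Lib.MP_b893bf_co

open Set

variable {V ι : Type*} {G : SimpleGraph V} {D : ι → Set V} {ρ h : ℕ → ℕ} {L M : ℕ} {K : Set V}
  {S : Finset ℕ} {O : Set V} {age σ n : V → ℕ} {U : ℕ → Set V} {c0 : V → V}

theorem div_near {a b L : ℕ} (hL : 0 < L) (h : a ≤ b + L) : a / L ≤ b / L + 1 := by
  rw [← Nat.add_div_right _ hL]
  exact Nat.div_le_div_right h

theorem fatten [Nonempty V] (H : Ctx G D ρ L K S O age σ n U c0) {x : ℕ} (hx : x ∈ S)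
    (un : ¬ Tch G K {b | b ∈ O ∧ age b = x}) (anti : ∀ p q, p ≤ q → ρ q ≤ ρ p)
    (grow : ∀ p ≤ 3, ρ (p + 1) + 2 * (40 * (2 * ρ (p + 1) + 4)) ≤ ρ p)
    (hρ : ∀ p, ρ p + 1 ≤ L ∧ L + ρ p ≤ M) (hh : ∀ p ≤ 4, gg (h (p + 1)) 40 ≤ h p)
    (IH : ∀ (A O' : Set V) (age' σ' n' : V → ℕ) (c0' : V → V),
      Ctx G D ρ L (K \ A) (S.erase x) O' age' σ' n' U c0' →
        ∃ c, Res G D M h (K \ A) (S.erase x) O' age' c0' c) :
    ∃ c, Res G D M h K S O age c0 c := by
  classical
  set R : Set V := {b | b ∈ O ∧ x < age b} with hR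
  let blk : V → ℕ := fun b => n b / (ρ (rk S (age b)) + 2)
  let cls : V → ℕ := fun b => rk S (age b) * 8 + σ b * 2 + blk b % 2
  have cls40 : ∀ b ∈ O, cls b < 40 := by
    intro b hb
    have h1 := (rk_le S (age b)).trans H.card
    have h2 := H.sig b hb
    simp only [cls]
    omega
  have clse : ∀ b ∈ O, ∀ b' ∈ O, cls b = cls b' →
      age b = age b' ∧ σ b = σ b' ∧ blk b % 2 = blk b' % 2 := by
    intro b hb b' hb' hc
    have h1 := H.sig b hb
    have h2 := H.sig b' hb'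
    simp only [cls] at hc
    have h3 : rk S (age b) = rk S (age b') := by omega
    exact ⟨le_antisymm (rk_le_iff (H.mem b hb) h3.le) (rk_le_iff (H.mem b' hb') h3.ge),
      by omega, by omega⟩
  have rn : ∀ v b, Root G D K R v b → Near G D (U (age b)) 1 v b := fun v b h =>
    h.near (H.domK _ (H.mem b h.1.1)) (H.dom b h.1.1)
  obtain ⟨β, hβ⟩ := cv (G := G) (D := D) K R cls blk
    (fun b0 w v => Near G D (U (age b0)) (2 * ρ (rk S (age b0)) + 4) w v) (by
      intro v b b' hb hb' hc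
      obtain ⟨h1, h2, h3⟩ := clse b hb.1.1 b' hb'.1.1 hc
      have h4 := rn v b hb
      have h5 := rn v b' hb'
      have h6 := H.low b hb.1.1 b' hb'.1.1 h1 h2 2 (h4.symm.trans (h1 ▸ h5))
      have h7 := H.low b' hb'.1.1 b hb.1.1 h1.symm h2.symm 2 (h5.symm.trans (h1 ▸ h4))
      simp only [blk] at h3 ⊢
      rw [← h1] at h3 h7 ⊢
      have h8 := div_near (a := n b) (b := n b') (L := ρ (rk S (age b)) + 2) (by omega) (by omega)
      have h9 := div_near (a := n b') (b := n b) (L := ρ (rk S (age b)) + 2) (by omega) (by omega)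
      omega) (by
      intro b0 b b' v w hb0 hc0 hb hb' hc hbl hw
      obtain ⟨h1, h2, -⟩ := clse b' hb'.1 b hb.1.1 hc
      have h3 : age b0 ≤ age b := by
        refine rk_le_iff (H.mem b0 hb0.1) ?_
        have := H.sig b hb.1.1
        simp only [cls] at hc0
        omega
      have h4 : Near G D (U (age b')) 1 w b' := by
        rcases hw with rfl | hw
        · exact Near.refl _ _ _
        · exact rn w b' hw
      simp only [blk] at hbl
      rw [h1] at hbl
      have h5 := H.up b' hb'.1 b hb.1.1 h1 h2 (ρ (rk S (age b)) + 2)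
        (div_close (by omega) hbl) (div_close (by omega) hbl.symm)
      rw [h1] at h4 h5
      have h6 := anti _ _ (rk_mono S h3)
      exact (((h4.trans h5).trans (rn v b hb).symm).mono
        (H.nest _ (H.mem b0 hb0.1) _ (H.mem b hb.1.1) h3)).le (by omega)) 40
  set A : Set V := {w | ∃ b, Root G D K R w b ∧ cls b < 40} with hA
  have AK : A ⊆ K := by
    rintro v ⟨b, ⟨-, e, z, h1, -⟩, -⟩
    exact h1.2
  let γ : V → V := fun v => if v ∈ A then β v else v
  have γA : ∀ v ∈ A, γ v = β v := fun v hv => if_pos hv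
  have γO : ∀ v ∈ O, γ v = v := fun v hv => if_neg fun h => H.disj v hv (AK h)
  let O' : Set V := {b | b ∈ A ∨ (b ∈ O ∧ age b ≠ x)}
  let dd : ℕ → ℕ := fun i => if x < i then 40 * (2 * ρ (rk S i) + 4) else 0
  have hdd : ∀ i ∈ S, i ≠ x → ρ (rk S i) + 2 * dd i ≤ ρ (rk (S.erase x) i) := by
    intro i _ hi
    by_cases hxi : x < i
    · have h1 := rk_erase_gt hx hxi
      have h2 := (rk_le S i).trans H.card
      simp only [dd, if_pos hxi]
      rw [← h1]
      exact grow _ (by omega)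
    · simp only [dd, if_neg hxi]
      rw [rk_erase_lt (by omega)]
      omega
  have P : ∀ b ∈ O', γ b ∈ O ∧ age (γ b) ≠ x ∧
      Near G D (U (age (γ b))) (dd (age (γ b))) (γ b) b := by
    rintro b (hb | hb)
    · obtain ⟨h1, -, -, h4⟩ := hβ b hb
      rw [γA b hb]
      refine ⟨h1.1, h1.2.ne', ?_⟩
      simp only [dd, if_pos h1.2]
      exact Ch.bind (fun _ _ h => h) h4
    · rw [γO b hb.1]
      exact ⟨hb.1, hb.2, Near.refl _ _ _⟩
  have base : ∀ i, i ≠ x → {b | b ∈ O ∧ age b = i} ⊆ {b | b ∈ O' ∧ age (γ b) = i} := by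
    rintro i hi b ⟨h1, h2⟩
    exact ⟨Or.inr ⟨h1, h2 ▸ hi⟩, by rw [γO b h1, h2]⟩
  have C : Ctx G D ρ L (K \ A) (S.erase x) O' (fun v => age (γ v)) (fun v => σ (γ v))
      (fun v => n (γ v)) U (fun v => c0 (γ v)) := by
    refine ⟨(Finset.card_erase_le).trans H.card, fun b hb => ?_, ?_, ?_, ?_, ?_, ?_, ?_,
      fun b hb => H.sig _ (P b hb).1, ?_, ?_, ?_, ?_⟩
    · exact Finset.mem_erase.2 ⟨(P b hb).2.1, H.mem _ (P b hb).1⟩
    · rintro b (hb | hb) hK
      · exact hK.2 hb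
      · exact H.disj b hb.1 hK.1
    · intro i hi
      obtain ⟨hi1, hi2⟩ := Finset.mem_erase.1 hi
      refine conn_of_base (H.conn i hi2) (base i hi1) ?_
      rintro b ⟨hb | hb, hb'⟩
      · obtain ⟨h1, -, ⟨z, h2, h3⟩, -⟩ := hβ b hb
        have h4 : age (β b) = i := by rw [← γA b hb]; exact hb'
        have h5 : Rch G {b | b ∈ O' ∧ age (γ b) = i} b z := by
          refine h2.mono ?_
          rintro w ⟨h6, h7⟩
          exact ⟨Or.inl h6, by rw [γA w h6, h7, h4]⟩
        exact ⟨β b, ⟨h1.1, h4⟩,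
          h5.trans (Rch.step h3 (h5.mem ⟨Or.inl hb, hb'⟩) (base i hi1 ⟨h1.1, h4⟩))⟩
      · exact ⟨b, ⟨hb.1, by rw [← γO b hb.1]; exact hb'⟩, Rch.refl _ _⟩
    · intro i hi j hj hij
      obtain ⟨hi1, hi2⟩ := Finset.mem_erase.1 hi
      obtain ⟨hj1, hj2⟩ := Finset.mem_erase.1 hj
      exact (H.tch i hi2 j hj2 hij).mono (base i hi1) (base j hj1)
    · rintro b (hb | hb)
      · exact H.domK _ (H.mem _ (P b (Or.inl hb)).1) (AK hb)
      · rw [γO b hb.1]
        exact H.dom b hb.1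
    · exact fun i hi => sdiff_subset.trans (H.domK i (Finset.mem_of_mem_erase hi))
    · exact fun i hi j hj =>
        H.nest i (Finset.mem_of_mem_erase hi) j (Finset.mem_of_mem_erase hj)
    · intro b hb b' hb' h1 h2 m hm
      obtain ⟨k1, k2, k3⟩ := P b hb
      obtain ⟨k4, -, k6⟩ := P b' hb'
      rw [← h1] at k6
      have h3 := H.low _ k1 _ k4 h1 h2 _ ((k3.trans hm).trans k6.symm)
      have h4 := hdd _ (H.mem _ k1) k2
      omega
    · intro b hb b' hb' h1 h2 m h5 h6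
      obtain ⟨k1, k2, k3⟩ := P b hb
      obtain ⟨k4, -, k6⟩ := P b' hb'
      rw [← h1] at k6
      have h3 := H.up _ k1 _ k4 h1 h2 m h5 h6
      have h4 := hdd _ (H.mem _ k1) k2
      exact ((k3.symm.trans h3).trans k6).le (by omega)
    · intro b hb b' hb' h1 h2 h3
      exact H.lab _ (P b hb).1 _ (P b' hb').1 h1 h2 h3
    · intro b hb
      obtain ⟨k1, k2, k3⟩ := P b hb
      have h4 := hdd _ (H.mem _ k1) k2
      exact ((k3.symm.mono (subset_univ _)).trans (H.labd _ k1)).le (by omega)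
  refine step_res AK H.card C (fun b hb => Or.inl hb) ?_ ?_ ?_ ?_ hρ hh (IH _ _ _ _ _ _ C)
  · rintro b (hb | hb)
    · exact Or.inl hb
    · exact Or.inr ⟨hb.1, by simp only [γO b hb.1]⟩
  · intro v hv
    obtain ⟨h1, -, ⟨z, h2, h3⟩, -⟩ := hβ v hv
    refine ⟨z, h2.mono ?_, Or.inr ⟨β v, h1.1, h3, by simp only [γA v hv]⟩⟩
    rintro w ⟨h6, h7⟩
    exact ⟨h6, by simp only [γA w h6, γA v hv, h7]⟩
  · intro a ha
    exact H.domK _ (H.mem _ (P a (Or.inl ha)).1)
  · intro e y p hy hw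
    have hlt : ∀ a ∈ A, x < age (γ a) := fun a ha => by
      rw [γA a ha]
      exact (hβ a ha).1.2
    have hm : ∀ a ∈ A, age (γ a) ∈ S.erase x := fun a ha => C.mem a (Or.inl ha)
    rcases hw with rfl | ⟨z, b, h1, h2, h3, h4, h5⟩
    · exact Or.inr ⟨fun a ha => rk_pos (hm a ha), Or.inl rfl⟩
    rcases lt_trichotomy (age b) x with h6 | h6 | h6
    · rw [← rk_erase_lt h6] at h5
      refine Or.inr ⟨fun a ha => ?_, Or.inr ⟨z, b, h1, h2, h3, Or.inr ⟨h4, h6.ne⟩, ?_⟩⟩
      · have := rk_lt (h6.trans (hlt a ha)) (hm a ha)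
        omega
      · simpa only [γO b h4] using h5
    · exact (un ⟨z, (h1.mem hy).2, b, ⟨h4, h6⟩, h2⟩).elim
    · exact Or.inl fun w hw =>
        ⟨b, ⟨⟨h4, h6⟩, e, z, hw.mem hy, hw.symm.trans h1, h2, h3⟩, cls40 b h4⟩

theorem card_le_three (N5 : NoK5 G) (H : Ctx G D ρ L K S O age σ n U c0) (hK : Conn G K)
    (seen : ∀ i ∈ S, Tch G K {b | b ∈ O ∧ age b = i}) : S.card ≤ 3 := by
  by_contra hne
  have h4 : S.card = 4 := by
    have := H.card
    omega
  let f := S.orderEmbOfFin h4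
  have fm : ∀ i, f i ∈ S := fun i => S.orderEmbOfFin_mem h4 i
  have dK : ∀ i, Disjoint K {b | b ∈ O ∧ age b = f i} := fun i =>
    disjoint_left.2 fun b hb hb' => H.disj b hb'.1 hb
  have dd : ∀ i j, i < j → Disjoint {b | b ∈ O ∧ age b = f i} {b | b ∈ O ∧ age b = f j} :=
    fun i j hij => disjoint_left.2 fun b hb hb' =>
      (f.strictMono hij).ne (hb.2.symm.trans hb'.2)
  have tt : ∀ i j, i < j → Tch G {b | b ∈ O ∧ age b = f i} {b | b ∈ O ∧ age b = f j} :=
    fun i j hij => H.tch _ (fm i) _ (fm j) (f.strictMono hij)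
  exact N5 K _ _ _ _ hK (H.conn _ (fm 0)) (H.conn _ (fm 1)) (H.conn _ (fm 2)) (H.conn _ (fm 3))
    (dK 0) (dK 1) (dK 2) (dK 3) (dd 0 1 (by decide)) (dd 0 2 (by decide)) (dd 0 3 (by decide))
    (dd 1 2 (by decide)) (dd 1 3 (by decide)) (dd 2 3 (by decide))
    (seen _ (fm 0)) (seen _ (fm 1)) (seen _ (fm 2)) (seen _ (fm 3))
    (tt 0 1 (by decide)) (tt 0 2 (by decide)) (tt 0 3 (by decide))
    (tt 1 2 (by decide)) (tt 1 3 (by decide)) (tt 2 3 (by decide))

theorem newnode [Nonempty V] (hE : ∀ x y, G.Adj x y → ∃ e, x ∈ D e ∧ y ∈ D e) (N5 : NoK5 G)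
    (H : Ctx G D ρ L K S O age σ n U c0) (hK : Conn G K) {x0 : V} (hx0 : x0 ∈ K)
    (seen : ∀ i ∈ S, Tch G K {b | b ∈ O ∧ age b = i}) (one : ∀ p, 1 ≤ ρ p)
    (hρ : ∀ p, ρ p + 1 ≤ L ∧ L + ρ p ≤ M) (hh : ∀ p ≤ 4, gg (h (p + 1)) 40 ≤ h p)
    (IH : ∀ (A : Set V) (S' : Finset ℕ) (O' : Set V) (age' σ' n' : V → ℕ) (U' : ℕ → Set V)
      (c0' : V → V), x0 ∈ A → Ctx G D ρ L (K \ A) S' O' age' σ' n' U' c0' →
        ∃ c, Res G D M h (K \ A) S' O' age' c0' c) :
    ∃ c, Res G D M h K S O age c0 c := by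
  classical
  have h3 := card_le_three N5 H hK seen
  have hL : 0 < L := by
    have := (hρ 0).1
    omega
  have : ∀ i, ∃ y, i ∈ S → y ∈ K ∧ ∃ b, (b ∈ O ∧ age b = i) ∧ G.Adj y b := by
    intro i
    by_cases hi : i ∈ S
    · obtain ⟨y, hy, b, hb, hyb⟩ := seen i hi
      exact ⟨y, fun _ => ⟨hy, b, hb, hyb⟩⟩
    · exact ⟨x0, fun h => (hi h).elim⟩
  choose y hy using this
  obtain ⟨η, σ1, n1, c1, k1, k2, k3, k4, k5, k6, k7, k8, k9⟩ :=
    skeleton hE hK hx0 hL (S.image y) (by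
      intro z hz
      obtain ⟨i, hi, rfl⟩ := Finset.mem_image.1 hz
      exact (hy i hi).1)
  have hc := Finset.card_image_le (s := S) (f := y)
  set j := S.sup id + 1 with hj
  have hlt : ∀ i ∈ S, i < j := fun i hi => Nat.lt_succ_of_le (Finset.le_sup (f := id) hi)
  have nO : ∀ b ∈ O, b ∉ η := fun b hb h => H.disj b hb (k1 h)
  have lO : ∀ b ∈ O, age b < j := fun b hb => hlt _ (H.mem b hb)
  let age' : V → ℕ := fun v => if v ∈ η then j else age v
  let U' : ℕ → Set V := fun i => if i = j then K else U i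
  have aη : ∀ v ∈ η, age' v = j := fun v hv => if_pos hv
  have aO : ∀ v ∈ O, age' v = age v := fun v hv => if_neg (nO v hv)
  have Uj : U' j = K := if_pos rfl
  have US : ∀ i, i < j → U' i = U i := fun i hi => if_neg hi.ne
  have e1 : ∀ i, i < j → {b | b ∈ O ∪ η ∧ age' b = i} = {b | b ∈ O ∧ age b = i} := by
    intro i hi
    ext b
    constructor
    · rintro ⟨h1 | h1, h2⟩
      · exact ⟨h1, (aO b h1).symm.trans h2⟩
      · rw [aη b h1] at h2
        omega
    · rintro ⟨h1, h2⟩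
      exact ⟨Or.inl h1, (aO b h1).trans h2⟩
  have e2 : {b | b ∈ O ∪ η ∧ age' b = j} = η := by
    ext b
    constructor
    · rintro ⟨h1 | h1, h2⟩
      · rw [aO b h1] at h2
        exact absurd h2 (lO b h1).ne
      · exact h1
    · exact fun h1 => ⟨Or.inr h1, aη b h1⟩
  have mix : ∀ b ∈ O, ∀ b' ∈ η, age' b ≠ age' b' := fun b hb b' hb' => by
    rw [aO b hb, aη b' hb']
    exact (lO b hb).ne
  have C : Ctx G D ρ L (K \ η) (insert j S) (O ∪ η) age' (fun v => if v ∈ η then σ1 v else σ v)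
      (fun v => if v ∈ η then n1 v else n v) U' (fun v => if v ∈ η then c1 v else c0 v) := by
    refine ⟨(Finset.card_insert_le _ _).trans (by omega), ?_, ?_, ?_, ?_, ?_, ?_, ?_, ?_, ?_, ?_,
      ?_, ?_⟩
    · rintro b (hb | hb)
      · rw [aO b hb]
        exact Finset.mem_insert_of_mem (H.mem b hb)
      · rw [aη b hb]
        exact Finset.mem_insert_self _ _
    · rintro b (hb | hb) hK
      · exact H.disj b hb hK.1
      · exact hK.2 hb
    · intro i hi
      rcases Finset.mem_insert.1 hi with rfl | hi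
      · rwa [e2]
      · rw [e1 i (hlt i hi)]
        exact H.conn i hi
    · intro i hi i' hi' hii
      rcases Finset.mem_insert.1 hi with rfl | hi
      · rcases Finset.mem_insert.1 hi' with rfl | hi'
        · exact absurd hii (lt_irrefl _)
        · exact absurd (hlt _ hi') (by omega)
      rw [e1 i (hlt i hi)]
      rcases Finset.mem_insert.1 hi' with rfl | hi'
      · rw [e2]
        obtain ⟨-, b, hb, hyb⟩ := hy i hi
        exact ⟨b, hb, y i, k4 _ (Finset.mem_image_of_mem _ hi), hyb.symm⟩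
      · rw [e1 i' (hlt i' hi')]
        exact H.tch i hi i' hi' hii
    · rintro b (hb | hb)
      · rw [aO b hb, US _ (lO b hb)]
        exact H.dom b hb
      · rw [aη b hb, Uj]
        exact k1 hb
    · intro i hi
      rcases Finset.mem_insert.1 hi with rfl | hi
      · rw [Uj]
        exact sdiff_subset
      · rw [US i (hlt i hi)]
        exact sdiff_subset.trans (H.domK i hi)
    · intro i hi i' hi' hii
      rcases Finset.mem_insert.1 hi' with rfl | hi'
      · rcases Finset.mem_insert.1 hi with rfl | hi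
        · exact subset_rfl
        · rw [Uj, US i (hlt i hi)]
          exact H.domK i hi
      · rcases Finset.mem_insert.1 hi with rfl | hi
        · exact absurd (hlt _ hi') (by omega)
        · rw [US i (hlt i hi), US i' (hlt i' hi')]
          exact H.nest i hi i' hi' hii
    · rintro b (hb | hb)
      · simpa only [if_neg (nO b hb)] using H.sig b hb
      · have := k5 b hb
        simp only [if_pos hb]
        omega
    · rintro b (hb | hb) b' (hb' | hb') h1
      · rw [aO b hb, aO b' hb'] at h1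
        rw [aO b hb, US _ (lO b hb), rk_insert_lt (lO b hb)]
        simpa only [if_neg (nO b hb), if_neg (nO b' hb')] using H.low b hb b' hb' h1
      · exact (mix b hb b' hb' h1).elim
      · exact (mix b' hb' b hb h1.symm).elim
      · rw [aη b hb, Uj]
        simp only [if_pos hb, if_pos hb']
        exact fun h2 m hm => (k6 b hb b' hb' h2 m hm).trans (Nat.le_add_right _ _)
    · rintro b (hb | hb) b' (hb' | hb') h1
      · rw [aO b hb, aO b' hb'] at h1
        rw [aO b hb, US _ (lO b hb), rk_insert_lt (lO b hb)]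
        simpa only [if_neg (nO b hb), if_neg (nO b' hb')] using H.up b hb b' hb' h1
      · exact (mix b hb b' hb' h1).elim
      · exact (mix b' hb' b hb h1.symm).elim
      · rw [aη b hb, Uj]
        simp only [if_pos hb, if_pos hb']
        exact fun h2 m h4 h5 => (k7 b hb b' hb' h2 m h4 h5).le (Nat.add_le_add_left (one _) _)
    · rintro b (hb | hb) b' (hb' | hb') h1
      · rw [aO b hb, aO b' hb'] at h1
        simpa only [if_neg (nO b hb), if_neg (nO b' hb')] using H.lab b hb b' hb' h1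
      · exact (mix b hb b' hb' h1).elim
      · exact (mix b' hb' b hb h1.symm).elim
      · simp only [if_pos hb, if_pos hb']
        exact k8 b hb b' hb'
    · rintro b (hb | hb)
      · rw [aO b hb, rk_insert_lt (lO b hb)]
        simpa only [if_neg (nO b hb)] using H.labd b hb
      · simp only [if_pos hb]
        exact ((k9 b hb).1.mono (subset_univ _)).le (Nat.add_le_add_left (one _) _)
  refine step_res k1 H.card C subset_union_right ?_ ?_ ?_ ?_ hρ hh (IH _ _ _ _ _ _ _ _ k2 C)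
  · rintro b (hb | hb)
    · exact Or.inr ⟨hb, if_neg (nO b hb)⟩
    · exact Or.inl hb
  · intro v hv
    refine ⟨c1 v, (k9 v hv).2.mono ?_, Or.inl (if_pos hv).symm⟩
    rintro w ⟨h1, h2⟩
    exact ⟨h1, by simp only [if_pos h1, if_pos hv, h2]⟩
  · intro a ha
    rw [aη a ha, Uj]
  · intro e z p _ hw
    refine Or.inr ⟨fun a ha => ?_, ?_⟩
    · rw [aη a ha, rk_insert_self hlt]
      rcases hw with rfl | ⟨z, b, -, -, -, -, h5⟩
      · omega
      · have := rk_le S (age b)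
        omega
    · rcases hw with rfl | ⟨z, b, h1, h2, h3, h4, h5⟩
      · exact Or.inl rfl
      · exact Or.inr ⟨z, b, h1, h2, h3, Or.inl h4, by rwa [aO b h4, rk_insert_lt (lO b h4)]⟩

theorem main_rec [Nonempty V] (hE : ∀ x y, G.Adj x y → ∃ e, x ∈ D e ∧ y ∈ D e) (N5 : NoK5 G)
    (anti : ∀ p q, p ≤ q → ρ q ≤ ρ p)
    (grow : ∀ p ≤ 3, ρ (p + 1) + 2 * (40 * (2 * ρ (p + 1) + 4)) ≤ ρ p) (one : ∀ p, 1 ≤ ρ p)
    (hρ : ∀ p, ρ p + 1 ≤ L ∧ L + ρ p ≤ M) (hh : ∀ p ≤ 4, gg (h (p + 1)) 40 ≤ h p) (N : ℕ) :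
    ∀ (K : Set V) (S : Finset ℕ) (O : Set V) (age σ n : V → ℕ) (U : ℕ → Set V) (c0 : V → V),
      K.Finite → 5 * K.ncard + S.card < N → Ctx G D ρ L K S O age σ n U c0 →
        ∃ c, Res G D M h K S O age c0 c := by
  induction N with
  | zero => intro K S O age σ n U c0 _ h; omega
  | succ N ih =>
    intro K S O age σ n U c0 hK hN H
    refine glue fun x0 hx0 => ?_
    set K' := comp G K x0
    have sub : K' ⊆ K := comp_subset _ _
    have hK' : K'.Finite := hK.subset sub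
    have hc := ncard_le_ncard sub hK
    have H' := H.mono sub
    by_cases seen : ∀ i ∈ S, Tch G K' {b | b ∈ O ∧ age b = i}
    · refine newnode hE N5 H' (comp_conn _ _) (mem_comp_self hx0) seen one hρ hh ?_
      intro A S' O' age' σ' n' U' c0' hA C
      refine ih _ _ _ _ _ _ _ _ (hK'.subset sdiff_subset) ?_ C
      have h1 : (K' \ A).ncard < K'.ncard :=
        ncard_lt_ncard ⟨sdiff_subset, fun h => (h (mem_comp_self hx0)).2 hA⟩ hK'
      have h2 := C.card
      omega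
    · push Not at seen
      obtain ⟨x, hx, un⟩ := seen
      refine fatten H' hx un anti grow hρ hh ?_
      intro A O' age' σ' n' c0' C
      refine ih _ _ _ _ _ _ _ _ (hK'.subset sdiff_subset) ?_ C
      have h1 : (K' \ A).ncard ≤ K'.ncard := ncard_le_ncard sdiff_subset hK'
      have h2 := Finset.card_erase_add_one hx
      omega

theorem exists_consts : ∃ (ρ h : ℕ → ℕ) (L M : ℕ), (∀ p q, p ≤ q → ρ q ≤ ρ p) ∧
    (∀ p ≤ 3, ρ (p + 1) + 2 * (40 * (2 * ρ (p + 1) + 4)) ≤ ρ p) ∧ (∀ p, 1 ≤ ρ p) ∧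
    (∀ p, ρ p + 1 ≤ L ∧ L + ρ p ≤ M) ∧ ∀ p ≤ 4, gg (h (p + 1)) 40 ≤ h p := by
  have anti : ∀ p q, p ≤ q → 1000 ^ (4 - q) ≤ 1000 ^ (4 - p) := fun p q h =>
    Nat.pow_le_pow_right (by omega) (by omega)
  have one : ∀ p, 1 ≤ 1000 ^ (4 - p) := fun p => Nat.one_le_pow _ _ (by omega)
  refine ⟨fun p => 1000 ^ (4 - p), fun p => (fun t => gg t 40)^[5 - p] 0, 1000 ^ 4 + 1,
    2 * 1000 ^ 4 + 1, anti, fun p hp => ?_, one, fun p => ?_, fun p hp => ?_⟩
  · have h1 := one (p + 1)
    have h2 : 4 - p = (4 - (p + 1)) + 1 := by omega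
    simp only
    rw [h2, pow_succ]
    omega
  · have := anti 0 p (Nat.zero_le _)
    simp only [Nat.sub_zero] at this ⊢
    omega
  · have h2 : 5 - p = (5 - (p + 1)) + 1 := by omega
    simp only
    rw [h2, Function.iterate_succ_apply']

/-- The partition lemma. -/
theorem partition : ∃ M h : ℕ, ∀ (V ι : Type) [Nonempty V] (G : SimpleGraph V) (D : ι → Set V),
    (∀ x y, G.Adj x y → ∃ e, x ∈ D e ∧ y ∈ D e) → NoK5 G → ∀ W : Set V, W.Finite →
      ∃ c : V → V, (∀ v ∈ W, Rch G {w | w ∈ W ∧ c w = c v} v (c v)) ∧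
        (∀ v ∈ W, Near G D univ M v (c v)) ∧
        ∀ e x y, x ∈ D e ∩ W → Rch G (D e ∩ W) x y → Ch (HopR G W c) h x y := by
  obtain ⟨ρ, h, L, M, h1, h2, h3, h4, h5⟩ := exists_consts
  refine ⟨M, h 0, fun V ι _ G D hE N5 W hW => ?_⟩
  obtain ⟨c, R⟩ := main_rec hE N5 h1 h2 h3 h4 h5 _ W ∅ ∅ (fun _ => 0) (fun _ => 0) (fun _ => 0)
    (fun _ => univ) id hW (Nat.lt_succ_self _) (by constructor <;> simp)
  refine ⟨c, fun v hv => ?_, R.s2, fun e x y hx hxy => R.s3 e x y 0 hx hxy (Or.inl rfl)⟩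
  obtain ⟨z, k1, rfl | ⟨b, hb, -⟩⟩ := R.s1 v hv
  · exact k1
  · exact hb.elim

end Pool.Agent.Lib.MP_b893bf_co
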