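import Pool.Agent.Lib.MP_b893bf_co.Conn

set_option autoImplicit false

namespace Pool.Agent.Lib.MP_b893bf_co

open Set

variable {V : Type*} {G : SimpleGraph V}

/-- Sum of a weight along a walk. -/
def wsum (g : V → V → ZMod 2) : ∀ {a b : V}, G.Walk a b → ZMod 2
  | _, _, .nil => 0
  | a, _, .cons (v := c) _ p => g a c + wsum g p

/-- Parity data of a plane drawing. -/
structure VK (G : SimpleGraph V) (ω : V → V → V → ZMod 2) (h : V → V → ZMod 2) : Prop where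
  anti : ∀ x y, x ≠ y → h x y + h y x = 1
  sq : ∀ x y u v, G.Adj x y → G.Adj u v → x ≠ u → x ≠ v → y ≠ u → y ≠ v →
    ω u x y + ω v x y + ω x u v + ω y u v = h x u + h x v + h y u + h y v

variable {ω : V → V → V → ZMod 2} {h : V → V → ZMod 2}

theorem two_zero : (2 : ZMod 2) = 0 := rfl

theorem VK.strip (H : VK G ω h) {u v : V} (huv : G.Adj u v) {a b : V} (p : G.Walk a b)
    (hp : ∀ x ∈ p.support, x ≠ u ∧ x ≠ v) :
    wsum (ω u) p + wsum (ω v) p + ω a u v + ω b u v = h a u + h a v + h b u + h b v := by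
  induction p with
  | @nil a =>
    simp only [wsum]
    linear_combination (ω a u v - h a u - h a v) * two_zero
  | @cons a c b hac p ih =>
    simp only [wsum]
    have h1 := hp a (by simp)
    have h2 := hp c (by simp)
    have h3 := ih fun x hx => hp x (by simp [hx])
    have h4 := H.sq a c u v hac huv h1.1 h1.2 h2.1 h2.2
    linear_combination h3 + h4 - (ω c u v - h c u - h c v) * two_zero

theorem VK.square (H : VK G ω h) {a b c d : V} (p : G.Walk a b) (q : G.Walk c d)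
    (hp : ∀ x ∈ p.support, ∀ y ∈ q.support, x ≠ y) :
    wsum (ω c) p + wsum (ω d) p + wsum (ω a) q + wsum (ω b) q =
      h a c + h a d + h b c + h b d := by
  induction q with
  | @nil c =>
    simp only [wsum]
    linear_combination (wsum (ω c) p - h a c - h b c) * two_zero
  | @cons c e d hce q ih =>
    simp only [wsum]
    have h3 := ih fun x hx y hy => hp x hx y (by simp [hy])
    have h4 := H.strip hce p fun x hx => ⟨hp x hx c (by simp), hp x hx e (by simp)⟩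
    linear_combination h3 + h4 - (wsum (ω e) p - h a e - h b e) * two_zero

theorem Rch.walk {S : Set V} {x y : V} (hr : Rch G S x y) (hx : x ∈ S) :
    ∃ p : G.Walk x y, ∀ z ∈ p.support, z ∈ S := by
  refine hr.ind (fun y => ∃ p : G.Walk x y, ∀ z ∈ p.support, z ∈ S) ⟨.nil, by simpa using hx⟩ ?_
  rintro a b - hb hab ⟨p, hp⟩
  refine ⟨p.concat hab, fun z hz => ?_⟩
  simp only [SimpleGraph.Walk.support_concat, List.mem_append,
    List.mem_singleton] at hz
  rcases hz with hz | rfl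
  · exact hp z hz
  · exact hb

theorem Tch.walk {S T : Set V} (hS : Conn G S) (hT : Conn G T) (ht : Tch G S T) {x y : V}
    (hx : x ∈ S) (hy : y ∈ T) : ∃ p : G.Walk x y, ∀ z ∈ p.support, z ∈ S ∪ T :=
  (hS.union_tch hT ht x (Or.inl hx) y (Or.inr hy)).walk (Or.inl hx)

theorem VK.square' (H : VK G ω h) {A B C D : Set V} {a b c d : V} {p : G.Walk a b}
    {q : G.Walk c d} (hp : ∀ z ∈ p.support, z ∈ A ∪ B) (hq : ∀ z ∈ q.support, z ∈ C ∪ D)
    (h1 : Disjoint A C) (h2 : Disjoint A D) (h3 : Disjoint B C) (h4 : Disjoint B D) :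
    wsum (ω c) p + wsum (ω d) p + wsum (ω a) q + wsum (ω b) q =
      h a c + h a d + h b c + h b d := by
  refine H.square p q ?_
  rintro x hx y hy rfl
  rcases hp x hx with e | e <;> rcases hq x hy with e' | e'
  · exact disjoint_left.1 h1 e e'
  · exact disjoint_left.1 h2 e e'
  · exact disjoint_left.1 h3 e e'
  · exact disjoint_left.1 h4 e e'

theorem VK.noK33 (H : VK G ω h) : NoK33 G := by
  intro A B C D E F cA cB cC cD cE cF dAB dAC dBC dDE dDF dEF dAD dAE dAF dBD dBE dBF dCD dCE dCF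
    tAD tAE tAF tBD tBE tBF tCD tCE tCF
  obtain ⟨a, ha⟩ := tAD.left
  obtain ⟨b, hb⟩ := tBD.left
  obtain ⟨c, hc⟩ := tCD.left
  obtain ⟨d, hd⟩ := tAD.right
  obtain ⟨e, he⟩ := tAE.right
  obtain ⟨f, hf⟩ := tAF.right
  obtain ⟨pAD, qAD⟩ := tAD.walk cA cD ha hd
  obtain ⟨pAE, qAE⟩ := tAE.walk cA cE ha he
  obtain ⟨pAF, qAF⟩ := tAF.walk cA cF ha hf
  obtain ⟨pBD, qBD⟩ := tBD.walk cB cD hb hd
  obtain ⟨pBE, qBE⟩ := tBE.walk cB cE hb he
  obtain ⟨pBF, qBF⟩ := tBF.walk cB cF hb hf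
  obtain ⟨pCD, qCD⟩ := tCD.walk cC cD hc hd
  obtain ⟨pCE, qCE⟩ := tCE.walk cC cE hc he
  obtain ⟨pCF, qCF⟩ := tCF.walk cC cF hc hf
  have e0 := H.square' qAD qBE dAB dAE dBD.symm dDE
  have e1 := H.square' qAD qBF dAB dAF dBD.symm dDF
  have e2 := H.square' qAD qCE dAC dAE dCD.symm dDE
  have e3 := H.square' qAD qCF dAC dAF dCD.symm dDF
  have e4 := H.square' qAE qBD dAB dAD dBE.symm dDE.symm
  have e5 := H.square' qAE qBF dAB dAF dBE.symm dEF
  have e6 := H.square' qAE qCD dAC dAD dCE.symm dDE.symm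
  have e7 := H.square' qAE qCF dAC dAF dCE.symm dEF
  have e8 := H.square' qAF qBD dAB dAD dBF.symm dDF.symm
  have e9 := H.square' qAF qBE dAB dAE dBF.symm dEF.symm
  have e10 := H.square' qAF qCD dAC dAD dCF.symm dDF.symm
  have e11 := H.square' qAF qCE dAC dAE dCF.symm dEF.symm
  have e12 := H.square' qBD qCE dBC dBE dCD.symm dDE
  have e13 := H.square' qBD qCF dBC dBF dCD.symm dDF
  have e14 := H.square' qBE qCD dBC dBD dCE.symm dDE.symm
  have e15 := H.square' qBE qCF dBC dBF dCE.symm dEF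
  have e16 := H.square' qBF qCD dBC dBD dCF.symm dDF.symm
  have e17 := H.square' qBF qCE dBC dBE dCF.symm dEF.symm
  have aDE := H.anti d e ((dDE).ne_of_mem hd he)
  have aDF := H.anti d f ((dDF).ne_of_mem hd hf)
  have aEF := H.anti e f ((dEF).ne_of_mem he hf)
  have : (1 : ZMod 2) = 0 := by
    linear_combination e0 + e1 + e2 + e3 + e4 + e5 + e6 + e7 + e8 + e9 + e10 + e11 + e12 + e13 + e14 + e15 + e16 + e17 + aDE + aDF + aEF +
      (2 + (-1) * wsum (ω b) pAD + (-1) * wsum (ω e) pAD +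
      (-1) * wsum (ω a) pBE + (-1) * wsum (ω d) pBE + (-1) * wsum (ω f) pAD +
      (-1) * wsum (ω a) pBF + (-1) * wsum (ω d) pBF + (-1) * wsum (ω c) pAD +
      (-1) * wsum (ω a) pCE + (-1) * wsum (ω d) pCE + (-1) * wsum (ω a) pCF +
      (-1) * wsum (ω d) pCF + (-1) * wsum (ω b) pAE + (-1) * wsum (ω d) pAE +
      (-1) * wsum (ω a) pBD + (-1) * wsum (ω e) pBD + (-1) * wsum (ω f) pAE +
      (-1) * wsum (ω e) pBF + (-1) * wsum (ω c) pAE + (-1) * wsum (ω a) pCD +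
      (-1) * wsum (ω e) pCD + (-1) * wsum (ω e) pCF + (-1) * wsum (ω b) pAF +
      (-1) * wsum (ω d) pAF + (-1) * wsum (ω f) pBD + (-1) * wsum (ω e) pAF +
      (-1) * wsum (ω f) pBE + (-1) * wsum (ω c) pAF + (-1) * wsum (ω f) pCD +
      (-1) * wsum (ω f) pCE + (-1) * wsum (ω c) pBD + (-1) * wsum (ω b) pCE +
      (-1) * wsum (ω b) pCF + (-1) * wsum (ω c) pBE + (-1) * wsum (ω b) pCD +
      (-1) * wsum (ω c) pBF + (3) * h a b + (2) * h a e +
      (1) * h d b + (1) * h d e + (2) * h a f +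
      (1) * h d f + (3) * h a c + (2) * h d c +
      (2) * h a d + (1) * h e b + (1) * h e d +
      (1) * h e f + (2) * h e c + (1) * h f b +
      (1) * h f d + (1) * h f e + (2) * h f c +
      (3) * h b c + (1) * h b e + (1) * h b f +
      (1) * h b d) * two_zero
  exact absurd this (by decide)

theorem VK.noK5 (H : VK G ω h) : NoK5 G := by
  intro A B C D E cA cB cC cD cE dAB dAC dAD dAE dBC dBD dBE dCD dCE dDE
    tAB tAC tAD tAE tBC tBD tBE tCD tCE tDE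
  obtain ⟨a, ha⟩ := tAB.left
  obtain ⟨b, hb⟩ := tAB.right
  obtain ⟨c, hc⟩ := tAC.right
  obtain ⟨d, hd⟩ := tAD.right
  obtain ⟨e, he⟩ := tAE.right
  obtain ⟨pAB, qAB⟩ := tAB.walk cA cB ha hb
  obtain ⟨pAC, qAC⟩ := tAC.walk cA cC ha hc
  obtain ⟨pAD, qAD⟩ := tAD.walk cA cD ha hd
  obtain ⟨pAE, qAE⟩ := tAE.walk cA cE ha he
  obtain ⟨pBC, qBC⟩ := tBC.walk cB cC hb hc
  obtain ⟨pBD, qBD⟩ := tBD.walk cB cD hb hd
  obtain ⟨pBE, qBE⟩ := tBE.walk cB cE hb he
  obtain ⟨pCD, qCD⟩ := tCD.walk cC cD hc hd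
  obtain ⟨pCE, qCE⟩ := tCE.walk cC cE hc he
  obtain ⟨pDE, qDE⟩ := tDE.walk cD cE hd he
  have e0 := H.square' qAB qCD dAC dAD dBC dBD
  have e1 := H.square' qAB qCE dAC dAE dBC dBE
  have e2 := H.square' qAB qDE dAD dAE dBD dBE
  have e3 := H.square' qAC qBD dAB dAD dBC.symm dCD
  have e4 := H.square' qAC qBE dAB dAE dBC.symm dCE
  have e5 := H.square' qAC qDE dAD dAE dCD dCE
  have e6 := H.square' qAD qBC dAB dAC dBD.symm dCD.symm
  have e7 := H.square' qAD qBE dAB dAE dBD.symm dDE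
  have e8 := H.square' qAD qCE dAC dAE dCD.symm dDE
  have e9 := H.square' qAE qBC dAB dAC dBE.symm dCE.symm
  have e10 := H.square' qAE qBD dAB dAD dBE.symm dDE.symm
  have e11 := H.square' qAE qCD dAC dAD dCE.symm dDE.symm
  have e12 := H.square' qBC qDE dBD dBE dCD dCE
  have e13 := H.square' qBD qCE dBC dBE dCD.symm dDE
  have e14 := H.square' qBE qCD dBC dBD dCE.symm dDE.symm
  have aCD := H.anti c d ((dCD).ne_of_mem hc hd)
  have aCE := H.anti c e ((dCE).ne_of_mem hc he)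
  have aDE := H.anti d e ((dDE).ne_of_mem hd he)
  have : (1 : ZMod 2) = 0 := by
    linear_combination e0 + e1 + e2 + e3 + e4 + e5 + e6 + e7 + e8 + e9 + e10 + e11 + e12 + e13 + e14 + aCD + aCE + aDE +
      (2 + (-1) * wsum (ω c) pAB + (-1) * wsum (ω d) pAB +
      (-1) * wsum (ω a) pCD + (-1) * wsum (ω b) pCD + (-1) * wsum (ω e) pAB +
      (-1) * wsum (ω a) pCE + (-1) * wsum (ω b) pCE + (-1) * wsum (ω a) pDE +
      (-1) * wsum (ω b) pDE + (-1) * wsum (ω b) pAC + (-1) * wsum (ω d) pAC +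
      (-1) * wsum (ω a) pBD + (-1) * wsum (ω c) pBD + (-1) * wsum (ω e) pAC +
      (-1) * wsum (ω a) pBE + (-1) * wsum (ω c) pBE + (-1) * wsum (ω c) pDE +
      (-1) * wsum (ω b) pAD + (-1) * wsum (ω c) pAD + (-1) * wsum (ω a) pBC +
      (-1) * wsum (ω d) pBC + (-1) * wsum (ω e) pAD + (-1) * wsum (ω d) pBE +
      (-1) * wsum (ω d) pCE + (-1) * wsum (ω b) pAE + (-1) * wsum (ω c) pAE +
      (-1) * wsum (ω e) pBC + (-1) * wsum (ω d) pAE + (-1) * wsum (ω e) pBD +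
      (-1) * wsum (ω e) pCD + (3) * h a c + (3) * h a d +
      (2) * h b c + (2) * h b d + (3) * h a e +
      (2) * h b e + (3) * h a b + (1) * h c b +
      (1) * h c d + (1) * h c e + (1) * h d b +
      (1) * h d c + (1) * h d e + (1) * h e b +
      (1) * h e c + (1) * h e d) * two_zero
  exact absurd this (by decide)

/-- The square grid. -/
def grid : SimpleGraph (ℤ × ℤ) where
  Adj x y := (x.1 = y.1 ∧ (x.2 + 1 = y.2 ∨ y.2 + 1 = x.2)) ∨
    (x.2 = y.2 ∧ (x.1 + 1 = y.1 ∨ y.1 + 1 = x.1))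
  symm := ⟨fun _ _ h => by omega⟩
  loopless := ⟨fun _ h => by omega⟩

/-- Crossing a ray. -/
def gω (v x y : ℤ × ℤ) : ZMod 2 :=
  if x.1 = y.1 ∧ v.1 < x.1 ∧ x.2 + y.2 = 2 * v.2 + 1 then 1 else 0

/-- Crossing the opposite ray. -/
def gω' (v x y : ℤ × ℤ) : ZMod 2 :=
  if x.1 = y.1 ∧ x.1 < v.1 ∧ x.2 + y.2 + 1 = 2 * v.2 then 1 else 0

/-- The upper half plane. -/
def gh (x u : ℤ × ℤ) : ZMod 2 := if x.2 < u.2 ∨ (x.2 = u.2 ∧ u.1 < x.1) then 1 else 0

theorem gω_add (v x y : ℤ × ℤ) (hxy : grid.Adj x y) (h1 : v ≠ x) (h2 : v ≠ y) :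
    gω v x y = gω' v x y + gh v x + gh v y := by
  obtain ⟨v1, v2⟩ := v
  obtain ⟨x1, x2⟩ := x
  obtain ⟨y1, y2⟩ := y
  simp only [grid, ne_eq, Prod.mk.injEq] at hxy h1 h2
  simp only [gω, gω', gh]
  split_ifs <;> first | rfl | omega

theorem gω_sq (x y u v : ℤ × ℤ) (hxy : grid.Adj x y) (huv : grid.Adj u v) (h1 : x ≠ u)
    (h2 : x ≠ v) (h3 : y ≠ u) (h4 : y ≠ v) :
    gω u x y + gω v x y + gω' x u v + gω' y u v = 0 := by
  obtain ⟨v1, v2⟩ := v
  obtain ⟨u1, u2⟩ := u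
  obtain ⟨x1, x2⟩ := x
  obtain ⟨y1, y2⟩ := y
  simp only [grid, ne_eq, Prod.mk.injEq] at hxy huv h1 h2 h3 h4
  simp only [gω, gω']
  split_ifs <;> first | rfl | omega

theorem grid_vk : VK grid gω gh := by
  constructor
  · rintro ⟨x1, x2⟩ ⟨y1, y2⟩ e
    simp only [ne_eq, Prod.mk.injEq] at e
    simp only [gh]
    split_ifs <;> first | rfl | omega
  · intro x y u v hxy huv h1 h2 h3 h4
    have := gω_sq x y u v hxy huv h1 h2 h3 h4
    have e1 := gω_add x u v huv h1 h2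
    have e2 := gω_add y u v huv h3 h4
    linear_combination this + e1 + e2

theorem grid_noK5 : NoK5 grid := grid_vk.noK5

end Pool.Agent.Lib.MP_b893bf_co
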