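import Pool.Agent.Lib.MP_b893bf_co.Swap
import Pool.Agent.Lib.MP_b893bf_co.VanKampen

set_option autoImplicit false

namespace Pool.Agent.Lib.MP_b893bf_co

open Set

/-- An injective path from `a` to `b` inside `S`. -/
def IsArc (S : Set (ℝ × ℝ)) (a b : ℝ × ℝ) : Prop :=
  ∃ γ : ℝ → ℝ × ℝ, Continuous γ ∧ InjOn γ (Icc 0 1) ∧ γ 0 = a ∧ γ 1 = b ∧ MapsTo γ (Icc 0 1) S

theorem IsArc.mono {S T : Set (ℝ × ℝ)} {a b : ℝ × ℝ} (h : IsArc S a b) (hST : S ⊆ T) :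
    IsArc T a b := by
  obtain ⟨γ, h1, h2, h3, h4, h5⟩ := h
  exact ⟨γ, h1, h2, h3, h4, h5.mono_right hST⟩

theorem arc_seg {a b : ℝ × ℝ} (h : a ≠ b) :
    IsArc {z | ∃ t ∈ Icc (0 : ℝ) 1, z = AffineMap.lineMap a b t} a b :=
  ⟨AffineMap.lineMap a b, AffineMap.lineMap_continuous,
    (AffineMap.lineMap_injective ℝ h).injOn, by simp, by simp, fun t ht => ⟨t, ht, rfl⟩⟩

theorem IsArc.trans {S T : Set (ℝ × ℝ)} {a b c : ℝ × ℝ} (h : IsArc S a b) (h' : IsArc T b c)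
    (hST : ∀ z ∈ S, z ∈ T → z = b) : IsArc (S ∪ T) a c := by
  obtain ⟨γ, h1, h2, h3, h4, h5⟩ := h
  obtain ⟨δ, k1, k2, k3, k4, k5⟩ := h'
  have one : (1 : ℝ) ∈ Icc (0 : ℝ) 1 := by simp
  have zero : (0 : ℝ) ∈ Icc (0 : ℝ) 1 := by simp
  have mix : ∀ s ∈ Icc (0 : ℝ) 1, ∀ t ∈ Icc (0 : ℝ) 1, γ s = δ t → t = 0 := by
    intro s hs t ht e
    exact k2 ht zero (by rw [k3]; exact hST _ (e ▸ h5 hs) (k5 ht))
  refine ⟨fun t => if t ≤ 1 / 2 then γ (2 * t) else δ (2 * t - 1), ?_, ?_, ?_, ?_, ?_⟩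
  · refine Continuous.if_le (by fun_prop) (by fun_prop) continuous_id continuous_const ?_
    rintro t rfl
    norm_num [h4, k3]
  · intro s hs t ht e
    simp only at e
    split_ifs at e with e1 e2 e2
    · have := h2 (x₁ := 2 * s) (x₂ := 2 * t) ⟨by linarith [hs.1], by linarith⟩
        ⟨by linarith [ht.1], by linarith⟩ e
      linarith
    · have := mix (2 * s) ⟨by linarith [hs.1], by linarith⟩ (2 * t - 1)
        ⟨by linarith, by linarith [ht.2]⟩ e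
      linarith
    · have := mix (2 * t) ⟨by linarith [ht.1], by linarith⟩ (2 * s - 1)
        ⟨by linarith, by linarith [hs.2]⟩ e.symm
      linarith
    · have := k2 (x₁ := 2 * s - 1) (x₂ := 2 * t - 1) ⟨by linarith, by linarith [hs.2]⟩
        ⟨by linarith, by linarith [ht.2]⟩ e
      linarith
  · norm_num [h3]
  · norm_num [k4]
  · intro t ht
    simp only
    split_ifs with e
    · exact Or.inl (h5 ⟨by linarith [ht.1], by linarith⟩)
    · exact Or.inr (k5 ⟨by linarith, by linarith [ht.2]⟩)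

/-- Twice the midpoint of two lattice points. -/
def mid (a b : ℤ × ℤ) : ℝ × ℝ := ((a.1 : ℝ) + b.1, (a.2 : ℝ) + b.2)

theorem mid_comm (a b : ℤ × ℤ) : mid a b = mid b a := by simp [mid, add_comm]

/-- The closed cell of `y` contains `z`. -/
def Nb (z : ℝ × ℝ) (y : ℤ × ℤ) : Prop :=
  2 * (y.1 : ℝ) - 1 ≤ z.1 ∧ z.1 ≤ 2 * y.1 + 1 ∧ 2 * (y.2 : ℝ) - 1 ≤ z.2 ∧ z.2 ≤ 2 * y.2 + 1

/-- All cells containing `z` belong to `S`. -/
def Ins (S : Set (ℤ × ℤ)) (z : ℝ × ℝ) : Prop := ∀ y, Nb z y → y ∈ S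

theorem exists_nb (z : ℝ × ℝ) : ∃ y, Nb z y := by
  have key : ∀ x : ℝ, 2 * ((⌊(x + 1) / 2⌋ : ℤ) : ℝ) - 1 ≤ x ∧ x ≤ 2 * (⌊(x + 1) / 2⌋ : ℤ) + 1 := by
    intro x
    have h1 := Int.floor_le ((x + 1) / 2)
    have h2 := Int.lt_floor_add_one ((x + 1) / 2)
    constructor <;> linarith
  exact ⟨(⌊(z.1 + 1) / 2⌋, ⌊(z.2 + 1) / 2⌋), (key _).1, (key _).2, (key _).1, (key _).2⟩

theorem Ins.meet {S T : Set (ℤ × ℤ)} {z : ℝ × ℝ} (h : Ins S z) (h' : Ins T z) :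
    ∃ y, y ∈ S ∧ y ∈ T := by
  obtain ⟨y, hy⟩ := exists_nb z
  exact ⟨y, h y hy, h' y hy⟩

theorem adj_cases {a x : ℤ × ℤ} (h : grid.Adj a x) :
    a = (x.1 + 1, x.2) ∨ a = (x.1 - 1, x.2) ∨ a = (x.1, x.2 + 1) ∨ a = (x.1, x.2 - 1) := by
  obtain ⟨a1, a2⟩ := a
  simp only [grid, Prod.mk.injEq] at h ⊢
  omega

theorem nb_mid {a x : ℤ × ℤ} (h : grid.Adj a x) : Nb (mid a x) x := by
  rcases adj_cases h with rfl | rfl | rfl | rfl <;> simp only [Nb, mid] <;> push_cast <;>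
    refine ⟨?_, ?_, ?_, ?_⟩ <;> linarith

theorem Ins.mid {S : Set (ℤ × ℤ)} {a x : ℤ × ℤ} (h : grid.Adj a x) (h' : Ins S (mid a x)) :
    a ∈ S ∧ x ∈ S :=
  ⟨h' a (mid_comm a x ▸ nb_mid h.symm), h' x (nb_mid h)⟩

theorem mid_inj {a b c d : ℤ × ℤ} (h : grid.Adj a b) (h' : grid.Adj c d) (e : mid a b = mid c d) :
    s(a, b) = s(c, d) := by
  obtain ⟨a1, a2⟩ := a
  obtain ⟨b1, b2⟩ := b
  obtain ⟨c1, c2⟩ := c
  obtain ⟨d1, d2⟩ := d
  simp only [mid, Prod.mk.injEq] at e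
  have e1 : a1 + b1 = c1 + d1 := by exact_mod_cast e.1
  have e2 : a2 + b2 = c2 + d2 := by exact_mod_cast e.2
  simp only [grid] at h h'
  simp only [Sym2.eq_iff, Prod.mk.injEq]
  omega

/-- A lattice rectangle. -/
def IsRect (S : Set (ℤ × ℤ)) : Prop :=
  ∃ a1 b1 a2 b2 : ℤ, ∀ y, y ∈ S ↔ a1 ≤ y.1 ∧ y.1 ≤ b1 ∧ a2 ≤ y.2 ∧ y.2 ≤ b2

theorem line_fst (a b : ℝ × ℝ) (t : ℝ) :
    (AffineMap.lineMap a b t).1 = (1 - t) * a.1 + t * b.1 := by
  simp only [AffineMap.lineMap_apply, vsub_eq_sub, vadd_eq_add, Prod.fst_add, Prod.smul_fst,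
    Prod.fst_sub, smul_eq_mul]
  ring

theorem line_snd (a b : ℝ × ℝ) (t : ℝ) :
    (AffineMap.lineMap a b t).2 = (1 - t) * a.2 + t * b.2 := by
  simp only [AffineMap.lineMap_apply, vsub_eq_sub, vadd_eq_add, Prod.snd_add, Prod.smul_snd,
    Prod.snd_sub, smul_eq_mul]
  ring

theorem IsRect.ins {S : Set (ℤ × ℤ)} (h : IsRect S) {c y y' : ℤ × ℤ} (hc : c ∈ S) (hy : y ∈ S)
    (hyy : grid.Adj y' y ∨ y' = y) {t : ℝ} (ht : t ∈ Ico (0 : ℝ) 1) :
    Ins S (AffineMap.lineMap (mid c c) (mid y y') t) := by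
  obtain ⟨a1, b1, a2, b2, h⟩ := h
  have key : ∀ a b c y y' w : ℤ, a ≤ c → c ≤ b → a ≤ y → y ≤ b → y ≤ y' + 1 → y' ≤ y + 1 →
      2 * (w : ℝ) - 1 ≤ (1 - t) * ((c : ℝ) + c) + t * ((y : ℝ) + y') →
      (1 - t) * ((c : ℝ) + c) + t * ((y : ℝ) + y') ≤ 2 * w + 1 → a ≤ w ∧ w ≤ b := by
    intro a b c y y' w h1 h2 h3 h4 h5 h6 h7 h8
    have g1 : (a : ℝ) ≤ c := by exact_mod_cast h1
    have g2 : (c : ℝ) ≤ b := by exact_mod_cast h2
    have g3 : (a : ℝ) ≤ y := by exact_mod_cast h3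
    have g4 : (y : ℝ) ≤ b := by exact_mod_cast h4
    have g5 : (y : ℝ) ≤ y' + 1 := by exact_mod_cast h5
    have g6 : (y' : ℝ) ≤ y + 1 := by exact_mod_cast h6
    have t0 := ht.1
    have t1 := ht.2
    have k1 : (a : ℝ) < w + 1 := by nlinarith
    have k2 : (w : ℝ) < b + 1 := by nlinarith
    have k3 : a < w + 1 := by exact_mod_cast k1
    have k4 : w < b + 1 := by exact_mod_cast k2
    omega
  rw [h] at hc hy
  have hn : y.1 ≤ y'.1 + 1 ∧ y'.1 ≤ y.1 + 1 ∧ y.2 ≤ y'.2 + 1 ∧ y'.2 ≤ y.2 + 1 := by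
    rcases hyy with hyy | rfl
    · simp only [grid] at hyy
      omega
    · omega
  rintro w ⟨w1, w2, w3, w4⟩
  rw [line_fst] at w1 w2
  rw [line_snd] at w3 w4
  have k1 := key a1 b1 c.1 y.1 y'.1 w.1 hc.1 hc.2.1 hy.1 hy.2.1 hn.1 hn.2.1 w1 w2
  have k2 := key a2 b2 c.2 y.2 y'.2 w.2 hc.2.2.1 hc.2.2.2 hy.2.2.1 hy.2.2.2 hn.2.2.1 hn.2.2.2 w3 w4
  exact (h w).2 ⟨k1.1, k1.2, k2.1, k2.2⟩

theorem IsRect.ins_self {S : Set (ℤ × ℤ)} (h : IsRect S) {c : ℤ × ℤ} (hc : c ∈ S) :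
    Ins S (mid c c) := by
  simpa using h.ins hc hc (Or.inr rfl) (t := 0) (by simp)

theorem ins_cell {a x c : ℤ × ℤ} (h : grid.Adj a x) (h' : grid.Adj c x) (hac : a ≠ c) {t : ℝ}
    (ht : t ∈ Ioo (0 : ℝ) 1) : Ins {x} (AffineMap.lineMap (mid a x) (mid x c) t) := by
  have key : ∀ (x w : ℤ) (z : ℝ), 2 * (x : ℝ) - 1 < z → z < 2 * x + 1 → 2 * (w : ℝ) - 1 ≤ z →
      z ≤ 2 * w + 1 → w = x := by
    intro x w z h1 h2 h3 h4
    have k1 : (x : ℝ) < w + 1 := by linarith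
    have k2 : (w : ℝ) < x + 1 := by linarith
    have k3 : x < w + 1 := by exact_mod_cast k1
    have k4 : w < x + 1 := by exact_mod_cast k2
    omega
  rintro w ⟨w1, w2, w3, w4⟩
  have t0 := ht.1
  have t1 := ht.2
  refine Prod.ext (key _ _ _ ?_ ?_ w1 w2) (key _ _ _ ?_ ?_ w3 w4) <;>
    simp only [line_fst, line_snd] <;>
    rcases adj_cases h with rfl | rfl | rfl | rfl <;>
    rcases adj_cases h' with rfl | rfl | rfl | rfl <;>
    first
      | exact absurd rfl hac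
      | (simp only [mid]; push_cast; linarith)

theorem rad_unique {S : Set (ℤ × ℤ)} {o m m' : ℝ × ℝ}
    (h : ∀ t ∈ Ico (0 : ℝ) 1, Ins S (AffineMap.lineMap o m t)) (hm' : ¬ Ins S m') {s t : ℝ}
    (hs : 0 ≤ s) (hst : s ≤ t) (ht : 0 < t)
    (e : AffineMap.lineMap o m s = AffineMap.lineMap o m' t) : m = m' := by
  have e1 := congrArg Prod.fst e
  have e2 := congrArg Prod.snd e
  simp only [line_fst, line_snd] at e1 e2
  have e3 : m' = AffineMap.lineMap o m (s / t) := by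
    refine Prod.ext ?_ ?_
    · rw [line_fst]
      field_simp
      linarith
    · rw [line_snd]
      field_simp
      linarith
  rcases hst.eq_or_lt with rfl | hst
  · rw [e3, div_self ht.ne']
    simp
  · exact (hm' (e3 ▸ h _ ⟨by positivity, (div_lt_one ht).2 hst⟩)).elim

theorem cross_cell {a c a' c' x : ℤ × ℤ} (h1 : grid.Adj a x) (h2 : grid.Adj c x)
    (h3 : grid.Adj a' x) (h4 : grid.Adj c' x) (n1 : a ≠ c) (n2 : a' ≠ c') (n3 : a ≠ a')
    (n4 : a ≠ c') (n5 : c ≠ a') (n6 : c ≠ c') {s t : ℝ} (hs : s ∈ Ioo (0 : ℝ) 1)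
    (ht : t ∈ Ioo (0 : ℝ) 1)
    (e : AffineMap.lineMap (mid a x) (mid x c) s = AffineMap.lineMap (mid a' x) (mid x c') t) :
    AffineMap.lineMap (mid a x) (mid x c) s = mid x x ∧ a + c = x + x ∧ a' + c' = x + x := by
  have e1 := congrArg Prod.fst e
  have e2 := congrArg Prod.snd e
  have s0 := hs.1
  have s1 := hs.2
  have t0 := ht.1
  have t1 := ht.2
  rw [Prod.ext_iff, Prod.ext_iff, Prod.ext_iff]
  simp only [line_fst, line_snd] at e1 e2 ⊢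
  clear e hs ht
  rcases adj_cases h1 with rfl | rfl | rfl | rfl <;>
    rcases adj_cases h2 with rfl | rfl | rfl | rfl <;>
    first
      | exact absurd rfl n1
      | (rcases adj_cases h3 with rfl | rfl | rfl | rfl <;>
          first
            | exact absurd rfl n3
            | exact absurd rfl n5
            | (rcases adj_cases h4 with rfl | rfl | rfl | rfl <;>
                first
                  | exact absurd rfl n2
                  | exact absurd rfl n4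
                  | exact absurd rfl n6
                  | (simp only [mid, Prod.fst_add, Prod.snd_add] at e1 e2 ⊢
                     push_cast at e1 e2 ⊢
                     first
                       | (exfalso; linarith)
                       | (refine ⟨⟨by linarith, by linarith⟩, ⟨?_, ?_⟩, ?_, ?_⟩ <;>
                          first | trivial | omega))))

end Pool.Agent.Lib.MP_b893bf_co
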