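import Pool.Agent.Lib.MP_b893bf_co.Realize

set_option autoImplicit false

namespace Pool.Agent.Lib.MP_b893bf_co

open Set

/-- Walks paying one unit for each change of label. -/
inductive Tr {V : Type*} (Γ : SimpleGraph V) (c : V → V) : ℕ → V → V → Prop
  | refl (t : ℕ) (x : V) : Tr Γ c t x x
  | free {t : ℕ} {x y z : V} : Tr Γ c t x y → Γ.Adj y z → c y = c z → Tr Γ c t x z
  | pay {t : ℕ} {x y z : V} : Tr Γ c t x y → Γ.Adj y z → Tr Γ c (t + 1) x z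

section
variable {V : Type*} {Γ : SimpleGraph V} {c : V → V} {s t : ℕ} {x y z : V}

theorem Tr.succ (h : Tr Γ c t x y) : Tr Γ c (t + 1) x y := by
  induction h with
  | refl => exact Tr.refl _ _
  | free _ h1 h2 ih => exact ih.free h1 h2
  | pay _ h1 ih => exact ih.pay h1

theorem Tr.le (h : Tr Γ c s x y) (hst : s ≤ t) : Tr Γ c t x y := by
  induction hst with
  | refl => exact h
  | step _ ih => exact ih.succ

theorem Tr.trans (h : Tr Γ c s x y) (h' : Tr Γ c t y z) : Tr Γ c (s + t) x z := by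
  induction h' with
  | refl => exact h.le (Nat.le_add_right _ _)
  | free _ h1 h2 ih => exact (ih h).free h1 h2
  | pay _ h1 ih => exact (ih h).pay h1

theorem Tr.symm (h : Tr Γ c t x y) : Tr Γ c t y x := by
  induction h with
  | refl => exact Tr.refl _ _
  | free _ h1 h2 ih => exact (((Tr.refl 0 _).free h1.symm h2.symm).trans ih).le (by omega)
  | pay _ h1 ih => exact (((Tr.refl 0 _).pay h1.symm).trans ih).le (by omega)

end

/-- The data of the coarse network. -/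
structure Net {R : Type*} (Γ : SimpleGraph (ℤ × ℤ)) (W : Set (ℤ × ℤ)) (B : R → Set (ℤ × ℤ))
    (Port : R → ℤ × ℤ → ℤ × ℤ → Prop) : Prop where
  le : ∀ x y, Γ.Adj x y → grid.Adj x y ∧ x ∈ W ∧ y ∈ W
  port : ∀ u b x, Port u b x → grid.Adj b x ∧ b ∈ B u ∧ x ∈ W
  dW : ∀ u, ∀ x ∈ B u, x ∉ W
  dB : ∀ u v, u ≠ v → ∀ x ∈ B u, x ∉ B v

/-- Projection to the coarse grid. -/
def prj (m : ℤ) (y : ℤ × ℤ) : ℤ × ℤ := (y.1 / m, y.2 / m)

/-- The fine network. -/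
def fine {R : Type*} (Γ : SimpleGraph (ℤ × ℤ)) (Port : R → ℤ × ℤ → ℤ × ℤ → Prop) (m : ℤ) :
    SimpleGraph (ℤ × ℤ) where
  Adj y y' := grid.Adj y y' ∧ (prj m y = prj m y' ∨ Γ.Adj (prj m y) (prj m y') ∨
    (∃ u, Port u (prj m y) (prj m y')) ∨ ∃ u, Port u (prj m y') (prj m y))
  symm := ⟨fun _ _ h => ⟨h.1.symm, h.2.imp Eq.symm (Or.imp Γ.adj_symm Or.symm)⟩⟩
  loopless := ⟨fun _ h => h.1.ne rfl⟩

open Classical in
/-- The price of a fine edge. -/
noncomputable def cost (W : Set (ℤ × ℤ)) (c : ℤ × ℤ → ℤ × ℤ) (m : ℤ) : Sym2 (ℤ × ℤ) → ℕ :=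
  Sym2.lift ⟨fun y y' => if prj m y ∈ W ∧ prj m y' ∈ W ∧ c (prj m y) ≠ c (prj m y') then 1 else 0,
    fun y y' => by simp only [and_left_comm, ne_comm]⟩

/-- The price of a multiset of fine edges. -/
noncomputable def cst (W : Set (ℤ × ℤ)) (c : ℤ × ℤ → ℤ × ℤ) (m : ℤ)
    (M : Multiset (Sym2 (ℤ × ℤ))) : ℕ := (M.map (cost W c m)).sum

variable {R : Type*} {Γ : SimpleGraph (ℤ × ℤ)} {W : Set (ℤ × ℤ)} {B : R → Set (ℤ × ℤ)}
  {Port : R → ℤ × ℤ → ℤ × ℤ → Prop} {c : ℤ × ℤ → ℤ × ℤ} {m : ℤ}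

theorem cst_mono {M M' : Multiset (Sym2 (ℤ × ℤ))} (h : M ≤ M') : cst W c m M ≤ cst W c m M' := by
  obtain ⟨T, rfl⟩ := Multiset.le_iff_exists_add.1 h
  simp [cst]

theorem cst_sum {E : Type*} (s : Finset E) (f : E → Multiset (Sym2 (ℤ × ℤ))) :
    cst W c m (∑ e ∈ s, f e) = ∑ e ∈ s, cst W c m (f e) := by
  classical
  induction s using Finset.induction_on with
  | empty => simp [cst]
  | insert x s hx ih =>
    rw [Finset.sum_insert hx, Finset.sum_insert hx, ← ih]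
    simp [cst]

theorem cst_cons (a b : ℤ × ℤ) (l : List (ℤ × ℤ)) :
    cst W c m (edg (a :: b :: l)) = cost W c m s(a, b) + cst W c m (edg (b :: l)) := by
  simp [cst, edg]

theorem cost_le (a b : ℤ × ℤ) : cost W c m s(a, b) ≤ 1 := by
  simp only [cost, Sym2.lift_mk]
  split_ifs <;> omega

theorem cost_zero {a b : ℤ × ℤ}
    (h : prj m a ∉ W ∨ prj m b ∉ W ∨ c (prj m a) = c (prj m b)) : cost W c m s(a, b) = 0 := by
  simp only [cost, Sym2.lift_mk]
  rw [if_neg]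
  tauto

theorem port_of_adj (N : Net Γ W B Port) {y b : ℤ × ℤ} {v : R} (h : (fine Γ Port m).Adj y b)
    (hy : prj m y ∈ W) (hb : prj m b ∈ B v) : Port v (prj m b) (prj m y) := by
  rcases h.2 with h | h | ⟨u, h⟩ | ⟨u, h⟩
  · exact (N.dW v _ hb (h ▸ hy)).elim
  · exact (N.dW v _ hb (N.le _ _ h).2.2).elim
  · exact (N.dW u _ (N.port _ _ _ h).2.1 hy).elim
  · by_cases e : u = v
    · exact e ▸ h
    · exact (N.dB u v e _ (N.port _ _ _ h).2.1 hb).elim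

theorem tr_of_adj (N : Net Γ W B Port) {y z : ℤ × ℤ} (h : (fine Γ Port m).Adj y z)
    (hy : prj m y ∈ W) (hz : prj m z ∈ W) : Tr Γ c (cost W c m s(y, z)) (prj m y) (prj m z) := by
  rcases h.2 with h | h | ⟨u, h⟩ | ⟨u, h⟩
  · exact h ▸ Tr.refl _ _
  · by_cases e : c (prj m y) = c (prj m z)
    · exact (Tr.refl _ _).free h e
    · simp only [cost, Sym2.lift_mk, if_pos (And.intro hy (And.intro hz e))]
      exact (Tr.refl 0 _).pay h
  · exact (N.dW u _ (N.port _ _ _ h).2.1 hy).elim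
  · exact (N.dW u _ (N.port _ _ _ h).2.1 hz).elim

theorem proj_tail (N : Net Γ W B Port) {b : ℤ × ℤ} {v : R} (hb : prj m b ∈ B v)
    (M : List (ℤ × ℤ)) : ∀ y, (y :: (M ++ [b])).IsChain (fine Γ Port m).Adj →
      (∀ z ∈ y :: M, prj m z ∈ W) → ∃ x, Port v (prj m b) x ∧
        ∀ z ∈ y :: M, Tr Γ c (cst W c m (edg (y :: (M ++ [b])))) (prj m z) x := by
  induction M with
  | nil =>
    intro y h1 h2
    refine ⟨_, port_of_adj N (List.isChain_cons_cons.1 h1).1 (h2 y (by simp)) hb, ?_⟩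
    intro z hz
    rw [List.mem_singleton.1 hz]
    exact Tr.refl _ _
  | cons y' M ih =>
    intro y h1 h2
    have h3 := List.isChain_cons_cons.1 h1
    obtain ⟨x, h4, h5⟩ := ih y' h3.2 fun z hz => h2 z (List.mem_cons_of_mem _ hz)
    refine ⟨x, h4, fun z hz => ?_⟩
    rw [List.cons_append, cst_cons]
    rcases List.mem_cons.1 hz with rfl | hz
    · exact (tr_of_adj N h3.1 (h2 _ (by simp)) (h2 _ (by simp))).trans (h5 y' (by simp))
    · exact (h5 z hz).le (Nat.le_add_left _ _)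

theorem proj_ok (N : Net Γ W B Port) {u v : R} (huv : u ≠ v) {l : List (ℤ × ℤ)}
    (h : Ok (fine Γ Port m) (fun u => prj m ⁻¹' B u) (prj m ⁻¹' W) u v l) :
    ∃ xu xv, (∃ b, Port u b xu) ∧ (∃ b, Port v b xv) ∧ Tr Γ c (cst W c m (edg l)) xu xv ∧
      ∀ z ∈ l, prj m z ∈ W → Tr Γ c (cst W c m (edg l)) (prj m z) xv := by
  obtain ⟨h1, a, M, b, rfl, h2, h3, h4⟩ := h
  cases M with
  | nil =>
    exfalso
    rcases (List.isChain_cons_cons.1 h1).1.2 with h | h | ⟨w, h⟩ | ⟨w, h⟩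
    · exact N.dB u v huv _ h2 (h ▸ h3)
    · exact N.dW u _ h2 (N.le _ _ h).2.1
    · exact N.dW v _ h3 (N.port _ _ _ h).2.2
    · exact N.dW u _ h2 (N.port _ _ _ h).2.2
  | cons y M =>
    have h5 := List.isChain_cons_cons.1 h1
    obtain ⟨x, h6, h7⟩ := proj_tail (c := c) N h3 M y h5.2 h4
    have le : cst W c m (edg (y :: (M ++ [b]))) ≤ cst W c m (edg (a :: (y :: M ++ [b]))) :=
      cst_mono (edg_cons_le _ _)
    refine ⟨prj m y, x, ⟨_, port_of_adj N h5.1.symm (h4 y (by simp)) h2⟩, ⟨_, h6⟩,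
      (h7 y (by simp)).le le, fun z hz hz' => (h7 z ?_).le le⟩
    rcases List.mem_cons.1 hz with rfl | hz
    · exact (N.dW u _ h2 hz').elim
    rcases List.mem_append.1 hz with hz | hz
    · exact hz
    · rw [List.mem_singleton.1 hz] at hz'
      exact (N.dW v _ h3 hz').elim

/-- Fine edges in lane `i`. -/
def Lane (m i : ℤ) (y y' : ℤ × ℤ) : Prop :=
  (y.2 = y'.2 ∧ y.2 % m = i) ∨ (y.1 = y'.1 ∧ y.1 % m = i)

theorem Lane.symm {i : ℤ} {y y' : ℤ × ℤ} (h : Lane m i y y') : Lane m i y' y := by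
  rcases h with ⟨h1, h2⟩ | ⟨h1, h2⟩
  · exact Or.inl ⟨h1.symm, h1 ▸ h2⟩
  · exact Or.inr ⟨h1.symm, h1 ▸ h2⟩

theorem Lane.unique {i j : ℤ} {y y' : ℤ × ℤ} (h : grid.Adj y y') (h1 : Lane m i y y')
    (h2 : Lane m j y y') : i = j := by
  simp only [grid] at h
  rcases h1 with h1 | h1 <;> rcases h2 with h2 | h2
  · exact h1.2.symm.trans h2.2
  · omega
  · omega
  · exact h1.2.symm.trans h2.2

variable (Γ W Port c m) in
/-- Fine walks in lane `i`. -/
inductive FW (i : ℤ) : ℕ → ℤ × ℤ → ℤ × ℤ → Prop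
  | refl (t : ℕ) (y : ℤ × ℤ) : prj m y ∈ W → FW i t y y
  | cons {t : ℕ} {y y' z : ℤ × ℤ} : prj m y ∈ W → (fine Γ Port m).Adj y y' → Lane m i y y' →
      FW i t y' z → FW i (cost W c m s(y, y') + t) y z

variable {i : ℤ}

theorem FW.le {s t : ℕ} {y z : ℤ × ℤ} (h : FW Γ W Port c m i s y z) (hst : s ≤ t) :
    FW Γ W Port c m i t y z := by
  induction h generalizing t with
  | refl _ y h => exact FW.refl _ y h
  | @cons t' y y' z h1 h2 h3 _ ih =>
    obtain ⟨d, rfl⟩ := Nat.exists_eq_add_of_le hst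
    rw [add_assoc]
    exact FW.cons h1 h2 h3 (ih (Nat.le_add_right _ _))

theorem FW.trans {s t : ℕ} {y z w : ℤ × ℤ} (h : FW Γ W Port c m i s y z)
    (h' : FW Γ W Port c m i t z w) : FW Γ W Port c m i (s + t) y w := by
  induction h with
  | refl => exact h'.le (Nat.le_add_left _ _)
  | cons h1 h2 h3 _ ih =>
    rw [add_assoc]
    exact FW.cons h1 h2 h3 (ih h')

theorem FW.left {s : ℕ} {y z : ℤ × ℤ} (h : FW Γ W Port c m i s y z) : prj m y ∈ W := by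
  cases h <;> assumption

theorem FW.symm {s : ℕ} {y z : ℤ × ℤ} (h : FW Γ W Port c m i s y z) :
    FW Γ W Port c m i s z y := by
  induction h with
  | refl _ y h => exact FW.refl _ y h
  | cons h1 h2 h3 h4 ih =>
    refine (ih.trans (FW.cons h4.left h2.symm h3.symm (FW.refl 0 _ h1))).le ?_
    rw [Sym2.eq_swap]
    omega

theorem FW.list {s : ℕ} {y z : ℤ × ℤ} (h : FW Γ W Port c m i s y z) :
    ∃ T, (y :: T).IsChain (fine Γ Port m).Adj ∧ (∃ T', y :: T = T' ++ [z]) ∧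
      (∀ w ∈ y :: T, prj m w ∈ W) ∧ (∀ a b, s(a, b) ∈ edg (y :: T) → Lane m i a b) ∧
      cst W c m (edg (y :: T)) ≤ s := by
  induction h with
  | refl _ y h => exact ⟨[], by simp, ⟨[], rfl⟩, by simpa using h, by simp [edg], by simp [edg, cst]⟩
  | @cons t y y' z h1 h2 h3 _ ih =>
    obtain ⟨T, k1, ⟨T', k2⟩, k3, k4, k5⟩ := ih
    refine ⟨y' :: T, List.isChain_cons_cons.2 ⟨h2, k1⟩, ⟨y :: T', by rw [k2]; rfl⟩, ?_, ?_, ?_⟩
    · intro w hw
      rcases List.mem_cons.1 hw with rfl | hw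
      · exact h1
      · exact k3 w hw
    · intro a b hab
      simp only [edg, Multiset.mem_cons] at hab
      rcases hab with hab | hab
      · rcases Sym2.eq_iff.1 hab with ⟨rfl, rfl⟩ | ⟨rfl, rfl⟩
        · exact h3
        · exact h3.symm
      · exact k4 a b hab
    · rw [cst_cons]
      omega

theorem pdiv {x j : ℤ} (h0 : 0 ≤ j) (h1 : j < m) : (m * x + j) / m = x := by
  rw [add_comm, Int.add_mul_ediv_left _ _ (by omega), Int.ediv_eq_zero_of_lt h0 h1, zero_add]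

theorem pmod {x j : ℤ} (h0 : 0 ≤ j) (h1 : j < m) : (m * x + j) % m = j := by
  rw [add_comm, Int.add_mul_emod_self_left, Int.emod_eq_of_lt h0 h1]

theorem prj_pt {x : ℤ × ℤ} {j k : ℤ} (j0 : 0 ≤ j) (j1 : j < m) (k0 : 0 ≤ k) (k1 : k < m) :
    prj m (m * x.1 + j, m * x.2 + k) = x := Prod.ext (pdiv j0 j1) (pdiv k0 k1)

theorem fw_row (i0 : 0 ≤ i) (i1 : i < m) {x : ℤ × ℤ} (hx : x ∈ W) {j : ℤ} (j0 : 0 ≤ j)
    (j1 : j < m) :
    FW Γ W Port c m i 0 (m * x.1 + j, m * x.2 + i) (m * x.1 + i, m * x.2 + i) := by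
  have key : ∀ n : ℕ, (n : ℤ) < m →
      FW Γ W Port c m i 0 (m * x.1 + n, m * x.2 + i) (m * x.1 + 0, m * x.2 + i) := by
    intro n
    induction n with
    | zero => exact fun h => FW.refl _ _ (by rwa [prj_pt (by omega) h i0 i1])
    | succ n ih =>
      intro h
      push_cast at h ⊢
      have e1 := prj_pt (x := x) (j := n + 1) (by omega) h i0 i1
      have e2 := prj_pt (x := x) (j := n) (by omega) (by omega) i0 i1
      refine (FW.cons (y := (m * x.1 + (n + 1), m * x.2 + i)) (y' := (m * x.1 + n, m * x.2 + i))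
        (by rwa [e1]) ⟨Or.inr ⟨rfl, Or.inr (by simp only; omega)⟩,
        Or.inl (e1.trans e2.symm)⟩ (Or.inl ⟨rfl, pmod i0 i1⟩) (ih (by omega))).le ?_
      rw [cost_zero (Or.inr (Or.inr (by rw [e1, e2])))]
  lift j to ℕ using j0
  lift i to ℕ using i0
  exact (key j j1).trans (key i i1).symm

theorem fw_col (i0 : 0 ≤ i) (i1 : i < m) {x : ℤ × ℤ} (hx : x ∈ W) {j : ℤ} (j0 : 0 ≤ j)
    (j1 : j < m) :
    FW Γ W Port c m i 0 (m * x.1 + i, m * x.2 + j) (m * x.1 + i, m * x.2 + i) := by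
  have key : ∀ n : ℕ, (n : ℤ) < m →
      FW Γ W Port c m i 0 (m * x.1 + i, m * x.2 + n) (m * x.1 + i, m * x.2 + 0) := by
    intro n
    induction n with
    | zero => exact fun h => FW.refl _ _ (by rwa [prj_pt i0 i1 (by omega) h])
    | succ n ih =>
      intro h
      push_cast at h ⊢
      have e1 := prj_pt (x := x) (k := n + 1) i0 i1 (by omega) h
      have e2 := prj_pt (x := x) (k := n) i0 i1 (by omega) (by omega)
      refine (FW.cons (y := (m * x.1 + i, m * x.2 + (n + 1))) (y' := (m * x.1 + i, m * x.2 + n))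
        (by rwa [e1]) ⟨Or.inl ⟨rfl, Or.inr (by simp only; omega)⟩,
        Or.inl (e1.trans e2.symm)⟩ (Or.inr ⟨rfl, pmod i0 i1⟩) (ih (by omega))).le ?_
      rw [cost_zero (Or.inr (Or.inr (by rw [e1, e2])))]
  lift j to ℕ using j0
  lift i to ℕ using i0
  exact (key j j1).trans (key i i1).symm

theorem exits (i0 : 0 ≤ i) (i1 : i < m) {x x' : ℤ × ℤ} (h : grid.Adj x x') :
    ∃ p p', prj m p = x ∧ prj m p' = x' ∧ grid.Adj p p' ∧ Lane m i p p' ∧
      (x ∈ W → FW Γ W Port c m i 0 p (m * x.1 + i, m * x.2 + i)) ∧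
      (x' ∈ W → FW Γ W Port c m i 0 p' (m * x'.1 + i, m * x'.2 + i)) := by
  have a0 : (0 : ℤ) ≤ m - 1 := by omega
  have a1 : m - 1 < m := by omega
  have a2 : (0 : ℤ) < m := by omega
  have key : ∀ x x' : ℤ × ℤ, (x' = (x.1 + 1, x.2) ∨ x' = (x.1, x.2 + 1)) →
      ∃ p p', prj m p = x ∧ prj m p' = x' ∧ grid.Adj p p' ∧ Lane m i p p' ∧
      (x ∈ W → FW Γ W Port c m i 0 p (m * x.1 + i, m * x.2 + i)) ∧
      (x' ∈ W → FW Γ W Port c m i 0 p' (m * x'.1 + i, m * x'.2 + i)) := by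
    rintro x x' (h | h)
    · refine ⟨(m * x.1 + (m - 1), m * x.2 + i), (m * x'.1 + 0, m * x'.2 + i),
        prj_pt a0 a1 i0 i1, prj_pt le_rfl a2 i0 i1, Or.inr ⟨by rw [h], Or.inl ?_⟩,
        Or.inl ⟨by rw [h], pmod i0 i1⟩, fun hx => fw_row i0 i1 hx a0 a1,
        fun hx => fw_row i0 i1 hx le_rfl a2⟩
      rw [h]
      ring
    · refine ⟨(m * x.1 + i, m * x.2 + (m - 1)), (m * x'.1 + i, m * x'.2 + 0),
        prj_pt i0 i1 a0 a1, prj_pt i0 i1 le_rfl a2, Or.inl ⟨by rw [h], Or.inl ?_⟩,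
        Or.inr ⟨by rw [h], pmod i0 i1⟩, fun hx => fw_col i0 i1 hx a0 a1,
        fun hx => fw_col i0 i1 hx le_rfl a2⟩
      rw [h]
      ring
  have : (x' = (x.1 + 1, x.2) ∨ x' = (x.1, x.2 + 1)) ∨
      (x = (x'.1 + 1, x'.2) ∨ x = (x'.1, x'.2 + 1)) := by
    obtain ⟨x1, x2⟩ := x
    obtain ⟨y1, y2⟩ := x'
    simp only [grid, Prod.mk.injEq] at h ⊢
    omega
  rcases this with h | h
  · exact key x x' h
  · obtain ⟨p, p', h1, h2, h3, h4, h5, h6⟩ := key x' x h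
    exact ⟨p', p, h2, h1, h3.symm, h4.symm, h6, h5⟩

theorem lift_tr (N : Net Γ W B Port) (i0 : 0 ≤ i) (i1 : i < m) {t : ℕ} {x y : ℤ × ℤ} (hx : x ∈ W)
    (h : Tr Γ c t x y) :
    FW Γ W Port c m i t (m * x.1 + i, m * x.2 + i) (m * y.1 + i, m * y.2 + i) := by
  have key : ∀ y z, Γ.Adj y z → ∃ p p', prj m p = y ∧ prj m p' = z ∧ FW Γ W Port c m i
      (cost W c m s(p, p')) (m * y.1 + i, m * y.2 + i) (m * z.1 + i, m * z.2 + i) := by
    intro y z hyz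
    obtain ⟨k1, k2, k3⟩ := N.le y z hyz
    obtain ⟨p, p', rfl, rfl, h3, h4, h5, h6⟩ :=
      exits (Γ := Γ) (W := W) (Port := Port) (c := c) i0 i1 k1
    exact ⟨p, p', rfl, rfl, ((h5 k2).symm.trans
      (FW.cons k2 ⟨h3, Or.inr (Or.inl hyz)⟩ h4 (h6 k3))).le (by omega)⟩
  induction h with
  | refl => exact FW.refl _ _ (by rwa [prj_pt i0 i1 i0 i1])
  | free _ h1 h2 ih =>
    obtain ⟨p, p', rfl, rfl, h⟩ := key _ _ h1
    rw [cost_zero (Or.inr (Or.inr h2))] at h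
    exact (ih hx).trans h
  | pay _ h1 ih =>
    obtain ⟨p, p', rfl, rfl, h⟩ := key _ _ h1
    exact (ih hx).trans (h.le (cost_le _ _))

theorem Ok.exists_nodup {V : Type*} {F : SimpleGraph V} {Q : R → Set V} {W : Set V} {u v : R}
    (hu : ∀ x ∈ Q u, x ∉ W) (hv : ∀ x ∈ Q v, x ∉ W) (huv : ∀ x ∈ Q u, x ∉ Q v) (n : ℕ) :
    ∀ l, (edg l).card < n → Ok F Q W u v l → ∃ l', Ok F Q W u v l' ∧ l'.Nodup ∧ edg l' ≤ edg l := by
  induction n with
  | zero => intro l h; omega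
  | succ n ih =>
    intro l h1 h2
    by_cases h : l.Nodup
    · exact ⟨l, h2, h, le_rfl⟩
    · obtain ⟨l', h3, h4⟩ := h2.shorten hu hv huv h
      have := Multiset.card_lt_card h4
      obtain ⟨l'', h5, h6, h7⟩ := ih l' (by omega) h3
      exact ⟨l'', h5, h6, h7.trans h4.le⟩

theorem lift_route (N : Net Γ W B Port) (i0 : 0 ≤ i) (i1 : i < m) {u v : R} (huv : u ≠ v) {t : ℕ}
    {xu xv bu bv : ℤ × ℤ} (hu : Port u bu xu) (hv : Port v bv xv) (h : Tr Γ c t xu xv) :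
    ∃ l, Ok (fine Γ Port m) (fun u => prj m ⁻¹' B u) (prj m ⁻¹' W) u v l ∧ l.Nodup ∧
      (∀ a b, s(a, b) ∈ edg l → Lane m i a b) ∧ cst W c m (edg l) ≤ t := by
  obtain ⟨a1, a2, a3⟩ := N.port _ _ _ hu
  obtain ⟨b1, b2, b3⟩ := N.port _ _ _ hv
  obtain ⟨p, p', rfl, rfl, h3, h4, -, h6⟩ :=
    exits (Γ := Γ) (W := W) (Port := Port) (c := c) i0 i1 a1
  obtain ⟨q, q', rfl, rfl, k3, k4, -, k6⟩ :=
    exits (Γ := Γ) (W := W) (Port := Port) (c := c) i0 i1 b1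
  obtain ⟨T, j1, ⟨T', j2⟩, j3, j4, j5⟩ :=
    (((h6 a3).trans (lift_tr N i0 i1 a3 h)).trans (k6 b3).symm).list
  have e : p' :: T ++ [q] = T' ++ q' :: [q] := by rw [j2]; simp
  have e1 : edg (p :: (p' :: T ++ [q])) = s(p, p') ::ₘ (edg (p' :: T) + {s(q', q)}) := by
    rw [List.cons_append, edg, ← List.cons_append, e, edg_split, ← j2]
    simp [edg]
  have ok : Ok (fine Γ Port m) (fun u => prj m ⁻¹' B u) (prj m ⁻¹' W) u v
      (p :: (p' :: T ++ [q])) := by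
    refine ⟨List.isChain_cons_cons.2 ⟨⟨h3, Or.inr (Or.inr (Or.inl ⟨u, hu⟩))⟩, ?_⟩,
      p, p' :: T, q, rfl, a2, b2, j3⟩
    show (p' :: T ++ [q]).IsChain _
    rw [e, List.isChain_split, ← j2]
    exact ⟨j1, List.isChain_cons_cons.2 ⟨⟨k3.symm, Or.inr (Or.inr (Or.inr ⟨v, hv⟩))⟩, by simp⟩⟩
  obtain ⟨l, l1, l2, l3⟩ := Ok.exists_nodup (Q := fun u => prj m ⁻¹' B u) (W := prj m ⁻¹' W)
    (fun x => N.dW u _) (fun x => N.dW v _) (fun x => N.dB u v huv _) _ _ (Nat.lt_succ_self _) ok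
  refine ⟨l, l1, l2, fun a b hab => ?_, (cst_mono l3).trans ?_⟩
  · have := Multiset.mem_of_le l3 hab
    rw [e1] at this
    simp only [Multiset.mem_cons, Multiset.mem_add, Multiset.mem_singleton] at this
    rcases this with h | h | h
    · rcases Sym2.eq_iff.1 h with ⟨rfl, rfl⟩ | ⟨rfl, rfl⟩
      · exact h4
      · exact h4.symm
    · exact j4 a b h
    · rcases Sym2.eq_iff.1 h with ⟨rfl, rfl⟩ | ⟨rfl, rfl⟩
      · exact k4.symm
      · exact k4
  · have c1 : cost W c m s(p, p') = 0 := cost_zero (Or.inl (N.dW u _ a2))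
    have c2 : cost W c m s(q', q) = 0 := cost_zero (Or.inr (Or.inl (N.dW v _ b2)))
    rw [e1]
    simp only [cst, Multiset.map_cons, Multiset.map_add, Multiset.sum_cons, Multiset.sum_add,
      Multiset.map_singleton, Multiset.sum_singleton, c1, c2] at j5 ⊢
    omega

theorem IsRect.prj {S : Set (ℤ × ℤ)} (h : IsRect S) (hm : 0 < m) : IsRect (prj m ⁻¹' S) := by
  obtain ⟨a1, b1, a2, b2, h⟩ := h
  refine ⟨a1 * m, (b1 + 1) * m - 1, a2 * m, (b2 + 1) * m - 1, fun y => ?_⟩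
  rw [mem_preimage, h]
  simp only [MP_b893bf_co.prj, Int.le_ediv_iff_mul_le hm, ← Int.lt_add_one_iff (b := b1),
    ← Int.lt_add_one_iff (b := b2), Int.ediv_lt_iff_lt_mul hm, Int.le_sub_one_iff]

end Pool.Agent.Lib.MP_b893bf_co
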