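import Pool.Agent.Lib.MP_b893bf_co.Geom

set_option autoImplicit false

namespace Pool.Agent.Lib.MP_b893bf_co

open Set Metric Filter Topology

theorem exists_sep {ι : Type*} [Finite ι] (K : ι → Set (ℝ × ℝ)) (hK : ∀ i, IsCompact (K i)) :
    ∃ η > 0, ∀ i j, Disjoint (K i) (K j) → ∀ x ∈ K i, ∀ y ∈ K j, η ≤ dist x y := by
  have : ∀ᶠ η in 𝓝[>] (0 : ℝ), ∀ i j, Disjoint (K i) (K j) → ∀ x ∈ K i, ∀ y ∈ K j,
      η ≤ dist x y := by
    refine eventually_all.2 fun i => eventually_all.2 fun j => ?_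
    by_cases h : Disjoint (K i) (K j)
    · obtain ⟨r, hr, h'⟩ := exists_pos_forall_lt_edist (hK i) (hK j).isClosed h
      filter_upwards [Ioo_mem_nhdsGT (show (0 : ℝ) < r from hr)] with η hη _ x hx y hy
      have := h' x hx y hy
      rw [edist_nndist, ENNReal.coe_lt_coe] at this
      exact hη.2.le.trans (le_of_lt this)
    · exact Eventually.of_forall fun _ h' => (h h').elim
  obtain ⟨η, h1, h2⟩ := (this.and self_mem_nhdsWithin).exists
  exact ⟨η, h2, h1⟩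

/-- A lattice point. -/
def pt (ε : ℝ) (c : ℤ × ℤ) : ℝ × ℝ := (ε * c.1, ε * c.2)

/-- The lattice points close to a set. -/
def cells (ε : ℝ) (S : Set (ℝ × ℝ)) : Set (ℤ × ℤ) := {c | ∃ x ∈ S, dist x (pt ε c) < ε}

variable {ε : ℝ}

theorem near_one (hε : 0 < ε) (x : ℝ) : dist x (ε * (⌊x / ε⌋ : ℤ)) < ε := by
  have h1 := Int.floor_le (x / ε)
  have h2 := Int.lt_floor_add_one (x / ε)
  rw [le_div_iff₀ hε] at h1
  rw [div_lt_iff₀ hε] at h2
  rw [Real.dist_eq, abs_lt]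
  constructor <;> nlinarith

theorem near_two (hε : 0 < ε) {x : ℝ} {a b : ℤ} (ha : dist x (ε * a) < ε)
    (hb : dist x (ε * b) < ε) : a ≤ b + 1 := by
  rw [Real.dist_eq, abs_lt] at ha hb
  have : (a : ℝ) < b + 2 := by nlinarith
  have : a < b + 2 := by exact_mod_cast this
  omega

theorem near_exists (hε : 0 < ε) (x : ℝ × ℝ) : ∃ c, dist x (pt ε c) < ε :=
  ⟨(⌊x.1 / ε⌋, ⌊x.2 / ε⌋), by
    rw [Prod.dist_eq, max_lt_iff]
    exact ⟨near_one hε _, near_one hε _⟩⟩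

theorem near_rch (hε : 0 < ε) {S : Set (ℝ × ℝ)} {x : ℝ × ℝ} (hx : x ∈ S) {c d : ℤ × ℤ}
    (hc : dist x (pt ε c) < ε) (hd : dist x (pt ε d) < ε) : Rch grid (cells ε S) c d := by
  have hc' := hc
  have hd' := hd
  rw [Prod.dist_eq, max_lt_iff] at hc' hd'
  have he : dist x (pt ε (c.1, d.2)) < ε := by
    rw [Prod.dist_eq, max_lt_iff]
    exact ⟨hc'.1, hd'.2⟩
  have h1 := near_two hε hc'.1 hd'.1
  have h2 := near_two hε hd'.1 hc'.1
  have h3 := near_two hε hc'.2 hd'.2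
  have h4 := near_two hε hd'.2 hc'.2
  refine Rch.trans (y := (c.1, d.2)) ?_ ?_
  · by_cases e : c.2 = d.2
    · rw [← e]; exact Rch.refl _ _
    · exact Rch.step (Or.inl ⟨rfl, by simp only; omega⟩) ⟨x, hx, hc⟩ ⟨x, hx, he⟩
  · by_cases e : c.1 = d.1
    · rw [e]; exact Rch.refl _ _
    · exact Rch.step (Or.inr ⟨rfl, by simp only; omega⟩) ⟨x, hx, he⟩ ⟨x, hx, hd⟩

theorem cells_conn (hε : 0 < ε) {S : Set (ℝ × ℝ)} (hS : IsPreconnected S) :
    Conn grid (cells ε S) := by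
  rintro c ⟨x, hx, hc⟩ d ⟨y, hy, hd⟩
  by_contra hne
  obtain ⟨z, hz, h1, h2⟩ := hS (⋃ e ∈ {e | Rch grid (cells ε S) c e}, ball (pt ε e) ε)
    (⋃ e ∈ {e | ¬ Rch grid (cells ε S) c e}, ball (pt ε e) ε)
    (isOpen_biUnion fun _ _ => isOpen_ball) (isOpen_biUnion fun _ _ => isOpen_ball)
    (fun z _ => by
      obtain ⟨e, he⟩ := near_exists hε z
      by_cases h : Rch grid (cells ε S) c e
      · exact Or.inl (mem_biUnion h he)
      · exact Or.inr (mem_biUnion h he))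
    ⟨x, hx, mem_biUnion (Rch.refl _ _) hc⟩ ⟨y, hy, mem_biUnion hne hd⟩
  obtain ⟨e, he, h1⟩ := mem_iUnion₂.1 h1
  obtain ⟨e', he', h2⟩ := mem_iUnion₂.1 h2
  exact he' (Rch.trans he (near_rch hε hz h1 h2))

theorem adj_dist (hε : 0 < ε) {c d : ℤ × ℤ} (h : c = d ∨ grid.Adj c d) :
    dist (pt ε c) (pt ε d) ≤ ε := by
  have key : ∀ a b : ℤ, a ≤ b + 1 → b ≤ a + 1 → dist (ε * a) (ε * b) ≤ ε := by
    intro a b h1 h2
    have h1' : (a : ℝ) ≤ b + 1 := by exact_mod_cast h1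
    have h2' : (b : ℝ) ≤ a + 1 := by exact_mod_cast h2
    rw [Real.dist_eq, abs_le]
    constructor <;> nlinarith
  rw [Prod.dist_eq, max_le_iff]
  rcases h with rfl | h
  · simp [hε.le]
  · simp only [grid] at h
    exact ⟨key _ _ (by omega) (by omega), key _ _ (by omega) (by omega)⟩

theorem cells_finite (hε : 0 < ε) (R : ℝ) : (cells ε (ball 0 R)).Finite := by
  have key : ∀ (x : ℝ) (a : ℤ), dist x 0 < R → dist x (ε * a) < ε →
      -⌈R / ε + 1⌉ ≤ a ∧ a ≤ ⌈R / ε + 1⌉ := by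
    intro x a h1 h2
    have h3 := Int.le_ceil (R / ε + 1)
    have h4 : R / ε * ε = R := div_mul_cancel₀ _ hε.ne'
    rw [Real.dist_eq, abs_lt] at h1 h2
    have h5 : (-⌈R / ε + 1⌉ : ℝ) ≤ a := by nlinarith
    have h6 : (a : ℝ) ≤ ⌈R / ε + 1⌉ := by nlinarith
    exact ⟨by exact_mod_cast h5, by exact_mod_cast h6⟩
  refine (finite_Icc ((-⌈R / ε + 1⌉, -⌈R / ε + 1⌉) : ℤ × ℤ) (⌈R / ε + 1⌉, ⌈R / ε + 1⌉)).subset ?_
  rintro c ⟨x, hx, hc⟩
  rw [mem_ball, Prod.dist_eq, max_lt_iff] at hx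
  rw [Prod.dist_eq, max_lt_iff] at hc
  have h1 := key _ _ hx.1 hc.1
  have h2 := key _ _ hx.2 hc.2
  exact ⟨⟨h1.1, h2.1⟩, ⟨h1.2, h2.2⟩⟩

theorem trim {γ : ℝ → ℝ × ℝ} (h : ContinuousOn γ (Icc 0 1)) {δ : ℝ} (hδ : 0 < δ) :
    ∃ a b, 0 < a ∧ a ≤ b ∧ b < 1 ∧ dist (γ a) (γ 0) ≤ δ ∧ dist (γ b) (γ 1) ≤ δ := by
  obtain ⟨p, hp, h0⟩ := Metric.continuousWithinAt_iff.1 (h 0 (by simp)) δ hδ
  obtain ⟨q, hq, h1⟩ := Metric.continuousWithinAt_iff.1 (h 1 (by simp)) δ hδ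
  have a1 : 0 < min (p / 2) (1 / 2) := by positivity
  have a2 := min_le_left (p / 2) (1 / 2)
  have a3 := min_le_right (p / 2) (1 / 2)
  have b1 : 0 < min (q / 2) (1 / 2) := by positivity
  have b2 := min_le_left (q / 2) (1 / 2)
  have b3 := min_le_right (q / 2) (1 / 2)
  refine ⟨min (p / 2) (1 / 2), 1 - min (q / 2) (1 / 2), a1, by linarith, by linarith,
    (h0 ⟨a1.le, by linarith⟩ ?_).le, (h1 ⟨by linarith, by linarith⟩ ?_).le⟩
  · rw [Real.dist_eq, abs_lt]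
    constructor <;> linarith
  · rw [Real.dist_eq, abs_lt]
    constructor <;> linarith

theorem isRect_ball (hε : 0 < ε) (p : ℝ × ℝ) (r : ℝ) : IsRect {y | dist p (pt ε y) ≤ r} := by
  have key : ∀ (x : ℝ) (n : ℤ), dist x (ε * n) ≤ r ↔ ⌈(x - r) / ε⌉ ≤ n ∧ n ≤ ⌊(x + r) / ε⌋ := by
    intro x n
    rw [Int.ceil_le, Int.le_floor, div_le_iff₀ hε, le_div_iff₀ hε, Real.dist_eq, abs_le]
    constructor <;> rintro ⟨h1, h2⟩ <;> constructor <;> linarith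
  refine ⟨⌈(p.1 - r) / ε⌉, ⌊(p.1 + r) / ε⌋, ⌈(p.2 - r) / ε⌉, ⌊(p.2 + r) / ε⌋, fun y => ?_⟩
  simp only [mem_ofPred_eq, Prod.dist_eq, max_le_iff, pt, key, and_assoc]

/-- A drawing rendered in the grid. -/
structure Model {R E : Type*} (ends : E → Sym2 R) (k : ℕ) (B : R → Set (ℤ × ℤ))
    (D : E → Set (ℤ × ℤ)) : Prop where
  rect : ∀ u, IsRect (B u)
  ne : ∀ u, (B u).Nonempty
  disj : ∀ u v, u ≠ v → ∀ x ∈ B u, x ∉ B v
  fin : ∀ e, (D e).Finite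
  conn : ∀ e, Conn grid (D e)
  dBD : ∀ u e, ∀ x ∈ B u, x ∉ D e
  tch : ∀ e, ∀ u ∈ ends e, Tch grid (D e) (B u)
  cross : ∀ e, ∃ X : Finset E, X.card ≤ k ∧ ∀ f, f ≠ e → (D e ∩ D f).Nonempty → f ∈ X

theorem exists_model {R E : Type*} [Finite R] [Finite E] (ends : E → Sym2 R)
    (hd : ∀ e, ¬ (ends e).IsDiag) (k : ℕ) (pos : R → ℝ × ℝ) (arc : E → ℝ → ℝ × ℝ)
    (inj : Function.Injective pos) (cont : ∀ e, ContinuousOn (arc e) (Icc 0 1))
    (hend : ∀ e, ∃ u v, ends e = s(u, v) ∧ arc e 0 = pos u ∧ arc e 1 = pos v)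
    (hav : ∀ e w, ∀ t ∈ Ioo (0 : ℝ) 1, arc e t ≠ pos w)
    (hcr : ∀ e, ∃ X : Finset E, X.card ≤ k ∧
      ∀ f, f ≠ e → (arc e '' Ioo 0 1 ∩ arc f '' Ioo 0 1).Nonempty → f ∈ X) :
    ∃ B D, Model ends k B D := by
  classical
  obtain ⟨η, hη, hsep⟩ := exists_sep
    (Sum.elim (fun u => {pos u}) fun e => arc e '' Icc 0 1) (by
      rintro (u | e)
      · exact isCompact_singleton
      · exact isCompact_Icc.image_of_continuousOn (cont e))
  set δ := η / 6 with hδ'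
  have hδ : 0 < δ := by positivity
  choose a b hab using fun e => trim (cont e) hδ
  have sub : ∀ e, Icc (a e) (b e) ⊆ Ioo 0 1 := fun e => Icc_subset_Ioo (hab e).1 (hab e).2.2.1
  have cont' : ∀ e, ContinuousOn (arc e) (Icc (a e) (b e)) := fun e =>
    (cont e).mono ((sub e).trans Ioo_subset_Icc_self)
  let K : E → Set (ℝ × ℝ) := fun e => arc e '' Icc (a e) (b e)
  have cK : ∀ e, IsCompact (K e) := fun e => isCompact_Icc.image_of_continuousOn (cont' e)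
  obtain ⟨θ, hθ, hsep'⟩ := exists_sep K cK
  set ε := min δ (θ / 2) with hε'
  have hε : 0 < ε := by positivity
  have ε1 : ε ≤ δ := min_le_left _ _
  have ε2 : ε ≤ θ / 2 := min_le_right _ _
  let B : R → Set (ℤ × ℤ) := fun u => {y | dist (pos u) (pt ε y) ≤ 2 * δ}
  have far : ∀ u v, u ≠ v → ∀ x ∈ B u, ∀ y ∈ B v, ¬ (x = y ∨ grid.Adj x y) := by
    intro u v huv x hx y hy h
    have h1 := hsep (.inl u) (.inl v) (by simpa using inj.ne huv) (pos u) rfl (pos v) rfl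
    have h2 := adj_dist hε h
    have h3 := dist_triangle4 (pos u) (pt ε x) (pt ε y) (pos v)
    have h4 : dist (pos u) (pt ε x) ≤ 2 * δ := hx
    have h5 : dist (pos v) (pt ε y) ≤ 2 * δ := hy
    rw [dist_comm] at h5
    linarith
  choose u v huv h0 h1 using hend
  have hne : ∀ e, u e ≠ v e := fun e h => hd e (by rw [huv, h]; exact Sym2.mk_isDiag_iff.2 rfl)
  have dBC : ∀ w e, w ∉ ends e → ∀ x ∈ B w, x ∉ cells ε (K e) := by
    rintro w e hw x hx ⟨z, ⟨t, ht, rfl⟩, hz⟩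
    have h4 : dist (pos w) (pt ε x) ≤ 2 * δ := hx
    have := hsep (.inl w) (.inr e) ?_ (pos w) rfl (arc e t) ⟨t, Ioo_subset_Icc_self (sub e ht), rfl⟩
    · have h3 := dist_triangle_right (pos w) (arc e t) (pt ε x)
      linarith
    · simp only [Sum.elim_inr, Sum.elim_inl, disjoint_singleton_left]
      rintro ⟨s, hs, e'⟩
      rw [huv e, Sym2.mem_iff, not_or] at hw
      rcases hs.1.eq_or_lt with rfl | k0
      · exact hw.1 (inj (e'.symm.trans (h0 e)))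
      rcases hs.2.eq_or_lt with rfl | k1
      · exact hw.2 (inj (e'.symm.trans (h1 e)))
      exact hav e w s ⟨k0, k1⟩ e'
  have meet : ∀ e w, ∀ z ∈ K e, dist z (pos w) ≤ δ → ∃ x, x ∈ cells ε (K e) ∧ x ∈ B w := by
    intro e w z hz h
    obtain ⟨c, hc⟩ := near_exists hε z
    refine ⟨c, ⟨z, hz, hc⟩, ?_⟩
    have h3 := dist_triangle_left (pos w) (pt ε c) z
    show dist (pos w) (pt ε c) ≤ 2 * δ
    linarith
  have hD : ∀ e, ∃ D : Set (ℤ × ℤ), Conn grid D ∧ D ⊆ cells ε (K e) \ (B (u e) ∪ B (v e)) ∧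
      Tch grid D (B (u e)) ∧ Tch grid D (B (v e)) := by
    intro e
    obtain ⟨x, hx, hx'⟩ := meet e (u e) _ ⟨a e, ⟨le_rfl, (hab e).2.1⟩, rfl⟩
      (h0 e ▸ (hab e).2.2.2.1)
    obtain ⟨y, hy, hy'⟩ := meet e (v e) _ ⟨b e, ⟨(hab e).2.1, le_rfl⟩, rfl⟩
      (h1 e ▸ (hab e).2.2.2.2)
    obtain ⟨z, -, t1, t2⟩ := (cells_conn hε (isPreconnected_Icc.image _ (cont' e))).two_sided
      (B₁ := B (u e)) (B₂ := B (v e))
      (fun x _ k1 k2 => far _ _ (hne e) x k1 x k2 (Or.inl rfl))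
      (fun x _ k1 y k2 k3 => far _ _ (hne e) x k1 y k2 (Or.inr k3))
      (fun x _ k1 y k2 k3 => far _ _ (hne e).symm x k1 y k2 (Or.inr k3)) hx hy
      (Or.inl hx') (Or.inl hy')
    exact ⟨_, comp_conn _ z, comp_subset _ _, t1, t2⟩
  choose D d1 d2 d3 d4 using hD
  refine ⟨B, D, fun w => isRect_ball hε _ _, fun w => ?_,
    fun w w' h x k1 k2 => far w w' h x k1 x k2 (Or.inl rfl), fun e => ?_, d1, ?_, ?_, fun e => ?_⟩
  · obtain ⟨c, hc⟩ := near_exists hε (pos w)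
    exact ⟨c, show dist (pos w) (pt ε c) ≤ 2 * δ by linarith⟩
  · obtain ⟨r, -, hr⟩ := (cK e).isBounded.subset_ball_lt 0 0
    refine (cells_finite hε r).subset fun x hx => ?_
    obtain ⟨z, hz, h⟩ := (d2 e hx).1
    exact ⟨z, hr hz, h⟩
  · intro w e x hx hx'
    by_cases hw : w ∈ ends e
    · rw [huv e, Sym2.mem_iff] at hw
      rcases hw with rfl | rfl
      · exact (d2 e hx').2 (Or.inl hx)
      · exact (d2 e hx').2 (Or.inr hx)
    · exact dBC w e hw x hx (d2 e hx').1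
  · intro e w hw
    rw [huv e, Sym2.mem_iff] at hw
    rcases hw with rfl | rfl
    · exact d3 e
    · exact d4 e
  · obtain ⟨X, hX, hX'⟩ := hcr e
    refine ⟨X, hX, fun f hf ⟨x, k1, k2⟩ => hX' f hf ?_⟩
    obtain ⟨z, hz, k3⟩ := (d2 e k1).1
    obtain ⟨z', hz', k4⟩ := (d2 f k2).1
    have : ¬ Disjoint (K e) (K f) := fun h => by
      have k5 := hsep' e f h z hz z' hz'
      have k6 := dist_triangle_right z z' (pt ε x)
      linarith
    exact (not_disjoint_iff_nonempty_inter.1 this).mono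
      (inter_subset_inter (image_mono (sub e)) (image_mono (sub f)))

end Pool.Agent.Lib.MP_b893bf_co
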