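import Pool.Agent.Lib.MP_b893bf_co.Lanes
import Pool.Agent.Lib.MP_b893bf_co.Events
import Pool.Agent.Lib.MP_b893bf_co.Model

set_option autoImplicit false

namespace Pool.Agent.Lib.MP_b893bf_co

open Set

theorem nodup_sum {E α : Type*} (s : Finset E) (f : E → Multiset α) (h1 : ∀ e, (f e).Nodup)
    (h2 : ∀ e e', e ≠ e' → ∀ a ∈ f e, a ∉ f e') : (∑ e ∈ s, f e).Nodup := by
  classical
  induction s using Finset.induction_on with
  | empty => simp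
  | insert x s hx ih =>
    rw [Finset.sum_insert hx, Multiset.nodup_add]
    refine ⟨h1 x, ih, Multiset.disjoint_left.2 fun {a} ha hb => ?_⟩
    obtain ⟨e, he, h⟩ := Multiset.mem_sum.1 hb
    exact h2 x e (fun h => hx (h ▸ he)) a ha h

theorem routes {R E : Type*} [Fintype E] {Γ : SimpleGraph (ℤ × ℤ)} {W : Set (ℤ × ℤ)}
    {B : R → Set (ℤ × ℤ)} {Port : R → ℤ × ℤ → ℤ × ℤ → Prop} {c : ℤ × ℤ → ℤ × ℤ}
    (N : Net Γ W B Port) (ends : E → Sym2 R) (hd : ∀ e, ¬ (ends e).IsDiag) (h : ℕ)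
    (hex : ∀ e, ∃ u v xu xv, ends e = s(u, v) ∧ (∃ b, Port u b xu) ∧ (∃ b, Port v b xv) ∧
      Tr Γ c h xu xv) :
    ∃ (m : ℤ) (P : E → List (ℤ × ℤ)), 0 < m ∧
      (∀ e, Valid grid (fun u => prj m ⁻¹' B u) (prj m ⁻¹' W) (ends e) (P e) ∧ (P e).Nodup) ∧
      (∀ e f, e ≠ f → ∀ s ∈ edg (P e), s ∉ edg (P f)) ∧
      (∀ e f, e ≠ f → ∀ p q, Straight St (P e) p → Straight St (P f) p → Straight St (P e) q →
        Straight St (P f) q → p = q) ∧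
      (∀ e f, e ≠ f → (∃ w, w ∈ ends e ∧ w ∈ ends f) → ∀ p, Straight St (P e) p →
        ¬ Straight St (P f) p) ∧
      ∀ e, ∃ u v xu xv, ends e = s(u, v) ∧ (∃ b, Port u b xu) ∧ (∃ b, Port v b xv) ∧
        Tr Γ c h xu xv ∧ ∀ z, Straight St (P e) z → prj m z ∈ W ∧ Tr Γ c h (prj m z) xv := by
  classical
  let S : E → Set ℕ := fun e => {t | ∃ u v xu xv, ends e = s(u, v) ∧ (∃ b, Port u b xu) ∧
    (∃ b, Port v b xv) ∧ Tr Γ c t xu xv}
  let μ : E → ℕ := fun e => sInf (S e)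
  have μ1 : ∀ e, μ e ∈ S e := fun e => Nat.sInf_mem ⟨h, hex e⟩
  have μ2 : ∀ e, ∀ t ∈ S e, μ e ≤ t := fun e t ht => Nat.sInf_le ht
  have hne : ∀ e u v, ends e = s(u, v) → u ≠ v := fun e u v h1 h2 =>
    hd e (by rw [h1, h2]; exact Sym2.mk_isDiag_iff.2 rfl)
  set m : ℤ := Fintype.card E + 1 with hm
  let i : E → ℤ := fun e => ((Fintype.equivFin E e : ℕ) : ℤ)
  have h0 : ∀ e, ∃ l, Valid (fine Γ Port m) (fun u => prj m ⁻¹' B u) (prj m ⁻¹' W) (ends e) l ∧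
      l.Nodup ∧ (∀ a b, s(a, b) ∈ edg l → Lane m (i e) a b) ∧ cst W c m (edg l) ≤ μ e := by
    intro e
    obtain ⟨u, v, xu, xv, h1, ⟨bu, h2⟩, ⟨bv, h3⟩, h4⟩ := μ1 e
    have := (Fintype.equivFin E e).2
    obtain ⟨l, k1, k2⟩ := lift_route (m := m) (i := i e) N (by simp only [i]; omega)
      (by simp only [i]; omega) (hne e u v h1) h2 h3 h4
    exact ⟨l, ⟨u, v, h1, k1⟩, k2⟩
  choose P0 p1 p2 p3 p4 using h0
  have nd : (∑ e, edg (P0 e)).Nodup := by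
    refine nodup_sum _ _ (fun e => edg_nodup (p2 e)) fun e f hef s h1 h2 => ?_
    induction s using Sym2.ind with
    | _ a b =>
      obtain ⟨u, v, -, ok⟩ := p1 e
      have := Lane.unique (adj_of_mem_edg ok.1 h1).1 (p3 e a b h1) (p3 f a b h2)
      simp only [i, Nat.cast_inj] at this
      exact hef ((Fintype.equivFin E).injective (Fin.ext this))
  obtain ⟨P, q1, q2, q3, q4⟩ := uncross (St := St) (Q := fun u => prj m ⁻¹' B u) (W := prj m ⁻¹' W) ends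
    (fun a p c h => by simpa only [St, add_comm c a] using h)
    (fun a p c c' h h' => add_left_cancel (h.trans h'.symm))
    (fun u x => N.dW u _) (fun u v huv x => N.dB u v huv _) hd P0 p1 nd
  have nd' := Multiset.nodup_of_le q2 nd
  have pr : ∀ e, ∃ u v xu xv, ends e = s(u, v) ∧ (∃ b, Port u b xu) ∧ (∃ b, Port v b xv) ∧
      Tr Γ c (cst W c m (edg (P e))) xu xv ∧ ∀ z, Straight St (P e) z →
        prj m z ∈ W ∧ Tr Γ c (cst W c m (edg (P e))) (prj m z) xv := by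
    intro e
    obtain ⟨u, v, h1, ok⟩ := (q1 e).1
    obtain ⟨xu, xv, k1, k2, k3, k4⟩ := proj_ok (c := c) N (hne e u v h1) ok
    refine ⟨u, v, xu, xv, h1, k1, k2, k3, ?_⟩
    rintro z ⟨A, a, b, T, k5, -⟩
    have k6 : P e = (A ++ [a]) ++ z :: b :: T := by rw [k5]; simp
    have k7 : prj m z ∈ W := by
      rw [k6] at ok
      exact ok.mid_mem (by simp) (by simp)
    exact ⟨k7, k4 z (by rw [k5]; simp) k7⟩
  have lo : ∀ e, μ e ≤ cst W c m (edg (P e)) := by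
    intro e
    obtain ⟨u, v, xu, xv, h1, h2, h3, h4, -⟩ := pr e
    exact μ2 e _ ⟨u, v, xu, xv, h1, h2, h3, h4⟩
  have hi : ∀ e, cst W c m (edg (P e)) ≤ h := by
    intro e
    have s1 : ∑ e, cst W c m (edg (P e)) ≤ ∑ e, μ e := by
      rw [← cst_sum]
      refine (cst_mono q2).trans ?_
      rw [cst_sum]
      exact Finset.sum_le_sum fun e _ => p4 e
    have s2 := (Finset.sum_eq_sum_iff_of_le fun e (_ : e ∈ Finset.univ) => lo e).1
      (le_antisymm (Finset.sum_le_sum fun e _ => lo e) s1) e (Finset.mem_univ e)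
    exact s2.ge.trans (μ2 e h (hex e))
  refine ⟨m, P, by omega, fun e => ⟨?_, (q1 e).2⟩, fun e f hef s h1 h2 => ?_, q3, q4, fun e => ?_⟩
  · obtain ⟨u, v, h1, h2, h3⟩ := (q1 e).1
    exact ⟨u, v, h1, h2.imp fun _ _ h => h.1, h3⟩
  · rw [sum_two _ hef] at nd'
    exact Multiset.disjoint_left.1 (Multiset.nodup_add.1 (Multiset.nodup_add.1 nd').1).2.2 h1 h2
  · obtain ⟨u, v, xu, xv, h1, h2, h3, h4, h5⟩ := pr e
    exact ⟨u, v, xu, xv, h1, h2, h3, h4.le (hi e), fun z hz =>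
      ⟨(h5 z hz).1, (h5 z hz).2.le (hi e)⟩⟩

theorem ball_card {V E : Type*} {G : SimpleGraph V} {D : E → Set V} {k : ℕ}
    (cross : ∀ e, ∃ X : Finset E, X.card ≤ k ∧ ∀ f, f ≠ e → (D e ∩ D f).Nonempty → f ∈ X)
    (a : V) (t : ℕ) : ∃ Y : Finset E, Y.card ≤ (k + 1) ^ (t + 1) ∧
      ∀ g, ∀ w ∈ D g, Near G D univ t a w → g ∈ Y := by
  classical
  choose X h1 h2 using cross
  have h3 : ∀ e f, ∀ w ∈ D e, w ∈ D f → f ∈ insert e (X e) := by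
    intro e f w k1 k2
    by_cases h : f = e
    · exact h ▸ Finset.mem_insert_self _ _
    · exact Finset.mem_insert_of_mem (h2 e f h ⟨w, k1, k2⟩)
  have h4 : ∀ e, (insert e (X e)).card ≤ k + 1 := fun e =>
    (Finset.card_insert_le _ _).trans (Nat.succ_le_succ (h1 e))
  induction t with
  | zero =>
    by_cases h : ∃ e, a ∈ D e
    · obtain ⟨e, he⟩ := h
      refine ⟨insert e (X e), by simpa using h4 e, fun g w hw hn => ?_⟩
      exact h3 e g a he (Ch.zero hn ▸ hw)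
    · exact ⟨∅, by simp, fun g w hw hn => (h ⟨g, Ch.zero hn ▸ hw⟩).elim⟩
  | succ t ih =>
    obtain ⟨Y, k1, k2⟩ := ih
    refine ⟨Y.biUnion fun e => insert e (X e), ?_, fun g w hw hn => ?_⟩
    · refine (Finset.card_biUnion_le_card_mul _ _ _ fun e _ => h4 e).trans ?_
      rw [pow_succ _ (t + 1)]
      exact Nat.mul_le_mul_right _ k1
    · rcases Ch.succ_cases hn with rfl | ⟨y, k3, e, k4, k5⟩
      · exact Finset.mem_biUnion.2 ⟨g, k2 g _ hw (Near.refl _ _ _), Finset.mem_insert_self _ _⟩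
      · exact Finset.mem_biUnion.2 ⟨e, k2 e y k4.1 k3, h3 e g w (k5.mem k4).1 hw⟩

theorem tr_near {V E : Type*} {G : SimpleGraph V} {D : E → Set V} {W : Set V} {c : V → V} {M : ℕ}
    (hE : ∀ x y, G.Adj x y → ∃ e, x ∈ D e ∧ y ∈ D e) (hW : ∀ x y, G.Adj x y → x ∈ W ∧ y ∈ W)
    (s2 : ∀ v ∈ W, Near G D univ M v (c v)) {t : ℕ} {x y : V} (h : Tr G c t x y) :
    Near G D univ (t * (2 * M + 1)) (c x) (c y) := by
  induction h with
  | refl => exact Near.refl _ _ _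
  | free _ _ h2 ih => exact h2 ▸ ih
  | pay _ h1 ih =>
    refine (((ih.trans (s2 _ (hW _ _ h1).1).symm).trans
      (Ch.single (adj_stp hE h1 trivial trivial))).trans (s2 _ (hW _ _ h1).2)).le ?_
    rw [add_one_mul]
    omega

theorem redraw : ∃ T : ℕ, ∀ (R E : Type) [Fintype E] (ends : E → Sym2 R),
    Function.Injective ends → (∀ e, ¬ (ends e).IsDiag) → ∀ (k : ℕ) (B : R → Set (ℤ × ℤ))
    (D : E → Set (ℤ × ℤ)), Model ends k B D →
    ∃ (pos : R → ℝ × ℝ) (arc : E → ℝ → ℝ × ℝ), Function.Injective pos ∧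
      (∀ e, Continuous (arc e) ∧ InjOn (arc e) (Icc 0 1) ∧
        (∃ u v, ends e = s(u, v) ∧ arc e 0 = pos u ∧ arc e 1 = pos v) ∧
        ∀ w, ∀ t ∈ Ioo (0 : ℝ) 1, arc e t ≠ pos w) ∧
      (∀ e f, e ≠ f → (arc e '' Ioo 0 1 ∩ arc f '' Ioo 0 1).Subsingleton ∧
        ((∃ w, w ∈ ends e ∧ w ∈ ends f) → arc e '' Ioo 0 1 ∩ arc f '' Ioo 0 1 = ∅)) ∧
      ∀ e, ∃ X : Finset E, X.card ≤ 4 * (k + 1) ^ T ∧
        ∀ f, f ≠ e → (arc e '' Ioo 0 1 ∩ arc f '' Ioo 0 1).Nonempty → f ∈ X := by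
  obtain ⟨M, h, part⟩ := partition
  refine ⟨2 * (3 * (h * (2 * M + 1) + 2 * M) + 1), fun R E _ ends inj hd k B D H => ?_⟩
  classical
  let Γ : SimpleGraph (ℤ × ℤ) :=
    { Adj := fun x y => grid.Adj x y ∧ ∃ e, x ∈ D e ∧ y ∈ D e
      symm := ⟨fun x y h => ⟨h.1.symm, h.2.imp fun _ => And.symm⟩⟩
      loopless := ⟨fun x h => h.1.ne rfl⟩ }
  let W : Set (ℤ × ℤ) := ⋃ e, D e
  have hE : ∀ x y, Γ.Adj x y → ∃ e, x ∈ D e ∧ y ∈ D e := fun x y h => h.2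
  have hW : ∀ x y, Γ.Adj x y → x ∈ W ∧ y ∈ W := by
    rintro x y ⟨-, e, h1, h2⟩
    exact ⟨mem_iUnion.2 ⟨e, h1⟩, mem_iUnion.2 ⟨e, h2⟩⟩
  have cm : ∀ S, Conn Γ S → Conn grid S := fun S h x hx y hy =>
    (h x hx y hy).ind (Rch grid S x) (Rch.refl _ _) fun a b ha hb hab ih =>
      ih.trans (Rch.step hab.1 ha hb)
  have tm : ∀ S T, Tch Γ S T → Tch grid S T := fun S T ⟨x, hx, y, hy, h⟩ => ⟨x, hx, y, hy, h.1⟩
  have N5 : NoK5 Γ := fun A B C D E h1 h2 h3 h4 h5 d1 d2 d3 d4 d5 d6 d7 d8 d9 d10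
      t1 t2 t3 t4 t5 t6 t7 t8 t9 t10 =>
    grid_noK5 A B C D E (cm _ h1) (cm _ h2) (cm _ h3) (cm _ h4) (cm _ h5) d1 d2 d3 d4 d5 d6 d7 d8
      d9 d10 (tm _ _ t1) (tm _ _ t2) (tm _ _ t3) (tm _ _ t4) (tm _ _ t5) (tm _ _ t6) (tm _ _ t7)
      (tm _ _ t8) (tm _ _ t9) (tm _ _ t10)
  obtain ⟨c, s1, s2, s3⟩ := part (ℤ × ℤ) E Γ D hE N5 W (finite_iUnion H.fin)
  let Port : R → ℤ × ℤ → ℤ × ℤ → Prop := fun u b x =>
    grid.Adj b x ∧ b ∈ B u ∧ ∃ e, u ∈ ends e ∧ x ∈ D e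
  have N : Net Γ W B Port := by
    refine ⟨fun x y h => ⟨h.1, hW x y h⟩, ?_, ?_, H.disj⟩
    · rintro u b x ⟨h1, h2, e, -, h3⟩
      exact ⟨h1, h2, mem_iUnion.2 ⟨e, h3⟩⟩
    · intro u x hx hx'
      obtain ⟨e, he⟩ := mem_iUnion.1 hx'
      exact H.dBD u e x hx he
  have t0 : ∀ v ∈ W, Tr Γ c 0 v (c v) := fun v hv =>
    (s1 v hv).ind (Tr Γ c 0 v) (Tr.refl _ _) fun a b ha hb hab ih =>
      ih.free hab (ha.2.trans hb.2.symm)
  have t1 : ∀ n x y, Ch (HopR Γ W c) n x y → Tr Γ c n x y := by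
    intro n x y hc
    induction hc with
    | refl => exact Tr.refl _ _
    | tail _ hr ih =>
      obtain ⟨h1, h2, h3 | h3⟩ := hr
      · exact ((ih.trans (t0 _ h1)).trans (h3 ▸ (t0 _ h2).symm)).succ
      · exact ih.pay h3
  obtain ⟨m, P, hm, p1, p2, p3, p4, p5⟩ := routes (c := c) N ends hd h (by
    intro e
    obtain ⟨u, v, huv⟩ : ∃ u v, ends e = s(u, v) := by
      induction ends e using Sym2.ind with
      | _ u v => exact ⟨u, v, rfl⟩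
    have mu : u ∈ ends e := by simp [huv]
    have mv : v ∈ ends e := by simp [huv]
    obtain ⟨x, hx, b, hb, h1⟩ := H.tch e u mu
    obtain ⟨y, hy, b', hb', h2⟩ := H.tch e v mv
    have sub : D e ⊆ W := subset_iUnion D e
    refine ⟨u, v, x, y, huv, ⟨b, h1.symm, hb, e, mu, hx⟩, ⟨b', h2.symm, hb', e, mv, hy⟩,
      t1 _ _ _ (s3 e x y ⟨hx, sub hx⟩ ?_)⟩
    exact (H.conn e x hx y hy).ind (Rch Γ (D e ∩ W) x) (Rch.refl _ _) fun a b ha hb hab ih =>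
      ih.trans (Rch.step ⟨hab, e, ha, hb⟩ ⟨ha, sub ha⟩ ⟨hb, sub hb⟩))
  obtain ⟨pos, arc, a1, a2, a3⟩ := realize ends (fun u => (H.rect u).prj hm) (fun u => by
      obtain ⟨x, hx⟩ := H.ne u
      exact ⟨(m * x.1 + 0, m * x.2 + 0), by rwa [mem_preimage, prj_pt le_rfl hm le_rfl hm]⟩)
    (fun u x => N.dW u _) (fun u v huv x => N.dB u v huv _) hd P p1 p2
  refine ⟨pos, arc, a1, a2, fun e f hef => ⟨fun z hz z' hz' => ?_, fun hw => ?_⟩, fun e => ?_⟩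
  · obtain ⟨x, rfl, h1, h2⟩ := a3 e f hef z hz
    obtain ⟨x', rfl, h3, h4⟩ := a3 e f hef z' hz'
    rw [p3 e f hef x x' h1 h2 h3 h4]
  · refine eq_empty_of_forall_notMem fun z hz => ?_
    obtain ⟨x, rfl, h1, h2⟩ := a3 e f hef z hz
    exact p4 e f hef hw x h1 h2
  set T := h * (2 * M + 1) + 2 * M with hT
  have nr : ∀ x ∈ W, ∀ y ∈ W, Tr Γ c h x y → Near Γ D univ T x y := fun x hx y hy hxy =>
    (((s2 x hx).trans (tr_near hE hW s2 hxy)).trans (s2 y hy).symm).le (by omega)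
  obtain ⟨u, v, xu, xv, -, -, ⟨bv, h3⟩, -, h5⟩ := p5 e
  obtain ⟨Y, y1, y2⟩ := ball_card (G := Γ) H.cross xv (3 * T)
  let Z : Finset R := Y.biUnion fun g => (ends g).toFinset
  have z1 : Z.card ≤ (k + 1) ^ (3 * T + 1) * 2 :=
    (Finset.card_biUnion_le_card_mul _ _ 2 fun g _ => by
      rw [Sym2.card_toFinset]; split_ifs <;> omega).trans (Nat.mul_le_mul_right _ y1)
  obtain ⟨Z2, z2, z3⟩ : ∃ Z2 : Finset (Sym2 R), Z2.card ≤ (Z ×ˢ Z).card ∧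
      ∀ a ∈ Z, ∀ b ∈ Z, s(a, b) ∈ Z2 :=
    ⟨(Z ×ˢ Z).image fun p => s(p.1, p.2), Finset.card_image_le, fun a ha b hb =>
      Finset.mem_image.2 ⟨(a, b), Finset.mem_product.2 ⟨ha, hb⟩, rfl⟩⟩
  refine ⟨Z2.preimage ends inj.injOn, ?_, fun f hf ⟨z, hz⟩ => ?_⟩
  · have z4 : (Z2.preimage ends inj.injOn).card ≤ Z2.card :=
      Finset.card_le_card_of_injOn ends (fun f hf => Finset.mem_preimage.1 hf) inj.injOn
    refine z4.trans (z2.trans ?_)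
    rw [Finset.card_product]
    have : ∀ a n : ℕ, a ^ n * 2 * (a ^ n * 2) = 4 * a ^ (2 * n) := fun a n => by ring
    exact (Nat.mul_le_mul z1 z1).trans (this _ _).le
  · obtain ⟨x, -, k1, k2⟩ := a3 e f hf.symm z hz
    obtain ⟨u', v', xu', xv', j1, ⟨bu', j2⟩, ⟨bv', j3⟩, j4, j5⟩ := p5 f
    have w1 := (N.port _ _ _ h3).2.2
    have w2 := (N.port _ _ _ j2).2.2
    have w3 := (N.port _ _ _ j3).2.2
    have n1 := (nr _ (h5 x k1).1 _ w1 (h5 x k1).2).symm.trans (nr _ (j5 x k2).1 _ w3 (j5 x k2).2)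
    have n2 := n1.trans (nr _ w2 _ w3 j4).symm
    obtain ⟨-, -, g, g1, g2⟩ := j2
    obtain ⟨-, -, g', g3, g4⟩ := j3
    rw [Finset.mem_preimage, j1]
    refine z3 _ ?_ _ ?_
    · exact Finset.mem_biUnion.2 ⟨g, y2 g _ g2 (n2.le (by omega)), Sym2.mem_toFinset.2 g1⟩
    · exact Finset.mem_biUnion.2 ⟨g', y2 g' _ g4 (n1.le (by omega)), Sym2.mem_toFinset.2 g3⟩

end Pool.Agent.Lib.MP_b893bf_co
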