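import Pool.Agent.Lib.MP_b893bf_co.Geom

set_option autoImplicit false

namespace Pool.Agent.Lib.MP_b893bf_co

open Set

theorem exists_of_mem_edg {V : Type*} {l : List V} {s : Sym2 V} (h : s ∈ edg l) :
    ∃ A y y' B, l = A ++ y :: y' :: B ∧ s = s(y, y') := by
  induction l with
  | nil => simp [edg] at h
  | cons x l ih =>
    cases l with
    | nil => simp [edg] at h
    | cons y l =>
      simp only [edg, Multiset.mem_cons] at h
      rcases h with rfl | h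
      · exact ⟨[], x, y, l, rfl, rfl⟩
      · obtain ⟨A, z, z', B, h1, h2⟩ := ih h
        exact ⟨x :: A, z, z', B, by rw [h1]; rfl, h2⟩

theorem adj_of_mem_edg {V : Type*} {F : SimpleGraph V} {l : List V} (hl : l.IsChain F.Adj)
    {y y' : V} (h : s(y, y') ∈ edg l) : F.Adj y y' := by
  obtain ⟨A, z, z', B, rfl, h2⟩ := exists_of_mem_edg h
  have := (List.isChain_cons_cons.1 (List.isChain_split.1 hl).2).1
  rcases Sym2.eq_iff.1 h2 with ⟨rfl, rfl⟩ | ⟨rfl, rfl⟩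
  · exact this
  · exact this.symm

theorem Ok.mid_mem {V R : Type*} {F : SimpleGraph V} {Q : R → Set V} {W : Set V} {u v : R}
    {A B : List V} {x : V} (h : Ok F Q W u v (A ++ x :: B)) (hA : A ≠ []) (hB : B ≠ []) :
    x ∈ W := by
  obtain ⟨a, A, rfl⟩ := List.exists_cons_of_ne_nil hA
  obtain ⟨B, b, rfl⟩ := (List.eq_nil_or_concat B).resolve_left hB
  simp only [List.concat_eq_append] at h
  exact h.split.2.2.2.1

theorem Ok.not_both {V R : Type*} {F : SimpleGraph V} {Q : R → Set V} {W : Set V} {u v : R}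
    {l : List V} (h : Ok F Q W u v l) (hW : ∀ u, ∀ x ∈ Q u, x ∉ W)
    (hQ : ∀ u v, u ≠ v → ∀ x ∈ Q u, x ∉ Q v) (huv : u ≠ v) {y y' : V} (he : s(y, y') ∈ edg l)
    {w : R} (h1 : y ∈ Q w) (h2 : y' ∈ Q w) : False := by
  obtain ⟨A, z, z', B, rfl, h3⟩ := exists_of_mem_edg he
  have h4 : z ∈ Q w ∧ z' ∈ Q w := by
    rcases Sym2.eq_iff.1 h3 with ⟨rfl, rfl⟩ | ⟨rfl, rfl⟩
    · exact ⟨h1, h2⟩
    · exact ⟨h2, h1⟩
  by_cases hA : A = []
  · subst hA
    by_cases hB : B = []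
    · subst hB
      obtain ⟨-, a, M, b, k1, k2, k3, -⟩ := h
      obtain ⟨rfl, k4⟩ := List.cons.inj k1
      obtain ⟨-, k5⟩ := List.append_inj' (s₁ := []) k4 rfl
      obtain ⟨rfl, -⟩ := List.cons.inj k5
      by_cases e : u = w
      · exact hQ v w (fun e' => huv (e.trans e'.symm)) _ k3 h4.2
      · exact hQ u w e _ k2 h4.1
    · exact hW w _ h4.2 (Ok.mid_mem (A := [z]) h (by simp) hB)
  · exact hW w _ h4.1 (h.mid_mem hA (by simp))

/-- Points on the ray from `o` to an edge leaving `S`. -/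
def Rad (o : ℝ × ℝ) (S : Set (ℤ × ℤ)) (l : List (ℤ × ℤ)) (z : ℝ × ℝ) : Prop :=
  ∃ y y', s(y, y') ∈ edg l ∧ y ∈ S ∧ y' ∉ S ∧ ∃ t ∈ Ico (0 : ℝ) 1,
    z = AffineMap.lineMap o (mid y y') t

/-- Midpoints of edges. -/
def KM (l : List (ℤ × ℤ)) (z : ℝ × ℝ) : Prop := ∃ y y', s(y, y') ∈ edg l ∧ z = mid y y'

/-- Points inside a cell. -/
def KC (l : List (ℤ × ℤ)) (z : ℝ × ℝ) : Prop :=
  ∃ A a x c B, l = A ++ a :: x :: c :: B ∧ ∃ t ∈ Ioo (0 : ℝ) 1,
    z = AffineMap.lineMap (mid a x) (mid x c) t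

theorem Rad.ins {S : Set (ℤ × ℤ)} (hS : IsRect S) {c : ℤ × ℤ} (hc : c ∈ S) {l : List (ℤ × ℤ)}
    (hl : l.IsChain grid.Adj) {z : ℝ × ℝ} (h : Rad (mid c c) S l z) : Ins S z := by
  obtain ⟨y, y', h1, h2, -, t, ht, rfl⟩ := h
  exact hS.ins hc h2 (Or.inl (adj_of_mem_edg hl h1).symm) ht

theorem pass_facts {A B : List (ℤ × ℤ)} {a x c : ℤ × ℤ}
    (hl : (A ++ a :: x :: c :: B).IsChain grid.Adj) (hn : (A ++ a :: x :: c :: B).Nodup) :
    grid.Adj a x ∧ grid.Adj c x ∧ a ≠ c := by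
  have h1 := List.isChain_cons_cons.1 (List.isChain_split.1 hl).2
  refine ⟨h1.1, (List.isChain_cons_cons.1 h1.2).1.symm, ?_⟩
  rintro rfl
  have := (List.nodup_append.1 hn).2.1
  simp at this

theorem KC.ins {l : List (ℤ × ℤ)} (hl : l.IsChain grid.Adj) (hn : l.Nodup) {z : ℝ × ℝ}
    (h : KC l z) : ∃ A x B, l = A ++ x :: B ∧ A ≠ [] ∧ B ≠ [] ∧ Ins {x} z := by
  obtain ⟨A, a, x, c, B, rfl, t, ht, rfl⟩ := h
  obtain ⟨h1, h2, h3⟩ := pass_facts hl hn
  exact ⟨A ++ [a], x, c :: B, by simp, by simp, by simp, ins_cell h1 h2 h3 ht⟩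

theorem not_ins_single {x y y' : ℤ × ℤ} (h : grid.Adj y y') : ¬ Ins {x} (mid y y') := fun h' =>
  h.ne ((h'.mid h).1.trans (h'.mid h).2.symm)

theorem edg_cons_le {V : Type*} (a : V) (l : List V) : edg l ≤ edg (a :: l) := by
  cases l with
  | nil => simp [edg]
  | cons b l => exact Multiset.le_cons_self _ _

theorem tail_arc {S : Set (ℤ × ℤ)} (hS : IsRect S) {c : ℤ × ℤ} (hc : c ∈ S) (r : List (ℤ × ℤ)) :
    ∀ a a', (a :: a' :: r).IsChain grid.Adj → (a :: a' :: r).Nodup → a ∉ S →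
      (∃ M b, a' :: r = M ++ [b] ∧ b ∈ S ∧ ∀ y ∈ M, y ∉ S) →
      IsArc {z | Rad (mid c c) S (a :: a' :: r) z ∨ KM (a :: a' :: r) z ∨ KC (a :: a' :: r) z}
        (mid a a') (mid c c) := by
  induction r with
  | nil =>
    rintro a a' h1 - h3 ⟨M, b, h4, h5, -⟩
    obtain ⟨-, k5⟩ := List.append_inj' (s₁ := []) h4 rfl
    obtain ⟨rfl, -⟩ := List.cons.inj k5
    have h6 := (List.isChain_cons_cons.1 h1).1
    refine (arc_seg fun e => h3 (Ins.mid h6 (e ▸ hS.ins_self hc)).1).mono ?_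
    rintro z ⟨t, ht, rfl⟩
    rcases ht.1.eq_or_lt with rfl | h0
    · exact Or.inr (Or.inl ⟨a, a', by simp [edg], by simp⟩)
    · refine Or.inl ⟨a', a, by simp [edg, Sym2.eq_swap], h5, h3, 1 - t,
        ⟨by linarith [ht.2], by linarith⟩, ?_⟩
      rw [AffineMap.lineMap_apply_one_sub, mid_comm a' a]
  | cons x r ih =>
    rintro a a' h1 h2 h3 ⟨M, b, h4, h5, h6⟩
    obtain ⟨M', rfl⟩ : ∃ M', M = a' :: M' := by
      cases M with
      | nil => simp at h4
      | cons y M => exact ⟨M, by rw [(List.cons.inj h4).1]⟩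
    have h7 := List.isChain_cons_cons.1 h1
    have h8 := List.nodup_cons.1 h2
    have h9 : a' ∉ S := h6 a' (by simp)
    obtain ⟨j1, j2, j3⟩ := pass_facts (A := []) h1 h2
    have IH := ih a' x h7.2 h8.2 h9
      ⟨M', b, (List.cons.inj h4).2, h5, fun y hy => h6 y (by simp [hy])⟩
    have ne : mid a a' ≠ mid a' x := by
      intro e
      have := mid_inj j1 j2.symm e
      rcases Sym2.eq_iff.1 this with h | h
      · exact j1.ne h.1
      · exact j3 h.1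
    refine ((arc_seg ne).trans IH ?_).mono ?_
    · rintro z ⟨t, ht, rfl⟩ hz
      rcases ht.1.eq_or_lt with rfl | h0
      · exfalso
        rw [AffineMap.lineMap_apply_zero] at hz
        rcases hz with hz | ⟨y, y', k1, k2⟩ | hz
        · exact h3 ((hz.ins hS hc h7.2).mid j1).1
        · rw [← mid_inj j1 (adj_of_mem_edg h7.2 k1) k2] at k1
          exact h8.1 (mem_of_mem_edg k1 (Sym2.mem_mk_left _ _))
        · obtain ⟨A, y, B, -, -, -, k⟩ := hz.ins h7.2 h8.2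
          exact not_ins_single j1 k
      rcases ht.2.eq_or_lt with rfl | h1
      · simp
      exfalso
      have k0 := ins_cell j1 j2 j3 ⟨h0, h1⟩
      rcases hz with hz | ⟨y, y', k1, k2⟩ | hz
      · obtain ⟨y, rfl, k2⟩ := k0.meet (hz.ins hS hc h7.2)
        exact h9 k2
      · exact not_ins_single (adj_of_mem_edg h7.2 k1) (k2 ▸ k0)
      · obtain ⟨A, y, B, k1, k2, -, k⟩ := hz.ins h7.2 h8.2
        obtain ⟨w, rfl, rfl⟩ := k0.meet k
        obtain ⟨q, A, rfl⟩ := List.exists_cons_of_ne_nil k2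
        have := (List.nodup_cons.1 h8.2).1
        rw [(List.cons.inj k1).2] at this
        simp at this
    · rintro z (⟨t, ht, rfl⟩ | ⟨y, y', k1, k2⟩ | ⟨y, y', k1, k2⟩ | ⟨A, y, y', y'', B, k1, k2⟩)
      · rcases ht.1.eq_or_lt with rfl | h0
        · exact Or.inr (Or.inl ⟨a, a', by simp [edg], by simp⟩)
        rcases ht.2.eq_or_lt with rfl | h1
        · exact Or.inr (Or.inl ⟨a', x, by simp [edg], by simp⟩)
        · exact Or.inr (Or.inr ⟨[], a, a', x, r, rfl, t, ⟨h0, h1⟩, rfl⟩)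
      · exact Or.inl ⟨y, y', Multiset.mem_of_le (edg_cons_le _ _) k1, k2⟩
      · exact Or.inr (Or.inl ⟨y, y', Multiset.mem_of_le (edg_cons_le _ _) k1, k2⟩)
      · exact Or.inr (Or.inr ⟨a :: A, y, y', y'', B, by rw [k1]; rfl, k2⟩)

/-- Passing straight through a lattice point. -/
def St (a x c : ℤ × ℤ) : Prop := a + c = x + x

section
variable {R : Type*} {Q : R → Set (ℤ × ℤ)} {W : Set (ℤ × ℤ)} {c : R → ℤ × ℤ}

theorem route_arc (rect : ∀ u, IsRect (Q u)) (hc : ∀ u, c u ∈ Q u) (hW : ∀ u, ∀ x ∈ Q u, x ∉ W)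
    (hQ : ∀ u v, u ≠ v → ∀ x ∈ Q u, x ∉ Q v) {u v : R} (huv : u ≠ v) {l : List (ℤ × ℤ)}
    (h : Ok grid Q W u v l) (hn : l.Nodup) :
    IsArc {z | Rad (mid (c u) (c u)) (Q u) l z ∨ Rad (mid (c v) (c v)) (Q v) l z ∨ KM l z ∨ KC l z}
      (mid (c u) (c u)) (mid (c v) (c v)) := by
  obtain ⟨h1, a, M, b, rfl, h2, h3, h4⟩ := id h
  obtain ⟨a', r, e⟩ := List.exists_cons_of_ne_nil (show M ++ [b] ≠ [] by simp)
  rw [e] at h h1 hn ⊢
  have T := tail_arc (rect v) (hc v) r a a' h1 hn (hQ u v huv a h2)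
    ⟨M, b, e.symm, h3, fun y hy hy' => hW v y hy' (h4 y hy)⟩
  have j1 := (List.isChain_cons_cons.1 h1).1
  have me : s(a, a') ∈ edg (a :: a' :: r) := by simp [edg]
  have j2 : a' ∉ Q u := h.not_both hW hQ huv me h2
  have ne : mid (c u) (c u) ≠ mid a a' := fun e =>
    j2 (Ins.mid j1 (e ▸ (rect u).ins_self (hc u))).2
  refine ((arc_seg ne).trans T ?_).mono ?_
  · rintro z ⟨t, ht, rfl⟩ hz
    rcases ht.2.eq_or_lt with rfl | h5
    · simp
    exfalso
    have k0 := (rect u).ins (hc u) h2 (Or.inl j1.symm) ⟨ht.1, h5⟩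
    rcases hz with hz | ⟨y, y', k1, k2⟩ | hz
    · obtain ⟨y, k1, k2⟩ := k0.meet (hz.ins (rect v) (hc v) h1)
      exact hQ u v huv y k1 k2
    · rw [k2] at k0
      have := k0.mid (adj_of_mem_edg h1 k1)
      exact h.not_both hW hQ huv k1 this.1 this.2
    · obtain ⟨A, y, B, k1, k2, k3, k⟩ := hz.ins h1 hn
      obtain ⟨w, k4, rfl⟩ := k0.meet k
      exact hW u w k4 (Ok.mid_mem (k1 ▸ h) k2 k3)
  · rintro z (⟨t, ht, rfl⟩ | hz)
    · rcases ht.2.eq_or_lt with rfl | h5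
      · exact Or.inr (Or.inr (Or.inl ⟨a, a', me, by simp⟩))
      · exact Or.inl ⟨a, a', me, h2, j2, t, ⟨ht.1, h5⟩, rfl⟩
    · exact Or.inr hz

theorem realize {E : Type*} (ends : E → Sym2 R) (rect : ∀ u, IsRect (Q u))
    (ne : ∀ u, (Q u).Nonempty) (hW : ∀ u, ∀ x ∈ Q u, x ∉ W)
    (hQ : ∀ u v, u ≠ v → ∀ x ∈ Q u, x ∉ Q v) (hd : ∀ e, ¬ (ends e).IsDiag)
    (P : E → List (ℤ × ℤ)) (hP : ∀ e, Valid grid Q W (ends e) (P e) ∧ (P e).Nodup)
    (dj : ∀ e f, e ≠ f → ∀ s ∈ edg (P e), s ∉ edg (P f)) :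
    ∃ (pos : R → ℝ × ℝ) (arc : E → ℝ → ℝ × ℝ), Function.Injective pos ∧
      (∀ e, Continuous (arc e) ∧ InjOn (arc e) (Icc 0 1) ∧
        (∃ u v, ends e = s(u, v) ∧ arc e 0 = pos u ∧ arc e 1 = pos v) ∧
        ∀ w, ∀ t ∈ Ioo (0 : ℝ) 1, arc e t ≠ pos w) ∧
      ∀ e f, e ≠ f → ∀ z ∈ arc e '' Ioo 0 1 ∩ arc f '' Ioo 0 1,
        ∃ x, z = mid x x ∧ Straight St (P e) x ∧ Straight St (P f) x := by
  choose c hc using ne
  have hP1 := fun e => (hP e).1
  choose u v huv hok using hP1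
  have hne : ∀ e, u e ≠ v e := fun e h => hd e (by rw [huv, h]; exact Sym2.mk_isDiag_iff.2 rfl)
  have ha := fun e => route_arc rect hc hW hQ (hne e) (hok e) (hP e).2
  choose arc h1 h2 h3 h4 h5 using ha
  have ch := fun e => (hok e).1
  have cls : ∀ e, ∀ t ∈ Ioo (0 : ℝ) 1,
      (∃ w, Rad (mid (c w) (c w)) (Q w) (P e) (arc e t) ∧ arc e t ≠ mid (c w) (c w)) ∨
        KM (P e) (arc e t) ∨ KC (P e) (arc e t) := by
    intro e t ht
    have ht' := Ioo_subset_Icc_self ht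
    rcases h5 e ht' with h | h | h
    · exact Or.inl ⟨_, h, fun e' => ht.1.ne' (h2 e ht' (by simp) (e'.trans (h3 e).symm))⟩
    · exact Or.inl ⟨_, h, fun e' => ht.2.ne (h2 e ht' (by simp) (e'.trans (h4 e).symm))⟩
    · exact Or.inr h
  have vm : ∀ w e z, Ins (Q w) z → KM (P e) z → False := by
    rintro w e z h ⟨y, y', k1, rfl⟩
    have := h.mid (adj_of_mem_edg (ch e) k1)
    exact (hok e).not_both hW hQ (hne e) k1 this.1 this.2
  have vc : ∀ w e z, Ins (Q w) z → KC (P e) z → False := by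
    intro w e z h hz
    obtain ⟨A, y, B, k1, k2, k3, k⟩ := hz.ins (ch e) (hP e).2
    obtain ⟨x, k4, rfl⟩ := h.meet k
    exact hW w x k4 (Ok.mid_mem (k1 ▸ hok e) k2 k3)
  have mc : ∀ e f z, KM (P e) z → KC (P f) z → False := by
    rintro e f z ⟨y, y', k1, rfl⟩ hz
    obtain ⟨A, x, B, -, -, -, k⟩ := hz.ins (ch f) (hP f).2
    exact not_ins_single (adj_of_mem_edg (ch e) k1) k
  have vv : ∀ w w' z, Ins (Q w) z → Ins (Q w') z → w = w' := by
    intro w w' z h h'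
    obtain ⟨y, k1, k2⟩ := h.meet h'
    by_contra hne
    exact hQ w w' hne y k1 k2
  refine ⟨fun w => mid (c w) (c w), arc, fun w w' e => ?_,
    fun e => ⟨h1 e, h2 e, ⟨u e, v e, huv e, h3 e, h4 e⟩, fun w t ht e' => ?_⟩, ?_⟩
  · exact vv w w' _ ((rect w).ins_self (hc w)) (by
      rw [show mid (c w) (c w) = mid (c w') (c w') from e]
      exact (rect w').ins_self (hc w'))
  · have k0 : Ins (Q w) (arc e t) := e' ▸ (rect w).ins_self (hc w)
    rcases cls e t ht with ⟨w', k1, k2⟩ | k | k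
    · rw [vv w w' _ k0 (k1.ins (rect w') (hc w') (ch e))] at e'
      exact k2 e'
    · exact vm w e _ k0 k
    · exact vc w e _ k0 k
  · rintro e f hef z ⟨⟨s, hs, rfl⟩, t, ht, e'⟩
    have c2 := cls f t ht
    rw [e'] at c2
    rcases cls e s hs with ⟨w, k1, k2⟩ | k | k
    · exfalso
      have k0 := k1.ins (rect w) (hc w) (ch e)
      rcases c2 with ⟨w', j1, j2⟩ | j | j
      · obtain rfl := vv w w' _ k0 (j1.ins (rect w') (hc w') (ch f))
        obtain ⟨y, y', a1, a2, a3, p, hp, a4⟩ := k1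
        obtain ⟨x, x', b1, b2, b3, q, hq, b4⟩ := j1
        have ay := adj_of_mem_edg (ch e) a1
        have ax := adj_of_mem_edg (ch f) b1
        have p0 : 0 < p := hp.1.lt_of_ne (by rintro rfl; exact k2 (by simpa using a4))
        have q0 : 0 < q := hq.1.lt_of_ne (by rintro rfl; exact k2 (by simpa using b4))
        have em : mid y y' = mid x x' := by
          rcases le_total p q with h | h
          · exact rad_unique (fun t ht => (rect w).ins (hc w) a2 (Or.inl ay.symm) ht)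
              (fun h => b3 (h.mid ax).2) hp.1 h q0 (a4.symm.trans b4)
          · exact (rad_unique (fun t ht => (rect w).ins (hc w) b2 (Or.inl ax.symm) ht)
              (fun h => a3 (h.mid ay).2) hq.1 h p0 (b4.symm.trans a4)).symm
        exact dj e f hef _ a1 (mid_inj ay ax em ▸ b1)
      · exact vm w f _ k0 j
      · exact vc w f _ k0 j
    · exfalso
      rcases c2 with ⟨w', j1, -⟩ | j | j
      · exact vm w' e _ (j1.ins (rect w') (hc w') (ch f)) k
      · obtain ⟨y, y', a1, a2⟩ := k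
        obtain ⟨x, x', b1, b2⟩ := j
        exact dj e f hef _ a1 (mid_inj (adj_of_mem_edg (ch e) a1) (adj_of_mem_edg (ch f) b1)
          (a2.symm.trans b2) ▸ b1)
      · exact mc e f _ k j
    · rcases c2 with ⟨w', j1, -⟩ | j | j
      · exact (vc w' e _ (j1.ins (rect w') (hc w') (ch f)) k).elim
      · exact (mc f e _ j k).elim
      obtain ⟨A, a, x, b, B, a1, p, hp, a2⟩ := k
      obtain ⟨A', a', x', b', B', b1, q, hq, b2⟩ := j
      obtain ⟨j1, j2, j3⟩ := pass_facts (a1 ▸ ch e) (a1 ▸ (hP e).2)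
      obtain ⟨j4, j5, j6⟩ := pass_facts (b1 ▸ ch f) (b1 ▸ (hP f).2)
      obtain ⟨w, rfl, rfl⟩ := (a2 ▸ ins_cell j1 j2 j3 hp : Ins {x} (arc e s)).meet
        (b2 ▸ ins_cell j4 j5 j6 hq : Ins {x'} (arc e s))
      have m1 : s(a, w) ∈ edg (P e) := a1 ▸ mem_edg A a w (b :: B)
      have m2 : s(b, w) ∈ edg (P e) := by
        rw [a1, Sym2.eq_swap]
        simpa using mem_edg (A ++ [a]) w b B
      have m3 : s(a', w) ∈ edg (P f) := b1 ▸ mem_edg A' a' w (b' :: B')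
      have m4 : s(b', w) ∈ edg (P f) := by
        rw [b1, Sym2.eq_swap]
        simpa using mem_edg (A' ++ [a']) w b' B'
      obtain ⟨k1, k2, k3⟩ := cross_cell j1 j2 j4 j5 j3 j6
        (fun h => dj e f hef _ m1 (h ▸ m3)) (fun h => dj e f hef _ m1 (h ▸ m4))
        (fun h => dj e f hef _ m2 (h ▸ m3)) (fun h => dj e f hef _ m2 (h ▸ m4)) hp hq
        (a2.symm.trans b2)
      exact ⟨w, a2.trans k1, ⟨A, a, b, B, a1, k2⟩, A', a', b', B', b1, k3⟩

end

end Pool.Agent.Lib.MP_b893bf_co
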