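import Pool.Agent.Lib.MP_b893bf_co.Strand

set_option autoImplicit false

namespace Pool.Agent.Lib.MP_b893bf_co

open Set

variable {V ι : Type*}

/-- The number of ages up to `i`. -/
def rk (S : Finset ℕ) (i : ℕ) : ℕ := (S.filter (· ≤ i)).card

theorem rk_le (S : Finset ℕ) (i : ℕ) : rk S i ≤ S.card := Finset.card_filter_le _ _

theorem rk_mono (S : Finset ℕ) {i j : ℕ} (h : i ≤ j) : rk S i ≤ rk S j :=
  Finset.card_le_card fun x hx => by
    simp only [Finset.mem_filter] at hx ⊢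
    exact ⟨hx.1, hx.2.trans h⟩

theorem rk_lt {S : Finset ℕ} {i j : ℕ} (h : i < j) (hj : j ∈ S) : rk S i < rk S j := by
  refine Finset.card_lt_card ⟨fun x hx => ?_, fun hh => ?_⟩
  · simp only [Finset.mem_filter] at hx ⊢
    exact ⟨hx.1, hx.2.trans h.le⟩
  · have := hh (Finset.mem_filter.2 ⟨hj, le_rfl⟩)
    simp only [Finset.mem_filter] at this
    omega

theorem rk_pos {S : Finset ℕ} {j : ℕ} (hj : j ∈ S) : 0 < rk S j :=
  Finset.card_pos.2 ⟨j, Finset.mem_filter.2 ⟨hj, le_rfl⟩⟩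

theorem rk_le_iff {S : Finset ℕ} {i j : ℕ} (hi : i ∈ S) (h : rk S i ≤ rk S j) : i ≤ j := by
  by_contra hne
  have := rk_lt (not_le.1 hne) hi
  omega

theorem rk_erase_lt {S : Finset ℕ} {i x : ℕ} (h : i < x) : rk (S.erase x) i = rk S i := by
  unfold rk
  congr 1
  ext y
  simp only [Finset.mem_filter, Finset.mem_erase]
  constructor
  · exact fun h => ⟨h.1.2, h.2⟩
  · exact fun h' => ⟨⟨by omega, h'.1⟩, h'.2⟩

theorem rk_erase_gt {S : Finset ℕ} {i x : ℕ} (hx : x ∈ S) (h : x < i) :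
    rk (S.erase x) i + 1 = rk S i := by
  unfold rk
  rw [Finset.filter_erase, Finset.card_erase_add_one (Finset.mem_filter.2 ⟨hx, h.le⟩)]

theorem rk_insert_lt {S : Finset ℕ} {i x : ℕ} (h : i < x) : rk (insert x S) i = rk S i := by
  unfold rk
  rw [Finset.filter_insert, if_neg (by omega)]

theorem rk_insert_self {S : Finset ℕ} {x : ℕ} (h : ∀ i ∈ S, i < x) :
    rk (insert x S) x = S.card + 1 := by
  unfold rk
  rw [Finset.filter_true_of_mem, Finset.card_insert_of_notMem fun hx => lt_irrefl _ (h x hx)]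
  intro i hi
  rcases Finset.mem_insert.1 hi with rfl | hi
  · exact le_rfl
  · exact (h i hi).le

/-- The data carried along the decomposition. -/
structure Ctx (G : SimpleGraph V) (D : ι → Set V) (ρ : ℕ → ℕ) (L : ℕ) (K : Set V) (S : Finset ℕ)
    (O : Set V) (age σ n : V → ℕ) (U : ℕ → Set V) (c : V → V) : Prop where
  card : S.card ≤ 4
  mem : ∀ b ∈ O, age b ∈ S
  disj : ∀ b ∈ O, b ∉ K
  conn : ∀ i ∈ S, Conn G {b | b ∈ O ∧ age b = i}
  tch : ∀ i ∈ S, ∀ j ∈ S, i < j → Tch G {b | b ∈ O ∧ age b = i} {b | b ∈ O ∧ age b = j}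
  dom : ∀ b ∈ O, b ∈ U (age b)
  domK : ∀ i ∈ S, K ⊆ U i
  nest : ∀ i ∈ S, ∀ j ∈ S, i ≤ j → U j ⊆ U i
  sig : ∀ b ∈ O, σ b < 4
  low : ∀ b ∈ O, ∀ b' ∈ O, age b = age b' → σ b = σ b' → ∀ m, Near G D (U (age b)) m b b' →
    n b ≤ n b' + m + ρ (rk S (age b))
  up : ∀ b ∈ O, ∀ b' ∈ O, age b = age b' → σ b = σ b' → ∀ m, n b ≤ n b' + m → n b' ≤ n b + m →
    Near G D (U (age b)) (m + ρ (rk S (age b))) b b'
  lab : ∀ b ∈ O, ∀ b' ∈ O, age b = age b' → σ b = σ b' → n b / L = n b' / L → c b = c b'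
  labd : ∀ b ∈ O, Near G D univ (L + ρ (rk S (age b))) b (c b)

/-- The piece of `x` is attached to an old set of rank at least `p`. -/
def Wit (G : SimpleGraph V) (D : ι → Set V) (K : Set V) (S : Finset ℕ) (O : Set V) (age : V → ℕ)
    (e : ι) (x : V) (p : ℕ) : Prop :=
  p = 0 ∨ ∃ z b, Rch G (D e ∩ K) x z ∧ G.Adj z b ∧ b ∈ D e ∧ b ∈ O ∧ p ≤ rk S (age b)

/-- The labelling produced by the decomposition. -/
structure Res (G : SimpleGraph V) (D : ι → Set V) (M : ℕ) (h : ℕ → ℕ) (K : Set V) (S : Finset ℕ)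
    (O : Set V) (age : V → ℕ) (c0 c : V → V) : Prop where
  s1 : ∀ v ∈ K, ∃ z, Rch G {w | w ∈ K ∧ c w = c v} v z ∧
    (z = c v ∨ ∃ b ∈ O, G.Adj z b ∧ c0 b = c v)
  s2 : ∀ v ∈ K, Near G D univ M v (c v)
  s3 : ∀ e x y p, x ∈ D e ∩ K → Rch G (D e ∩ K) x y → Wit G D K S O age e x p →
    Ch (HopR G K c) (h p) x y

variable {G : SimpleGraph V} {D : ι → Set V} {ρ h : ℕ → ℕ} {L M : ℕ} {K K' : Set V}
  {S S' : Finset ℕ} {O O' : Set V} {age σ n age' σ' n' : V → ℕ} {U U' : ℕ → Set V}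
  {c0 c0' : V → V}

theorem Ctx.mono (H : Ctx G D ρ L K S O age σ n U c0) (hK : K' ⊆ K) :
    Ctx G D ρ L K' S O age σ n U c0 :=
  { H with disj := fun b hb h => H.disj b hb (hK h), domK := fun i hi => hK.trans (H.domK i hi) }

theorem rch_comp {e : ι} {x y : V} (h : Rch G (D e ∩ K) x y) :
    Rch G (D e ∩ comp G K x) x y :=
  h.restrict fun _ hw hw' => ⟨hw.1, hw.2, hw'.mono inter_subset_right⟩

theorem glue (H : ∀ x ∈ K, ∃ c, Res G D M h (comp G K x) S O age c0 c) :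
    ∃ c, Res G D M h K S O age c0 c := by
  classical
  have : Nonempty (V → V) := ⟨id⟩
  let F : Set V → V → V := fun C => Classical.epsilon fun c => Res G D M h C S O age c0 c
  have hF : ∀ x ∈ K, Res G D M h (comp G K x) S O age c0 (F (comp G K x)) := fun x hx =>
    Classical.epsilon_spec (H x hx)
  have e : ∀ x w, w ∈ comp G K x → F (comp G K w) w = F (comp G K x) w := fun x w hw => by
    rw [comp_eq hw]
  refine ⟨fun v => F (comp G K v) v, fun v hv => ?_, fun v hv => (hF v hv).s2 v (mem_comp_self hv),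
    fun f x y p hx hxy hw => ?_⟩
  · obtain ⟨z, h1, h2⟩ := (hF v hv).s1 v (mem_comp_self hv)
    refine ⟨z, h1.mono ?_, h2⟩
    rintro w ⟨h3, h4⟩
    exact ⟨h3.1, (e v w h3).trans h4⟩
  · refine ((hF x hx.2).s3 f x y p ⟨hx.1, mem_comp_self hx.2⟩ (rch_comp hxy) ?_).imp ?_
    · rcases hw with hw | ⟨z, b, h1, h2⟩
      · exact Or.inl hw
      · exact Or.inr ⟨z, b, rch_comp h1, h2⟩
    · rintro a b ⟨h1, h2, h3⟩
      refine ⟨h1.1, h2.1, h3.imp_left fun h3 => ?_⟩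
      exact (e x a h1).trans (h3.trans (e x b h2).symm)

theorem step_res {A : Set V} (hA : A ⊆ K) (hS : S.card ≤ 4)
    (H : Ctx G D ρ L (K \ A) S' O' age' σ' n' U' c0')
    (a1 : A ⊆ O') (a2 : ∀ b ∈ O', b ∈ A ∨ (b ∈ O ∧ c0' b = c0 b))
    (e1 : ∀ v ∈ A, ∃ z, Rch G {w | w ∈ A ∧ c0' w = c0' v} v z ∧
      (z = c0' v ∨ ∃ b ∈ O, G.Adj z b ∧ c0 b = c0' v))
    (domA : ∀ a ∈ A, K ⊆ U' (age' a))
    (e3 : ∀ e x p, x ∈ D e ∩ K → Wit G D K S O age e x p →
      (∀ y, Rch G (D e ∩ K) x y → y ∈ A) ∨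
        ((∀ a ∈ A, p + 1 ≤ rk S' (age' a)) ∧ Wit G D K S' O' age' e x p))
    (hρ : ∀ p, ρ p + 1 ≤ L ∧ L + ρ p ≤ M) (hh : ∀ p ≤ 4, gg (h (p + 1)) 40 ≤ h p)
    (R : ∃ c, Res G D M h (K \ A) S' O' age' c0' c) : ∃ c, Res G D M h K S O age c0 c := by
  classical
  obtain ⟨c', R⟩ := R
  let c : V → V := fun v => if v ∈ A then c0' v else c' v
  have cA : ∀ v ∈ A, c v = c0' v := fun v hv => if_pos hv
  have cN : ∀ v, v ∉ A → c v = c' v := fun v hv => if_neg hv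
  have f1 : ∀ v ∈ A, ∀ x, c0' v = x → ∃ z, Rch G {w | w ∈ K ∧ c w = x} v z ∧
      (z = x ∨ ∃ b ∈ O, G.Adj z b ∧ c0 b = x) := by
    rintro v hv x rfl
    obtain ⟨z, h1, h2⟩ := e1 v hv
    refine ⟨z, h1.mono ?_, h2⟩
    rintro w ⟨h3, h4⟩
    exact ⟨hA h3, (cA w h3).trans h4⟩
  have hop : ∀ a b, HopR G (K \ A) c' a b → HopR G K c a b := by
    rintro a b ⟨h1, h2, h3⟩
    refine ⟨h1.1, h2.1, h3.imp_left fun h3 => ?_⟩
    rw [cN a h1.2, cN b h2.2, h3]
  refine ⟨c, fun v hv => ?_, fun v hv => ?_, fun e x y p hx hxy hw => ?_⟩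
  · by_cases hvA : v ∈ A
    · exact f1 v hvA _ (cA v hvA).symm
    · obtain ⟨z, h1, h2⟩ := R.s1 v ⟨hv, hvA⟩
      have h3 : Rch G {w | w ∈ K ∧ c w = c v} v z := by
        refine h1.mono ?_
        rintro w ⟨h3, h4⟩
        exact ⟨h3.1, by rw [cN w h3.2, cN v hvA, h4]⟩
      rw [← cN v hvA] at h2
      rcases h2 with h2 | ⟨b, hb, h4, h5⟩
      · exact ⟨z, h3, Or.inl h2⟩
      rcases a2 b hb with h6 | ⟨h6, h7⟩
      · obtain ⟨z', h7, h8⟩ := f1 b h6 _ h5
        exact ⟨z', h3.trans ((Rch.step h4 (h3.mem ⟨hv, rfl⟩)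
          ⟨hA h6, (cA b h6).trans h5⟩).trans h7), h8⟩
      · exact ⟨z, h3, Or.inr ⟨b, h6, h4, h7.symm.trans h5⟩⟩
  · by_cases hvA : v ∈ A
    · rw [cA v hvA]
      exact (H.labd v (a1 hvA)).le (hρ _).2
    · rw [cN v hvA]
      exact R.s2 v ⟨hv, hvA⟩
  · have hp : p ≤ 4 := by
      rcases hw with rfl | ⟨z, b, -, -, -, -, h5⟩
      · omega
      · exact h5.trans ((rk_le _ _).trans hS)
    have sub : ∀ X : Set V, X ⊆ D e ∩ K → X \ A ⊆ D e ∩ (K \ A) := fun X hX w hw =>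
      ⟨(hX hw.1).1, (hX hw.1).2, hw.2⟩
    set X := comp G (D e ∩ K) x with hX
    have cX : Conn G X := comp_conn _ _
    have xX : x ∈ X := mem_comp_self hx
    have yX : y ∈ X := ⟨hxy.mem hx, hxy⟩
    by_cases hXA : ∃ a ∈ X, a ∈ A
    · obtain ⟨a0, ha0, ha0A⟩ := hXA
      have hL : 0 < L := by
        have := (hρ 0).1
        omega
      refine (hop_colours (A := A) (h := h (p + 1))
        (col := fun a => rk S' (age' a) * 8 + σ' a * 2 + n' a / L % 2) 40 X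
        (fun w hw => hw.1.2) ?_ ?_ ?_ x y xX (cX x xX y yX)).le (hh p hp)
      · intro v _ hv
        have h1 := (rk_le S' (age' v)).trans H.card
        have h2 := H.sig v (a1 hv)
        omega
      · intro v hv hvA w hw hwA hc
        have h1 := H.sig v (a1 hvA)
        have h2 := H.sig w (a1 hwA)
        have h3 : rk S' (age' v) = rk S' (age' w) := by omega
        have h4 : age' v = age' w := le_antisymm (rk_le_iff (H.mem v (a1 hvA)) h3.le)
          (rk_le_iff (H.mem w (a1 hwA)) h3.ge)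
        have h5 : σ' v = σ' w := by omega
        have h6 : Near G D K 1 v w := Ch.single ⟨e, hv.1, hv.2.symm.trans hw.2⟩
        have h7 := H.low v (a1 hvA) w (a1 hwA) h4 h5 1 (h6.mono (domA v hvA))
        have h8 := H.low w (a1 hwA) v (a1 hvA) h4.symm h5.symm 1 (h6.symm.mono (domA w hwA))
        have h9 := (hρ (rk S' (age' v))).1
        have h10 := (hρ (rk S' (age' w))).1
        have h11 : n' v / L ≤ n' w / L + 1 := by
          rw [← Nat.add_div_right _ hL]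
          exact Nat.div_le_div_right (by omega)
        have h12 : n' w / L ≤ n' v / L + 1 := by
          rw [← Nat.add_div_right _ hL]
          exact Nat.div_le_div_right (by omega)
        rw [cA v hvA, cA w hwA]
        exact H.lab v (a1 hvA) w (a1 hwA) h4 h5 (by omega)
      · intro x' y' hx' hxy'
        rcases e3 e x p hx hw with h1 | ⟨h1, -⟩
        · exact (hx'.2 (h1 x' hx'.1.2)).elim
        refine (R.s3 e x' y' (p + 1) (sub X (comp_subset _ _) hx')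
          (hxy'.mono (sub X (comp_subset _ _))) ?_).imp hop
        rcases (cX x' hx'.1 a0 ha0).first hx'.1 A with h2 | ⟨a, ha, haA, -, rfl | ⟨z, -, h2, h3⟩⟩
        · exact (h2.2.1 ha0A).elim
        · exact (hx'.2 haA).elim
        · exact Or.inr ⟨z, a, h2.mono (sub X (comp_subset _ _)), h3, ha.1.1, a1 haA, h1 a haA⟩
    · push Not at hXA
      have res : ∀ z, Rch G (D e ∩ K) x z → Rch G (D e ∩ (K \ A)) x z := fun z hz =>
        hz.restrict fun w hw hw' => ⟨hw.1, hw.2, hXA w ⟨hw, hw'⟩⟩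
      rcases e3 e x p hx hw with h1 | ⟨-, h1⟩
      · exact (hXA x xX (h1 x (Rch.refl _ _))).elim
      refine (R.s3 e x y p ⟨hx.1, hx.2, hXA x xX⟩ (res y hxy) ?_).imp hop
      rcases h1 with h1 | ⟨z, b, h1, h2⟩
      · exact Or.inl h1
      · exact Or.inr ⟨z, b, res z h1, h2⟩

end Pool.Agent.Lib.MP_b893bf_co
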