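import Pool.Agent.Lib.MP_b893bf_co.Chain

set_option autoImplicit false

namespace Pool.Agent.Lib.MP_b893bf_co

open Set

variable {V ι : Type*} {G : SimpleGraph V} {D : ι → Set V}

theorem adj_stp (hE : ∀ x y, G.Adj x y → ∃ e, x ∈ D e ∧ y ∈ D e) {U : Set V} {x y : V}
    (h : G.Adj x y) (hx : x ∈ U) (hy : y ∈ U) : Stp G D U x y := by
  obtain ⟨e, h1, h2⟩ := hE x y h
  exact ⟨e, ⟨h1, hx⟩, Rch.step h ⟨h1, hx⟩ ⟨h2, hy⟩⟩

theorem rch_near (hE : ∀ x y, G.Adj x y → ∃ e, x ∈ D e ∧ y ∈ D e) {U : Set V} {x y : V}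
    (h : Rch G U x y) : ∃ m, Near G D U m x y := by
  refine h.ind (fun y => ∃ m, Near G D U m x y) ⟨0, Near.refl _ _ _⟩ ?_
  rintro a b ha hb hab ⟨m, hm⟩
  exact ⟨m + 1, Ch.tail hm (adj_stp hE hab ha hb)⟩

theorem strand_aux {K X : Set V} {φ : V → ℕ}
    (spec : ∀ v ∈ K, ∃ x ∈ X, Near G D K (φ v) v x)
    (le : ∀ v m, ∀ x ∈ X, Near G D K m v x → φ v ≤ m) (j : ℕ) :
    ∀ z ∈ K, φ z = j → ∃ T : Set V, T ⊆ K ∧ (∀ w ∈ T, 1 ≤ φ w ∧ φ w ≤ j) ∧ (z ∈ X ∨ z ∈ T) ∧
      (∀ v ∈ T, ∃ x ∈ X, Rch G (X ∪ T) v x) ∧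
      ∀ w ∈ T, ∀ w' ∈ T, φ w' ≤ φ w → Near G D K (φ w - φ w' + 1) w w' ∧
        Rch G {t | t ∈ T ∧ φ w' ≤ φ t ∧ φ t ≤ φ w} w w' := by
  have lip : ∀ b, ∀ b' ∈ K, ∀ m, Near G D K m b b' → φ b ≤ φ b' + m := by
    intro b b' hb' m h
    obtain ⟨x, hx, h'⟩ := spec b' hb'
    have := le b _ x hx (h.trans h')
    omega
  induction j with
  | zero =>
    intro z hz h0
    obtain ⟨x, hx, h⟩ := spec z hz
    rw [h0] at h
    refine ⟨∅, empty_subset _, by simp, Or.inl (Ch.zero h ▸ hx), by simp, by simp⟩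
  | succ j ih =>
    intro z hz hj
    obtain ⟨x, hx, h⟩ := spec z hz
    rw [hj] at h
    rcases Ch.succ_cases h.symm with rfl | ⟨y, hy1, hy2⟩
    · have := le x 0 x hx (Near.refl _ _ _)
      omega
    have hy3 : φ y ≤ j := le y j x hx (Near.symm hy1)
    obtain ⟨e, h1, h2⟩ := Stp.symm _ _ hy2
    set B : Set V := {w | φ w ≤ j} with hB
    have hzB : z ∉ B := by
      simp only [hB, mem_ofPred_eq]
      omega
    rcases h2.first h1 B with h3 | ⟨a, ha, haB, hza, rfl | ⟨z1, -, hz1, hz1a⟩⟩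
    · exact (h3.2.1 hy3).elim
    · exact (hzB haB).elim
    set T1 := comp G ((D e ∩ K) \ B) z with hT1
    have st : ∀ w ∈ T1, Near G D K 1 w a := fun w hw =>
      Ch.single ⟨e, hw.1.1, ((hw.2.mono sdiff_subset).symm.trans hza)⟩
    have zT : z ∈ T1 := mem_comp_self ⟨h1, hzB⟩
    have haj : φ a = j := by
      have := lip z a ha.2 1 (st z zT)
      have : φ a ≤ j := haB
      omega
    have hT : ∀ w ∈ T1, φ w = j + 1 := fun w hw => by
      have := lip w a ha.2 1 (st w hw)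
      have : ¬ φ w ≤ j := hw.1.2
      omega
    have z1T : z1 ∈ T1 := ⟨hz1.mem ⟨h1, hzB⟩, hz1⟩
    have cT := comp_conn (G := G) ((D e ∩ K) \ B) z
    obtain ⟨T0, k1, k2, k3, k4, k5⟩ := ih a ha.2 haj
    refine ⟨T1 ∪ T0, union_subset (fun w hw => hw.1.1.2) k1, ?_, Or.inr (Or.inl zT), ?_, ?_⟩
    · rintro w (hw | hw)
      · have := hT w hw
        omega
      · have := k2 w hw
        omega
    · have sub : X ∪ T0 ⊆ X ∪ (T1 ∪ T0) := union_subset_union_right _ subset_union_right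
      rintro v (hv | hv)
      · have h4 : Rch G (X ∪ (T1 ∪ T0)) v a :=
          ((cT v hv z1 z1T).mono fun w hw => Or.inr (Or.inl hw)).trans
            (Rch.step hz1a (Or.inr (Or.inl z1T)) (sub k3))
        rcases k3 with k3 | k3
        · exact ⟨a, k3, h4⟩
        · obtain ⟨x', hx', h5⟩ := k4 a k3
          exact ⟨x', hx', h4.trans (h5.mono sub)⟩
      · obtain ⟨x', hx', h5⟩ := k4 v hv
        exact ⟨x', hx', h5.mono sub⟩
    · rintro w (hw | hw) w' (hw' | hw') hle
      · refine ⟨Near.le (m := 1) (Ch.single ⟨e, hw.1.1,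
          (hw.2.symm.trans hw'.2).mono sdiff_subset⟩) (by omega), (cT w hw w' hw').mono ?_⟩
        intro t ht
        exact ⟨Or.inl ht, by rw [hT t ht, hT w' hw'], by rw [hT t ht, hT w hw]⟩
      · have h4 := k2 w' hw'
        have h5 := hT w hw
        have haT : a ∈ T0 := by
          rcases k3 with k3 | k3
          · have := le a 0 a k3 (Near.refl _ _ _)
            omega
          · exact k3
        obtain ⟨h6, h7⟩ := k5 a haT w' hw' (by omega)
        refine ⟨((st w hw).trans h6).le (by omega), ?_⟩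
        refine ((cT w hw z1 z1T).mono ?_).trans ((Rch.step hz1a ?_ ?_).trans (h7.mono ?_))
        · intro t ht
          have := hT t ht
          exact ⟨Or.inl ht, by omega, by omega⟩
        · have := hT z1 z1T
          exact ⟨Or.inl z1T, by omega, by omega⟩
        · exact ⟨Or.inr haT, by omega, by omega⟩
        · rintro t ⟨h8, h9, h10⟩
          exact ⟨Or.inr h8, h9, by omega⟩
      · have := k2 w hw
        have := hT w' hw'
        omega
      · obtain ⟨h6, h7⟩ := k5 w hw w' hw' hle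
        refine ⟨h6, h7.mono ?_⟩
        rintro t ⟨h8, h9⟩
        exact ⟨Or.inr h8, h9⟩

theorem div_close {a b L : ℕ} (hL : 0 < L) (h : a / L = b / L) : a ≤ b + L := by
  have h1 := Nat.lt_div_mul_add (a := a) hL
  have h2 := Nat.div_mul_le_self b L
  rw [h] at h1
  omega

theorem strand [Nonempty V] (hE : ∀ x y, G.Adj x y → ∃ e, x ∈ D e ∧ y ∈ D e) {K X : Set V}
    (hK : Conn G K) (hX : X ⊆ K) (hne : X.Nonempty) {L : ℕ} (hL : 0 < L) {y : V} (hy : y ∈ K) :
    ∃ (T : Set V) (n : V → ℕ) (c : V → V), T ⊆ K ∧ (∀ v ∈ T, v ∉ X) ∧ (y ∈ X ∨ y ∈ T) ∧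
      (∀ v ∈ T, ∃ x ∈ X, Rch G (X ∪ T) v x) ∧
      (∀ b, ∀ b' ∈ K, ∀ m, Near G D K m b b' → n b ≤ n b' + m) ∧
      (∀ b ∈ T, ∀ b' ∈ T, ∀ m, n b ≤ n b' + m → n b' ≤ n b + m → Near G D K (m + 1) b b') ∧
      (∀ b b', n b / L = n b' / L → c b = c b') ∧
      ∀ b ∈ T, Near G D K (L + 1) b (c b) ∧ Rch G {w | w ∈ T ∧ c w = c b} b (c b) := by
  classical
  let φ : V → ℕ := fun v => sInf {m | ∃ x ∈ X, Near G D K m v x}
  have spec : ∀ v ∈ K, ∃ x ∈ X, Near G D K (φ v) v x := by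
    intro v hv
    obtain ⟨x, hx⟩ := hne
    obtain ⟨m, hm⟩ := rch_near hE (hK v hv x (hX hx))
    exact Nat.sInf_mem (s := {m | ∃ x ∈ X, Near G D K m v x}) ⟨m, x, hx, hm⟩
  have le : ∀ v m, ∀ x ∈ X, Near G D K m v x → φ v ≤ m := fun v m x hx h =>
    Nat.sInf_le ⟨x, hx, h⟩
  obtain ⟨T, h1, h2, h3, h4, h5⟩ := strand_aux spec le _ y hy rfl
  have up : ∀ b ∈ T, ∀ b' ∈ T, ∀ m, φ b ≤ φ b' + m → φ b' ≤ φ b + m →
      Near G D K (m + 1) b b' := by
    intro b hb b' hb' m k1 k2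
    rcases le_total (φ b') (φ b) with h | h
    · exact (h5 b hb b' hb' h).1.le (by omega)
    · exact (h5 b' hb' b hb h).1.symm.le (by omega)
  let F : ℕ → V := fun q => Classical.epsilon fun w => w ∈ T ∧ φ w / L = q
  refine ⟨T, φ, fun v => F (φ v / L), h1, ?_, h3, h4, ?_, up, ?_, ?_⟩
  · intro v hv hvX
    have := le v 0 v hvX (Near.refl _ _ _)
    have := h2 v hv
    omega
  · intro b b' hb' m h
    obtain ⟨x, hx, h'⟩ := spec b' hb'
    have := le b _ x hx (h.trans h')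
    omega
  · intro b b' h
    simp only [h]
  · intro b hb
    obtain ⟨k1, k2⟩ : F (φ b / L) ∈ T ∧ φ (F (φ b / L)) / L = φ b / L :=
      Classical.epsilon_spec (p := fun w => w ∈ T ∧ φ w / L = φ b / L) ⟨b, hb, rfl⟩
    refine ⟨up b hb _ k1 L (div_close hL k2.symm) (div_close hL k2), ?_⟩
    rcases le_total (φ (F (φ b / L))) (φ b) with h | h
    · refine (h5 b hb _ k1 h).2.mono ?_
      rintro t ⟨k3, k4, k5⟩
      have k6 := Nat.div_le_div_right (c := L) k4
      have k7 := Nat.div_le_div_right (c := L) k5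
      exact ⟨k3, congrArg F (by omega)⟩
    · refine (h5 _ k1 b hb h).2.symm.mono ?_
      rintro t ⟨k3, k4, k5⟩
      have k6 := Nat.div_le_div_right (c := L) k4
      have k7 := Nat.div_le_div_right (c := L) k5
      exact ⟨k3, congrArg F (by omega)⟩

theorem skeleton [Nonempty V] (hE : ∀ x y, G.Adj x y → ∃ e, x ∈ D e ∧ y ∈ D e) {K : Set V}
    (hK : Conn G K) {x0 : V} (hx0 : x0 ∈ K) {L : ℕ} (hL : 0 < L) (Y : Finset V) :
    (∀ y ∈ Y, y ∈ K) → ∃ (η : Set V) (σ n : V → ℕ) (c : V → V), η ⊆ K ∧ x0 ∈ η ∧ Conn G η ∧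
      (∀ y ∈ Y, y ∈ η) ∧ (∀ b ∈ η, σ b ≤ Y.card) ∧
      (∀ b ∈ η, ∀ b' ∈ η, σ b = σ b' → ∀ m, Near G D K m b b' → n b ≤ n b' + m) ∧
      (∀ b ∈ η, ∀ b' ∈ η, σ b = σ b' → ∀ m, n b ≤ n b' + m → n b' ≤ n b + m →
        Near G D K (m + 1) b b') ∧
      (∀ b ∈ η, ∀ b' ∈ η, σ b = σ b' → n b / L = n b' / L → c b = c b') ∧
      ∀ b ∈ η, Near G D K (L + 1) b (c b) ∧ Rch G {w | w ∈ η ∧ c w = c b} b (c b) := by
  classical
  induction Y using Finset.induction_on with
  | empty =>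
    intro _
    refine ⟨{x0}, fun _ => 0, fun _ => 0, fun _ => x0, by simpa using hx0, rfl,
      conn_singleton _, by simp, by simp, by simp, ?_, by simp, ?_⟩
    · rintro b rfl b' rfl - m - -
      exact Near.refl _ _ _
    · rintro b rfl
      exact ⟨Near.refl _ _ _, Rch.refl _ _⟩
  | insert y Y hy ih =>
    intro hY
    obtain ⟨η, σ, n, c, h1, h2, h3, h4, h5, h6, h7, h8, h9⟩ :=
      ih fun z hz => hY z (Finset.mem_insert_of_mem hz)
    obtain ⟨T, n', c', k1, k2, k3, k4, k5, k6, k7, k8⟩ :=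
      strand hE hK h1 ⟨x0, h2⟩ hL (hY y (Finset.mem_insert_self _ _))
    have nT : ∀ b ∈ η, b ∉ T := fun b hb hT => k2 b hT hb
    refine ⟨η ∪ T, fun v => if v ∈ T then Y.card + 1 else σ v, fun v => if v ∈ T then n' v else n v,
      fun v => if v ∈ T then c' v else c v, union_subset h1 k1, Or.inl h2, ?_, ?_, ?_, ?_, ?_, ?_,
      ?_⟩
    · refine conn_of_base h3 subset_union_left ?_
      rintro v (hv | hv)
      · exact ⟨v, hv, Rch.refl _ _⟩
      · exact k4 v hv
    · intro z hz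
      rcases Finset.mem_insert.1 hz with rfl | hz
      · exact k3
      · exact Or.inl (h4 z hz)
    · rw [Finset.card_insert_of_notMem hy]
      rintro b (hb | hb)
      · simp only [if_neg (nT b hb)]
        exact (h5 b hb).trans (Nat.le_succ _)
      · simp only [if_pos hb, le_refl]
    · rintro b (hb | hb) b' (hb' | hb')
      · simpa only [if_neg (nT b hb), if_neg (nT b' hb')] using h6 b hb b' hb'
      · simp only [if_neg (nT b hb), if_pos hb']
        intro h
        have := h5 b hb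
        omega
      · simp only [if_neg (nT b' hb'), if_pos hb]
        intro h
        have := h5 b' hb'
        omega
      · simp only [if_pos hb, if_pos hb']
        exact fun _ => k5 b b' (k1 hb')
    · rintro b (hb | hb) b' (hb' | hb')
      · simpa only [if_neg (nT b hb), if_neg (nT b' hb')] using h7 b hb b' hb'
      · simp only [if_neg (nT b hb), if_pos hb']
        intro h
        have := h5 b hb
        omega
      · simp only [if_neg (nT b' hb'), if_pos hb]
        intro h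
        have := h5 b' hb'
        omega
      · simp only [if_pos hb, if_pos hb']
        exact fun _ => k6 b hb b' hb'
    · rintro b (hb | hb) b' (hb' | hb')
      · simpa only [if_neg (nT b hb), if_neg (nT b' hb')] using h8 b hb b' hb'
      · simp only [if_neg (nT b hb), if_pos hb']
        intro h
        have := h5 b hb
        omega
      · simp only [if_neg (nT b' hb'), if_pos hb]
        intro h
        have := h5 b' hb'
        omega
      · simp only [if_pos hb, if_pos hb']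
        exact fun _ => k7 b b'
    · rintro b (hb | hb)
      · simp only [if_neg (nT b hb)]
        refine ⟨(h9 b hb).1, (h9 b hb).2.mono ?_⟩
        rintro w ⟨hw, hw'⟩
        exact ⟨Or.inl hw, by simp only [if_neg (nT w hw), hw']⟩
      · simp only [if_pos hb]
        refine ⟨(k8 b hb).1, (k8 b hb).2.mono ?_⟩
        rintro w ⟨hw, hw'⟩
        exact ⟨Or.inr hw, by simp only [if_pos hw, hw']⟩

end Pool.Agent.Lib.MP_b893bf_co
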