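import Mathlib

set_option autoImplicit false

namespace Pool.Agent.Lib.MP_b893bf_co

open Set

variable {V R : Type*}

/-- The edges along a list. -/
def edg : List V → Multiset (Sym2 V)
  | a :: b :: l => s(a, b) ::ₘ edg (b :: l)
  | _ => 0

theorem edg_split (A : List V) (p : V) (B : List V) :
    edg (A ++ p :: B) = edg (A ++ [p]) + edg (p :: B) := by
  induction A with
  | nil => simp [edg]
  | cons a A ih =>
    cases A with
    | nil => simp [edg]
    | cons b A =>
      simp only [List.cons_append, edg, Multiset.cons_add] at ih ⊢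
      rw [ih]

theorem edg_reverse (l : List V) : edg l.reverse = edg l := by
  induction l with
  | nil => rfl
  | cons a l ih =>
    cases l with
    | nil => rfl
    | cons b l =>
      have e : (a :: b :: l).reverse = l.reverse ++ b :: [a] := by simp
      rw [e, edg_split, ← List.reverse_cons, ih]
      simp [edg, Sym2.eq_swap, add_comm]

theorem edg_card (a : V) (l : List V) : (edg (a :: l)).card = l.length := by
  induction l generalizing a with
  | nil => rfl
  | cons b l ih => simp [edg, ih]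

theorem mem_of_mem_edg {l : List V} {s : Sym2 V} (h : s ∈ edg l) {a : V} (ha : a ∈ s) : a ∈ l := by
  induction l with
  | nil => simp [edg] at h
  | cons x l ih =>
    cases l with
    | nil => simp [edg] at h
    | cons y l =>
      simp only [edg, Multiset.mem_cons] at h
      rcases h with rfl | h
      · rcases Sym2.mem_iff.1 ha with rfl | rfl <;> simp
      · exact List.mem_cons_of_mem _ (ih h)

theorem edg_nodup {l : List V} (h : l.Nodup) : (edg l).Nodup := by
  induction l with
  | nil => simp [edg]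
  | cons x l ih =>
    cases l with
    | nil => simp [edg]
    | cons y l =>
      rw [List.nodup_cons] at h
      simp only [edg, Multiset.nodup_cons]
      exact ⟨fun h' => h.1 (mem_of_mem_edg h' (Sym2.mem_mk_left _ _)), ih h.2⟩

theorem mem_edg (A : List V) (a b : V) (B : List V) : s(a, b) ∈ edg (A ++ a :: b :: B) := by
  rw [edg_split]
  simp [edg]

open Classical in
/-- The number of straight passings. -/
noncomputable def str (St : V → V → V → Prop) : List V → ℕ
  | a :: b :: c :: l => (if St a b c then 1 else 0) + str St (b :: c :: l)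
  | _ => 0

variable {St : V → V → V → Prop}

open Classical in
theorem str_split (A : List V) (a p c : V) (B : List V) :
    str St (A ++ a :: p :: c :: B) =
      str St (A ++ [a, p]) + (if St a p c then 1 else 0) + str St (p :: c :: B) := by
  induction A with
  | nil => simp [str]
  | cons x A ih =>
    cases A with
    | nil =>
      simp only [List.cons_append, List.nil_append, str] at ih ⊢
      omega
    | cons y A =>
      cases A with
      | nil =>
        simp only [List.cons_append, List.nil_append, str] at ih ⊢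
        omega
      | cons z A =>
        simp only [List.cons_append, str] at ih ⊢
        omega

theorem str_reverse (hs : ∀ a p c, St a p c → St c p a) (l : List V) :
    str St l.reverse = str St l := by
  classical
  induction l with
  | nil => rfl
  | cons a l ih =>
    cases l with
    | nil => rfl
    | cons b l =>
      cases l with
      | nil => rfl
      | cons c l =>
        have e : (a :: b :: c :: l).reverse = l.reverse ++ c :: b :: a :: [] := by simp
        have e' : (b :: c :: l).reverse = l.reverse ++ [c, b] := by simp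
        have e2 : St c b a ↔ St a b c := ⟨hs _ _ _, hs _ _ _⟩
        rw [e, str_split, ← e', ih]
        simp only [str, e2]
        omega

/-- The list passes straight through `x`. -/
def Straight (St : V → V → V → Prop) (l : List V) (x : V) : Prop :=
  ∃ A a c B, l = A ++ a :: x :: c :: B ∧ St a x c

theorem Straight.reverse (hs : ∀ a p c, St a p c → St c p a) {l : List V} {x : V}
    (h : Straight St l x) : Straight St l.reverse x := by
  obtain ⟨A, a, c, B, rfl, h⟩ := h
  exact ⟨B.reverse, c, a, A.reverse, by simp, hs _ _ _ h⟩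

/-- The list passes straight through `p` and later through `q`. -/
def Before (St : V → V → V → Prop) (l : List V) (p q : V) : Prop :=
  ∃ A a c T T' a' c' B, l = A ++ a :: ((p :: c :: T) ++ c' :: B) ∧ p :: c :: T = T' ++ [a', q] ∧
    St a p c ∧ St a' q c'

theorem Before.reverse (hs : ∀ a p c, St a p c → St c p a) {l : List V} {p q : V}
    (h : Before St l p q) : Before St l.reverse q p := by
  obtain ⟨A, a, c, T, T', a', c', B, rfl, h1, h2, h3⟩ := h
  have h4 := congrArg List.reverse h1
  refine ⟨B.reverse, c', a', T'.reverse, T.reverse, c, a, A.reverse, ?_, ?_, hs _ _ _ h3,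
    hs _ _ _ h2⟩
  · rw [h1]
    simp
  · simpa using h4.symm

theorem before_aux {A B B' : List V} {a p c a' q c' : V} (as : List V) (hpq : p ≠ q)
    (h : a :: p :: c :: B = as ++ a' :: q :: c' :: B') (h1 : St a p c) (h2 : St a' q c') :
    Before St (A ++ a :: p :: c :: B) p q := by
  rcases as with _ | ⟨x, _ | ⟨y, _ | ⟨z, as⟩⟩⟩
  · simp at h
    exact (hpq h.2.1).elim
  · simp only [List.cons_append, List.nil_append, List.cons.injEq] at h
    obtain ⟨rfl, rfl, rfl, rfl⟩ := h
    exact ⟨A, a, c, [], [], p, c', B', by simp, by simp, h1, h2⟩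
  · simp only [List.cons_append, List.nil_append, List.cons.injEq] at h
    obtain ⟨rfl, rfl, rfl, rfl⟩ := h
    exact ⟨A, a, c, [q], [p], c, c', B', by simp, by simp, h1, h2⟩
  · simp only [List.cons_append, List.cons.injEq] at h
    obtain ⟨rfl, rfl, rfl, rfl⟩ := h
    exact ⟨A, a, c, as ++ [a', q], p :: c :: as, a', c', B', by simp, by simp, h1, h2⟩

theorem before_or {l : List V} {p q : V} (hpq : p ≠ q) (hp : Straight St l p)
    (hq : Straight St l q) : Before St l p q ∨ Before St l q p := by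
  obtain ⟨A, a, c, B, h1, h2⟩ := hp
  obtain ⟨A', a', c', B', h3, h4⟩ := hq
  rcases List.append_eq_append_iff.1 (h1.symm.trans h3) with ⟨as, -, h⟩ | ⟨as, -, h⟩
  · exact Or.inl (h1 ▸ before_aux as hpq h h2 h4)
  · exact Or.inr (h3 ▸ before_aux as hpq.symm h h4 h2)

/-- A walk from `Q u` to `Q v` through `W`. -/
def Ok (F : SimpleGraph V) (Q : R → Set V) (W : Set V) (u v : R) (l : List V) : Prop :=
  l.IsChain F.Adj ∧ ∃ a M b, l = a :: (M ++ [b]) ∧ a ∈ Q u ∧ b ∈ Q v ∧ ∀ y ∈ M, y ∈ W

variable {F : SimpleGraph V} {Q : R → Set V} {W : Set V}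

theorem Ok.reverse {u v : R} {l : List V} (h : Ok F Q W u v l) : Ok F Q W v u l.reverse := by
  obtain ⟨h1, a, M, b, rfl, h2, h3, h4⟩ := h
  refine ⟨List.isChain_reverse.2 (h1.imp fun _ _ h => h.symm), b, M.reverse, a, by simp, h3, h2,
    by simpa using h4⟩

theorem Ok.split {u v : R} {a p b : V} {A B : List V}
    (h : Ok F Q W u v (a :: A ++ p :: (B ++ [b]))) :
    a ∈ Q u ∧ b ∈ Q v ∧ (∀ y ∈ A, y ∈ W) ∧ p ∈ W ∧ ∀ y ∈ B, y ∈ W := by
  obtain ⟨-, a', M, b', h1, h2, h3, h4⟩ := h
  have h5 : a :: ((A ++ p :: B) ++ [b]) = a' :: (M ++ [b']) := by simpa using h1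
  obtain ⟨rfl, h6⟩ := List.cons.inj h5
  obtain ⟨rfl, h7⟩ := List.append_inj' h6 rfl
  obtain ⟨rfl, -⟩ := List.cons.inj h7
  exact ⟨h2, h3, fun y hy => h4 y (by simp [hy]), h4 p (by simp), fun y hy => h4 y (by simp [hy])⟩

theorem Ok.swap {u v u' v' : R} {p : V} {A B C E : List V} (hA : A ≠ []) (hB : B ≠ [])
    (hC : C ≠ []) (hE : E ≠ []) (h : Ok F Q W u v (A ++ p :: B))
    (h' : Ok F Q W u' v' (C ++ p :: E)) : Ok F Q W u v' (A ++ p :: E) := by
  obtain ⟨a, A, rfl⟩ := List.exists_cons_of_ne_nil hA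
  obtain ⟨c, C, rfl⟩ := List.exists_cons_of_ne_nil hC
  obtain ⟨B, b, rfl⟩ := (List.eq_nil_or_concat B).resolve_left hB
  obtain ⟨E, e, rfl⟩ := (List.eq_nil_or_concat E).resolve_left hE
  simp only [List.concat_eq_append] at h h' ⊢
  obtain ⟨h1, -, h2, h3, -⟩ := h.split
  obtain ⟨-, h4, -, -, h5⟩ := h'.split
  refine ⟨List.isChain_split.2 ⟨(List.isChain_split.1 h.1).1, (List.isChain_split.1 h'.1).2⟩,
    a, A ++ p :: E, e, by simp, h1, h4, ?_⟩
  intro y hy
  simp only [List.mem_append, List.mem_cons] at hy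
  rcases hy with hy | rfl | hy
  · exact h2 y hy
  · exact h3
  · exact h5 y hy

theorem Ok.shorten {u v : R} {l : List V} (h : Ok F Q W u v l) (hu : ∀ x ∈ Q u, x ∉ W)
    (hv : ∀ x ∈ Q v, x ∉ W) (huv : ∀ x ∈ Q u, x ∉ Q v) (hl : ¬ l.Nodup) :
    ∃ l', Ok F Q W u v l' ∧ edg l' < edg l := by
  obtain ⟨h1, a, M, b, rfl, h2, h3, h4⟩ := id h
  have hM : ¬ M.Nodup := by
    intro hM
    apply hl
    rw [List.nodup_cons, List.nodup_append]
    refine ⟨?_, hM, by simp, ?_⟩
    · simp only [List.mem_append, List.mem_singleton, not_or]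
      exact ⟨fun h => hu a h2 (h4 a h), fun h => huv a h2 (h ▸ h3)⟩
    · intro x hx y hy e
      rw [List.mem_singleton.1 hy] at e
      exact hv b h3 (e ▸ h4 x hx)
  obtain ⟨x, hx⟩ := List.exists_duplicate_iff_not_nodup.2 hM
  rw [List.duplicate_iff_sublist] at hx
  obtain ⟨r1, r2, rfl, k1, k2⟩ := List.cons_sublist_iff.1 hx
  obtain ⟨A, B, rfl⟩ := List.append_of_mem k1
  obtain ⟨C, E, rfl⟩ := List.append_of_mem (List.singleton_sublist.1 k2)
  have e1 : a :: (A ++ x :: B ++ (C ++ x :: E) ++ [b]) =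
      (a :: A) ++ x :: (B ++ C ++ x :: (E ++ [b])) := by simp
  have e2 : a :: (A ++ x :: B ++ (C ++ x :: E) ++ [b]) =
      (a :: (A ++ x :: (B ++ C))) ++ x :: (E ++ [b]) := by simp
  refine ⟨(a :: A) ++ x :: (E ++ [b]),
    Ok.swap (by simp) (by simp) (by simp) (by simp) (e1 ▸ h) (e2 ▸ h), ?_⟩
  have k3 : edg (x :: (B ++ C ++ x :: (E ++ [b]))) =
      edg (x :: (B ++ C ++ [x])) + edg (x :: (E ++ [b])) := edg_split (x :: (B ++ C)) x (E ++ [b])
  rw [e1, edg_split (a :: A) x (E ++ [b]), edg_split (a :: A) x (B ++ C ++ x :: (E ++ [b])), k3,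
    add_lt_add_iff_left, lt_add_iff_pos_left, pos_iff_ne_zero, ← Multiset.card_pos, edg_card]
  simp

open Classical in
theorem swap_one (hf : ∀ a p c c', St a p c → St a p c' → c = c') {u v v' : R} {l l' : List V} {p : V}
    (h : Ok F Q W u v l) (h' : Ok F Q W u v' l') (hp : Straight St l p) (hp' : Straight St l' p)
    (hn : (edg l + edg l').Nodup) :
    ∃ m m', Ok F Q W u v m ∧ Ok F Q W u v' m' ∧ edg m + edg m' = edg l + edg l' ∧
      str St m + str St m' < str St l + str St l' := by
  obtain ⟨A, a, c, B, rfl, h1⟩ := hp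
  obtain ⟨A', a', c', B', rfl, h2⟩ := hp'
  have hc : c ≠ c' := by
    rintro rfl
    have k1 := mem_edg (A ++ [a]) p c B
    have k2 := mem_edg (A' ++ [a']) p c B'
    simp only [List.append_assoc, List.singleton_append] at k1 k2
    exact Multiset.disjoint_left.1 (Multiset.nodup_add.1 hn).2.2 k1 k2
  have e : ∀ (A B : List V) (a c : V), A ++ a :: p :: c :: B = (A ++ [a]) ++ p :: c :: B := by simp
  refine ⟨A' ++ a' :: p :: c :: B, A ++ a :: p :: c' :: B', ?_, ?_, ?_, ?_⟩
  · rw [e] at h h' ⊢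
    exact Ok.swap (by simp) (by simp) (by simp) (by simp) h' h
  · rw [e] at h h' ⊢
    exact Ok.swap (by simp) (by simp) (by simp) (by simp) h h'
  · simp only [e]
    rw [edg_split _ p (c :: B), edg_split _ p (c' :: B'), edg_split (A ++ [a]) p (c :: B),
      edg_split (A' ++ [a']) p (c' :: B')]
    abel
  · simp only [str_split, if_pos h1, if_pos h2, if_neg fun h => hc (hf _ _ _ _ h1 h),
      if_neg fun h => hc (hf _ _ _ _ h h2)]
    omega

open Classical in
theorem str_two {A T T' B : List V} {a p c a' q c' : V} (h : p :: c :: T = T' ++ [a', q]) :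
    str St (A ++ a :: ((p :: c :: T) ++ c' :: B)) = str St (A ++ [a, p]) +
      (if St a p c then 1 else 0) + str St (p :: c :: T) + (if St a' q c' then 1 else 0) +
        str St (q :: c' :: B) := by
  have e : p :: c :: (T ++ c' :: B) = T' ++ a' :: q :: c' :: B := by
    have := congrArg (· ++ c' :: B) h
    simpa using this
  have := str_split (St := St) A a p c (T ++ c' :: B)
  rw [e, str_split, ← h] at this
  simp only [List.cons_append]
  rw [e, this]
  omega

theorem edg_two {A T T' B : List V} {a p c a' q c' : V} (h : p :: c :: T = T' ++ [a', q]) :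
    edg (A ++ a :: ((p :: c :: T) ++ c' :: B)) = edg (A ++ [a, p]) + edg (p :: c :: T) +
      edg (q :: c' :: B) := by
  have e : p :: c :: (T ++ c' :: B) = (T' ++ [a']) ++ q :: c' :: B := by
    have := congrArg (· ++ c' :: B) h
    simpa using this
  have e1 : A ++ a :: ((p :: c :: T) ++ c' :: B) = (A ++ [a]) ++ p :: c :: (T ++ c' :: B) := by simp
  rw [e1, edg_split, e, edg_split (T' ++ [a']) q, h]
  simp [add_assoc]

theorem ok_two {u v u' v' : R} {A T T' B A2 T2 T2' B2 : List V} {a p c a' q c' a2 c2 a2' c2' : V}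
    (h : p :: c :: T = T' ++ [a', q]) (h2 : p :: c2 :: T2 = T2' ++ [a2', q])
    (k : Ok F Q W u v (A ++ a :: ((p :: c :: T) ++ c' :: B)))
    (k2 : Ok F Q W u' v' (A2 ++ a2 :: ((p :: c2 :: T2) ++ c2' :: B2))) :
    Ok F Q W u v (A ++ a :: ((p :: c2 :: T2) ++ c' :: B)) := by
  have e1 : ∀ (A B T : List V) (a c c' : V), A ++ a :: ((p :: c :: T) ++ c' :: B) =
      (A ++ [a]) ++ p :: c :: (T ++ c' :: B) := by simp
  have e2 : ∀ (A B T : List V) (a a' c' : V), A ++ a :: ((T ++ [a', q]) ++ c' :: B) =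
      (A ++ a :: (T ++ [a'])) ++ q :: c' :: B := by simp
  have k3 : Ok F Q W u v' (A ++ a :: ((p :: c2 :: T2) ++ c2' :: B2)) := by
    rw [e1] at k k2 ⊢
    exact Ok.swap (by simp) (by simp) (by simp) (by simp) k k2
  rw [h, e2] at k
  rw [h2, e2] at k3 ⊢
  exact Ok.swap (by simp) (by simp) (by simp) (by simp) k3 k

open Classical in
theorem swap_two (hf : ∀ a p c c', St a p c → St a p c' → c = c') {u v u' v' : R} {l l' : List V}
    {p q : V} (h : Ok F Q W u v l) (h' : Ok F Q W u' v' l') (hp : Before St l p q)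
    (hp' : Before St l' p q) (hn : (edg l + edg l').Nodup) :
    ∃ m m', Ok F Q W u v m ∧ Ok F Q W u' v' m' ∧ edg m + edg m' = edg l + edg l' ∧
      str St m + str St m' < str St l + str St l' := by
  obtain ⟨A, a, c, T, T', a', c', B, rfl, h1, h2, h3⟩ := hp
  obtain ⟨A2, a2, c2, T2, T2', a2', c2', B2, rfl, k1, k2, k3⟩ := hp'
  have hc : c ≠ c2 := by
    rintro rfl
    have j1 := mem_edg (A ++ [a]) p c (T ++ c' :: B)
    have j2 := mem_edg (A2 ++ [a2]) p c (T2 ++ c2' :: B2)
    simp only [List.append_assoc, List.singleton_append] at j1 j2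
    exact Multiset.disjoint_left.1 (Multiset.nodup_add.1 hn).2.2 j1 j2
  refine ⟨_, _, ok_two h1 k1 h h', ok_two k1 h1 h' h, ?_, ?_⟩
  · rw [edg_two h1, edg_two h1, edg_two k1, edg_two k1]
    abel
  · rw [str_two h1, str_two h1, str_two k1, str_two k1]
    simp only [if_pos h2, if_pos h3, if_pos k2, if_pos k3, if_neg fun h => hc (hf _ _ _ _ h2 h),
      if_neg fun h => hc (hf _ _ _ _ h k2)]
    split_ifs <;> omega

/-- A route for the pair `e`. -/
def Valid (F : SimpleGraph V) (Q : R → Set V) (W : Set V) (e : Sym2 R) (l : List V) : Prop :=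
  ∃ u v, e = s(u, v) ∧ Ok F Q W u v l

theorem Valid.orient {e : Sym2 R} {l : List V} (h : Valid F Q W e l) {w : R} (hw : w ∈ e) :
    ∃ v l', e = s(w, v) ∧ Ok F Q W w v l' ∧ (l' = l ∨ l' = l.reverse) := by
  obtain ⟨u, v, rfl, h⟩ := h
  rcases Sym2.mem_iff.1 hw with rfl | rfl
  · exact ⟨v, l, rfl, h, Or.inl rfl⟩
  · exact ⟨u, l.reverse, Sym2.eq_swap, h.reverse, Or.inr rfl⟩

theorem Valid.reverse {e : Sym2 R} {l : List V} (h : Valid F Q W e l) :
    Valid F Q W e l.reverse := by
  obtain ⟨u, v, rfl, h⟩ := h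
  exact ⟨v, u, Sym2.eq_swap, h.reverse⟩

theorem sum_two {E M : Type*} [Fintype E] [DecidableEq E] [AddCommMonoid M] (φ : E → M) {e f : E}
    (h : e ≠ f) : ∑ x, φ x = φ e + φ f + ∑ x ∈ (Finset.univ.erase e).erase f, φ x := by
  rw [add_assoc, Finset.add_sum_erase _ _ (Finset.mem_erase.2 ⟨h.symm, Finset.mem_univ f⟩),
    Finset.add_sum_erase _ _ (Finset.mem_univ e)]

theorem uncross {E : Type*} [Fintype E] (ends : E → Sym2 R)
    (hs : ∀ a p c, St a p c → St c p a) (hf : ∀ a p c c', St a p c → St a p c' → c = c')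
    (hW : ∀ u, ∀ x ∈ Q u, x ∉ W) (hQ : ∀ u v, u ≠ v → ∀ x ∈ Q u, x ∉ Q v)
    (hd : ∀ e, ¬ (ends e).IsDiag) (P0 : E → List V) (h0 : ∀ e, Valid F Q W (ends e) (P0 e))
    (hn : (∑ e, edg (P0 e)).Nodup) :
    ∃ P : E → List V, (∀ e, Valid F Q W (ends e) (P e) ∧ (P e).Nodup) ∧
      ∑ e, edg (P e) ≤ ∑ e, edg (P0 e) ∧
      (∀ e f, e ≠ f → ∀ p q, Straight St (P e) p → Straight St (P f) p → Straight St (P e) q →
        Straight St (P f) q → p = q) ∧
      ∀ e f, e ≠ f → (∃ w, w ∈ ends e ∧ w ∈ ends f) → ∀ p, Straight St (P e) p →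
        ¬ Straight St (P f) p := by
  classical
  let S : Set (E → List V) :=
    {P | (∀ e, Valid F Q W (ends e) (P e)) ∧ ∑ e, edg (P e) ≤ ∑ e, edg (P0 e)}
  let μ : (E → List V) → ℕ ×ₗ ℕ := fun P => toLex ((∑ e, edg (P e)).card, ∑ e, str St (P e))
  have hS : S.Nonempty := ⟨P0, h0, le_rfl⟩
  obtain ⟨hP1, hP2⟩ := Function.argminOn_mem μ S hS
  have hmin : ∀ P ∈ S, ¬ μ P < μ (Function.argminOn μ S hS) := fun P hP =>
    Function.not_lt_argminOn μ S hP
  set P := Function.argminOn μ S hS
  have nd : (∑ e, edg (P e)).Nodup := Multiset.nodup_of_le hP2 hn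
  have key : ∀ e f, e ≠ f → ∀ l l', (l = P e ∨ l = (P e).reverse) →
      (l' = P f ∨ l' = (P f).reverse) → (edg l + edg l').Nodup ∧ ∀ m m', Valid F Q W (ends e) m →
      Valid F Q W (ends f) m' → edg m + edg m' = edg l + edg l' →
      ¬ str St m + str St m' < str St l + str St l' := by
    intro e f hef l l' hl hl'
    have e1 : edg l = edg (P e) ∧ str St l = str St (P e) := by
      rcases hl with rfl | rfl
      · exact ⟨rfl, rfl⟩
      · exact ⟨edg_reverse _, str_reverse hs _⟩
    have e2 : edg l' = edg (P f) ∧ str St l' = str St (P f) := by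
      rcases hl' with rfl | rfl
      · exact ⟨rfl, rfl⟩
      · exact ⟨edg_reverse _, str_reverse hs _⟩
    rw [e1.1, e1.2, e2.1, e2.2]
    refine ⟨?_, fun m m' hm hm' h1 h2 => ?_⟩
    · rw [sum_two _ hef] at nd
      exact (Multiset.nodup_add.1 nd).1
    let P' : E → List V := fun x => if x = e then m else if x = f then m' else P x
    have p1 : P' e = m := if_pos rfl
    have p2 : P' f = m' := by simp only [P', if_neg hef.symm, if_true]
    have p3 : ∀ x ∈ (Finset.univ.erase e).erase f, P' x = P x := by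
      intro x hx
      simp only [Finset.mem_erase] at hx
      simp only [P', if_neg hx.1, if_neg hx.2.1]
    have q1 : ∑ x, edg (P' x) = ∑ x, edg (P x) := by
      rw [sum_two _ hef, sum_two (fun x => edg (P x)) hef, p1, p2, h1,
        Finset.sum_congr rfl fun x hx => by rw [p3 x hx]]
    have q2 : ∑ x, str St (P' x) < ∑ x, str St (P x) := by
      rw [sum_two _ hef, sum_two (fun x => str St (P x)) hef, p1, p2,
        Finset.sum_congr rfl fun x hx => by rw [p3 x hx]]
      omega
    refine hmin P' ⟨fun x => ?_, q1 ▸ hP2⟩ ?_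
    · simp only [P']
      split_ifs with h3 h4
      · rwa [h3]
      · rwa [h4]
      · exact hP1 x
    · simp only [μ, Prod.Lex.toLex_lt_toLex]
      exact Or.inr ⟨by rw [q1], q2⟩
  refine ⟨P, fun e => ⟨hP1 e, ?_⟩, hP2, ?_, ?_⟩
  · by_contra hne
    obtain ⟨u, v, h1, h2⟩ := hP1 e
    have huv : u ≠ v := fun h => hd e (by rw [h1, h]; exact Sym2.mk_isDiag_iff.2 rfl)
    obtain ⟨l', h3, h4⟩ := h2.shorten (hW u) (hW v) (hQ u v huv) hne
    have q1 : ∑ x, edg (Function.update P e l' x) < ∑ x, edg (P x) := by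
      rw [← Finset.add_sum_erase _ _ (Finset.mem_univ e),
        ← Finset.add_sum_erase _ (fun x => edg (P x)) (Finset.mem_univ e), Function.update_self,
        Finset.sum_congr rfl fun x hx => by
          rw [Function.update_of_ne (Finset.mem_erase.1 hx).1]]
      exact add_lt_add_left h4 _
    refine hmin (Function.update P e l') ⟨fun x => ?_, q1.le.trans hP2⟩ ?_
    · by_cases hx : x = e
      · rw [hx, Function.update_self]
        exact ⟨u, v, h1, h3⟩
      · rw [Function.update_of_ne hx]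
        exact hP1 x
    · simp only [μ, Prod.Lex.toLex_lt_toLex]
      exact Or.inl (Multiset.card_lt_card q1)
  · intro e f hef p q h1 h2 h3 h4
    by_contra hpq
    have a1 : ∃ l, (l = P e ∨ l = (P e).reverse) ∧ Before St l p q := by
      rcases before_or hpq h1 h3 with h | h
      · exact ⟨_, Or.inl rfl, h⟩
      · exact ⟨_, Or.inr rfl, h.reverse hs⟩
    have a2 : ∃ l, (l = P f ∨ l = (P f).reverse) ∧ Before St l p q := by
      rcases before_or hpq h2 h4 with h | h
      · exact ⟨_, Or.inl rfl, h⟩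
      · exact ⟨_, Or.inr rfl, h.reverse hs⟩
    obtain ⟨l, hl, bl⟩ := a1
    obtain ⟨l', hl', bl'⟩ := a2
    obtain ⟨u, v, e1, o1⟩ : Valid F Q W (ends e) l := by
      rcases hl with rfl | rfl
      · exact hP1 e
      · exact (hP1 e).reverse
    obtain ⟨u', v', e2, o2⟩ : Valid F Q W (ends f) l' := by
      rcases hl' with rfl | rfl
      · exact hP1 f
      · exact (hP1 f).reverse
    obtain ⟨k1, k2⟩ := key e f hef l l' hl hl'
    obtain ⟨m, m', j1, j2, j3, j4⟩ := swap_two hf o1 o2 bl bl' k1
    exact k2 m m' ⟨u, v, e1, j1⟩ ⟨u', v', e2, j2⟩ j3 j4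
  · rintro e f hef ⟨w, hw, hw'⟩ p h1 h2
    obtain ⟨v, l, e1, o1, hl⟩ := (hP1 e).orient hw
    obtain ⟨v', l', e2, o2, hl'⟩ := (hP1 f).orient hw'
    obtain ⟨k1, k2⟩ := key e f hef l l' hl hl'
    have s1 : Straight St l p := by
      rcases hl with rfl | rfl
      · exact h1
      · exact h1.reverse hs
    have s2 : Straight St l' p := by
      rcases hl' with rfl | rfl
      · exact h2
      · exact h2.reverse hs
    obtain ⟨m, m', j1, j2, j3, j4⟩ := swap_one hf o1 o2 s1 s2 k1
    exact k2 m m' ⟨w, v, e1, j1⟩ ⟨w, v', e2, j2⟩ j3 j4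

end Pool.Agent.Lib.MP_b893bf_co
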