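import Pool.Agent.Lib.MP_b893bf_co.Main

set_option autoImplicit false

namespace Pool.Agent.Lib.MP_b893bf_co

open Set

theorem pass_unique {V : Type*} {A B A' B' : List V} {a x b a' b' : V}
    (hn : (A ++ a :: x :: b :: B).Nodup) (h : A ++ a :: x :: b :: B = A' ++ a' :: x :: b' :: B') :
    a = a' ∧ b = b' := by
  have h1 : (A ++ [a]) ++ x :: b :: B = (A' ++ [a']) ++ x :: b' :: B' := by simpa using h
  have h2 : ((A ++ [a]) ++ x :: b :: B).Nodup := by simpa using hn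
  have h3 := List.nodup_append.1 h2
  have h4 := (List.append_cons_inj_of_notMem (fun hx => h3.2.2 x hx x (by simp) rfl)
    (List.nodup_cons.1 h3.2.1).1).1 h1
  exact ⟨by simpa using (List.append_inj' h4.1 rfl).2, (List.cons.inj h4.2.2).1⟩

/-- Near `z` the set is the horizontal line through `z`. -/
def Hor (S : Set (ℝ × ℝ)) (z : ℝ × ℝ) : Prop :=
  ∃ r > 0, ∀ w ∈ Metric.ball z r, (w ∈ S ↔ w.2 = z.2)

/-- Near `z` the set is the vertical line through `z`. -/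
def Ver (S : Set (ℝ × ℝ)) (z : ℝ × ℝ) : Prop :=
  ∃ r > 0, ∀ w ∈ Metric.ball z r, (w ∈ S ↔ w.1 = z.1)

theorem Hor.not_ver {S : Set (ℝ × ℝ)} {z : ℝ × ℝ} (h : Hor S z) : ¬ Ver S z := by
  rintro ⟨r', hr', h'⟩
  obtain ⟨r, hr, h⟩ := h
  have hm : 0 < min r r' := lt_min hr hr'
  have hd : dist ((z.1 + min r r' / 2, z.2) : ℝ × ℝ) z < min r r' := by
    rw [Prod.dist_eq, max_lt_iff, dist_self, Real.dist_eq, add_sub_cancel_left,
      abs_of_pos (half_pos hm)]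
    exact ⟨half_lt_self hm, hm⟩
  have := (h' _ (hd.trans_le (min_le_right _ _))).1 ((h _ (hd.trans_le (min_le_left _ _))).2 rfl)
  simp only at this
  linarith

theorem ins_ball {x : ℤ × ℤ} {w : ℝ × ℝ} (h : w ∈ Metric.ball (mid x x) 1) : Ins {x} w := by
  have key : ∀ (x y : ℤ) (z : ℝ), |z - (x + x)| < 1 → 2 * (y : ℝ) - 1 ≤ z →
      z ≤ 2 * y + 1 → y = x := by
    intro x y z h1 h3 h4
    rw [abs_lt] at h1
    have k1 : (x : ℝ) < y + 1 := by linarith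
    have k2 : (y : ℝ) < x + 1 := by linarith
    have k3 : x < y + 1 := by exact_mod_cast k1
    have k4 : y < x + 1 := by exact_mod_cast k2
    omega
  rw [Metric.mem_ball, Prod.dist_eq, max_lt_iff, Real.dist_eq, Real.dist_eq] at h
  rintro y ⟨w1, w2, w3, w4⟩
  exact Prod.ext (key _ _ _ h.1 w1 w2) (key _ _ _ h.2 w3 w4)

theorem cover_line {g : ℝ → ℝ} (hg : Continuous g) {a t b : ℝ} (h1 : a < t) (h2 : t < b)
    (hi : InjOn g (Icc a b)) : ∃ r > 0, ∀ y, |y - g t| < r → ∃ s ∈ Icc a b, g s = y := by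
  have ma : a ∈ Icc a b := ⟨le_rfl, (h1.trans h2).le⟩
  have mb : b ∈ Icc a b := ⟨(h1.trans h2).le, le_rfl⟩
  have mt : t ∈ Icc a b := ⟨h1.le, h2.le⟩
  rcases hg.continuousOn.strictMonoOn_of_injOn_Icc' (h1.trans h2).le hi with h | h
  · have k1 := h ma mt h1
    have k2 := h mt mb h2
    refine ⟨min (g t - g a) (g b - g t), lt_min (by linarith) (by linarith), fun y hy => ?_⟩
    rw [lt_min_iff, abs_lt, abs_lt] at hy
    exact intermediate_value_Icc (h1.trans h2).le hg.continuousOn ⟨by linarith, by linarith⟩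
  · have k1 := h ma mt h1
    have k2 := h mt mb h2
    refine ⟨min (g a - g t) (g t - g b), lt_min (by linarith) (by linarith), fun y hy => ?_⟩
    rw [lt_min_iff, abs_lt, abs_lt] at hy
    exact intermediate_value_Icc' (h1.trans h2).le hg.continuousOn ⟨by linarith, by linarith⟩

theorem hor_arc {γ : ℝ → ℝ × ℝ} (hc : Continuous γ) (hi : InjOn γ (Icc 0 1)) {z : ℝ × ℝ}
    (hz : z ∈ γ '' Ioo 0 1) (h : ∀ t ∈ Icc (0 : ℝ) 1, γ t ∈ Metric.ball z 1 → (γ t).2 = z.2) :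
    Hor (γ '' Icc 0 1) z := by
  obtain ⟨t, ht, rfl⟩ := hz
  have h1 : Ioo 0 1 ∩ γ ⁻¹' Metric.ball (γ t) 1 ∈ nhds t :=
    Filter.inter_mem (isOpen_Ioo.mem_nhds ht)
      (hc.continuousAt.preimage_mem_nhds (Metric.ball_mem_nhds _ one_pos))
  obtain ⟨a, b, -, h2, h3⟩ := exists_Icc_mem_subset_of_mem_nhds h1
  have h4 := Icc_mem_nhds_iff.1 h2
  have sub : Icc a b ⊆ Icc 0 1 := fun s hs => Ioo_subset_Icc_self (h3 hs).1
  obtain ⟨r, hr, h5⟩ := cover_line (g := fun s => (γ s).1) hc.fst h4.1 h4.2 fun s hs s' hs' e =>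
    hi (sub hs) (sub hs') (Prod.ext e
      ((h s (sub hs) (h3 hs).2).trans (h s' (sub hs') (h3 hs').2).symm))
  refine ⟨min r 1, lt_min hr one_pos, fun w hw => ⟨?_, fun e => ?_⟩⟩
  · rintro ⟨s, hs, rfl⟩
    exact h s hs (Metric.ball_subset_ball (min_le_right _ _) hw)
  · rw [Metric.mem_ball, Prod.dist_eq, max_lt_iff, Real.dist_eq, lt_min_iff] at hw
    obtain ⟨s, hs, e'⟩ := h5 w.1 hw.1.1
    exact ⟨s, sub hs, Prod.ext e' ((h s (sub hs) (h3 hs).2).trans e.symm)⟩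

theorem ver_arc {γ : ℝ → ℝ × ℝ} (hc : Continuous γ) (hi : InjOn γ (Icc 0 1)) {z : ℝ × ℝ}
    (hz : z ∈ γ '' Ioo 0 1) (h : ∀ t ∈ Icc (0 : ℝ) 1, γ t ∈ Metric.ball z 1 → (γ t).1 = z.1) :
    Ver (γ '' Icc 0 1) z := by
  have hd : ∀ p q : ℝ × ℝ, dist p.swap q.swap = dist p q := fun p q => by
    simp only [Prod.dist_eq, Prod.fst_swap, Prod.snd_swap, max_comm]
  obtain ⟨r, hr, h1⟩ := hor_arc (γ := fun t => (γ t).swap) (z := z.swap)
    (continuous_swap.comp hc) (fun s hs s' hs' e => hi hs hs' (Prod.swap_injective e))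
    (by obtain ⟨t, ht, rfl⟩ := hz; exact ⟨t, ht, rfl⟩)
    fun t ht hb => h t ht (by rwa [Metric.mem_ball, hd] at hb)
  refine ⟨r, hr, fun w hw => ?_⟩
  have := h1 w.swap (by rwa [Metric.mem_ball, hd])
  refine Iff.trans ⟨?_, ?_⟩ this
  · rintro ⟨s, hs, rfl⟩
    exact ⟨s, hs, rfl⟩
  · rintro ⟨s, hs, e⟩
    exact ⟨s, hs, Prod.swap_injective e⟩

theorem hor_of_line {γ : ℝ → ℝ × ℝ} (hc : Continuous γ) (hi : InjOn γ (Icc 0 1))
    {a x b : ℤ × ℤ} (hz : mid x x ∈ γ '' Ioo 0 1) (ha : a.2 = x.2) (hb : b.2 = x.2)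
    (h : ∀ t ∈ Icc (0 : ℝ) 1, Ins {x} (γ t) →
      ∃ τ : ℝ, γ t = AffineMap.lineMap (mid a x) (mid x b) τ) :
    Hor (γ '' Icc 0 1) (mid x x) := by
  refine hor_arc hc hi hz fun t ht h' => ?_
  obtain ⟨τ, e⟩ := h t ht (ins_ball h')
  rw [e, line_snd]
  simp only [mid, ha, hb]
  ring

theorem ver_of_line {γ : ℝ → ℝ × ℝ} (hc : Continuous γ) (hi : InjOn γ (Icc 0 1))
    {a x b : ℤ × ℤ} (hz : mid x x ∈ γ '' Ioo 0 1) (ha : a.1 = x.1) (hb : b.1 = x.1)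
    (h : ∀ t ∈ Icc (0 : ℝ) 1, Ins {x} (γ t) →
      ∃ τ : ℝ, γ t = AffineMap.lineMap (mid a x) (mid x b) τ) :
    Ver (γ '' Icc 0 1) (mid x x) := by
  refine ver_arc hc hi hz fun t ht h' => ?_
  obtain ⟨τ, e⟩ := h t ht (ins_ball h')
  rw [e, line_fst]
  simp only [mid, ha, hb]
  ring

theorem dir_cases {a b a' b' x : ℤ × ℤ} (h1 : grid.Adj a x) (h2 : grid.Adj a' x) (h3 : St a x b)
    (h4 : St a' x b') (n1 : a ≠ a') (n2 : a ≠ b') :
    (a.2 = x.2 ∧ b.2 = x.2 ∧ a'.1 = x.1 ∧ b'.1 = x.1) ∨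
      (a'.2 = x.2 ∧ b'.2 = x.2 ∧ a.1 = x.1 ∧ b.1 = x.1) := by
  obtain ⟨a1, a2⟩ := a
  obtain ⟨b1, b2⟩ := b
  obtain ⟨c1, c2⟩ := a'
  obtain ⟨d1, d2⟩ := b'
  obtain ⟨x1, x2⟩ := x
  simp only [grid, St, Prod.mk_add_mk, Prod.mk.injEq, ne_eq] at *
  omega

section
variable {R : Type*} {Q : R → Set (ℤ × ℤ)} {W : Set (ℤ × ℤ)}

theorem realizeT {E : Type*} (ends : E → Sym2 R) (rect : ∀ u, IsRect (Q u))
    (ne : ∀ u, (Q u).Nonempty) (hW : ∀ u, ∀ x ∈ Q u, x ∉ W)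
    (hQ : ∀ u v, u ≠ v → ∀ x ∈ Q u, x ∉ Q v) (hd : ∀ e, ¬ (ends e).IsDiag)
    (P : E → List (ℤ × ℤ)) (hP : ∀ e, Valid grid Q W (ends e) (P e) ∧ (P e).Nodup)
    (dj : ∀ e f, e ≠ f → ∀ s ∈ edg (P e), s ∉ edg (P f)) :
    ∃ (pos : R → ℝ × ℝ) (arc : E → ℝ → ℝ × ℝ), Function.Injective pos ∧
      (∀ e, Continuous (arc e) ∧ InjOn (arc e) (Icc 0 1) ∧
        (∃ u v, ends e = s(u, v) ∧ arc e 0 = pos u ∧ arc e 1 = pos v) ∧
        ∀ w, ∀ t ∈ Ioo (0 : ℝ) 1, arc e t ≠ pos w) ∧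
      (∀ e A a x b B, P e = A ++ a :: x :: b :: B → ∀ t ∈ Icc (0 : ℝ) 1, Ins {x} (arc e t) →
        ∃ τ : ℝ, arc e t = AffineMap.lineMap (mid a x) (mid x b) τ) ∧
      ∀ e f, e ≠ f → ∀ z ∈ arc e '' Ioo 0 1 ∩ arc f '' Ioo 0 1,
        ∃ x, z = mid x x ∧ Straight St (P e) x ∧ Straight St (P f) x := by
  choose c hc using ne
  have hP1 := fun e => (hP e).1
  choose u v huv hok using hP1
  have hne : ∀ e, u e ≠ v e := fun e h => hd e (by rw [huv, h]; exact Sym2.mk_isDiag_iff.2 rfl)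
  have ha := fun e => route_arc rect hc hW hQ (hne e) (hok e) (hP e).2
  choose arc h1 h2 h3 h4 h5 using ha
  have ch := fun e => (hok e).1
  have cls : ∀ e, ∀ t ∈ Ioo (0 : ℝ) 1,
      (∃ w, Rad (mid (c w) (c w)) (Q w) (P e) (arc e t) ∧ arc e t ≠ mid (c w) (c w)) ∨
        KM (P e) (arc e t) ∨ KC (P e) (arc e t) := by
    intro e t ht
    have ht' := Ioo_subset_Icc_self ht
    rcases h5 e ht' with h | h | h
    · exact Or.inl ⟨_, h, fun e' => ht.1.ne' (h2 e ht' (by simp) (e'.trans (h3 e).symm))⟩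
    · exact Or.inl ⟨_, h, fun e' => ht.2.ne (h2 e ht' (by simp) (e'.trans (h4 e).symm))⟩
    · exact Or.inr h
  have vm : ∀ w e z, Ins (Q w) z → KM (P e) z → False := by
    rintro w e z h ⟨y, y', k1, rfl⟩
    have := h.mid (adj_of_mem_edg (ch e) k1)
    exact (hok e).not_both hW hQ (hne e) k1 this.1 this.2
  have vc : ∀ w e z, Ins (Q w) z → KC (P e) z → False := by
    intro w e z h hz
    obtain ⟨A, y, B, k1, k2, k3, k⟩ := hz.ins (ch e) (hP e).2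
    obtain ⟨x, k4, rfl⟩ := h.meet k
    exact hW w x k4 (Ok.mid_mem (k1 ▸ hok e) k2 k3)
  have mc : ∀ e f z, KM (P e) z → KC (P f) z → False := by
    rintro e f z ⟨y, y', k1, rfl⟩ hz
    obtain ⟨A, x, B, -, -, -, k⟩ := hz.ins (ch f) (hP f).2
    exact not_ins_single (adj_of_mem_edg (ch e) k1) k
  have vv : ∀ w w' z, Ins (Q w) z → Ins (Q w') z → w = w' := by
    intro w w' z h h'
    obtain ⟨y, k1, k2⟩ := h.meet h'
    by_contra hne
    exact hQ w w' hne y k1 k2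
  refine ⟨fun w => mid (c w) (c w), arc, fun w w' e => ?_,
    fun e => ⟨h1 e, h2 e, ⟨u e, v e, huv e, h3 e, h4 e⟩, fun w t ht e' => ?_⟩, ?_, ?_⟩
  · exact vv w w' _ ((rect w).ins_self (hc w)) (by
      rw [show mid (c w) (c w) = mid (c w') (c w') from e]
      exact (rect w').ins_self (hc w'))
  · have k0 : Ins (Q w) (arc e t) := e' ▸ (rect w).ins_self (hc w)
    rcases cls e t ht with ⟨w', k1, k2⟩ | k | k
    · rw [vv w w' _ k0 (k1.ins (rect w') (hc w') (ch e))] at e'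
      exact k2 e'
    · exact vm w e _ k0 k
    · exact vc w e _ k0 k
  · intro e A a x b B hl t ht hx
    have xW : x ∈ W := Ok.mid_mem (A := A ++ [a]) (B := b :: B)
      (by simpa only [hl, List.append_assoc, List.singleton_append] using hok e) (by simp) (by simp)
    rcases h5 e ht with h | h | h | h
    · obtain ⟨y, k1, k2⟩ := hx.meet (h.ins (rect _) (hc _) (ch e))
      exact (hW _ y k2 (k1 ▸ xW)).elim
    · obtain ⟨y, k1, k2⟩ := hx.meet (h.ins (rect _) (hc _) (ch e))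
      exact (hW _ y k2 (k1 ▸ xW)).elim
    · obtain ⟨y, y', k1, k2⟩ := h
      exact (not_ins_single (adj_of_mem_edg (ch e) k1) (k2 ▸ hx)).elim
    · obtain ⟨A', a', x', b', B', k1, τ, hτ, k2⟩ := h
      obtain ⟨j1, j2, j3⟩ := pass_facts (k1 ▸ ch e) (k1 ▸ (hP e).2)
      obtain ⟨w, rfl, rfl⟩ := hx.meet (k2 ▸ ins_cell j1 j2 j3 hτ : Ins {x'} (arc e t))
      obtain ⟨rfl, rfl⟩ := pass_unique (hl ▸ (hP e).2) (hl.symm.trans k1)
      exact ⟨τ, k2⟩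
  · rintro e f hef z ⟨⟨s, hs, rfl⟩, t, ht, e'⟩
    have c2 := cls f t ht
    rw [e'] at c2
    rcases cls e s hs with ⟨w, k1, k2⟩ | k | k
    · exfalso
      have k0 := k1.ins (rect w) (hc w) (ch e)
      rcases c2 with ⟨w', j1, j2⟩ | j | j
      · obtain rfl := vv w w' _ k0 (j1.ins (rect w') (hc w') (ch f))
        obtain ⟨y, y', a1, a2, a3, p, hp, a4⟩ := k1
        obtain ⟨x, x', b1, b2, b3, q, hq, b4⟩ := j1
        have ay := adj_of_mem_edg (ch e) a1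
        have ax := adj_of_mem_edg (ch f) b1
        have p0 : 0 < p := hp.1.lt_of_ne (by rintro rfl; exact k2 (by simpa using a4))
        have q0 : 0 < q := hq.1.lt_of_ne (by rintro rfl; exact k2 (by simpa using b4))
        have em : mid y y' = mid x x' := by
          rcases le_total p q with h | h
          · exact rad_unique (fun t ht => (rect w).ins (hc w) a2 (Or.inl ay.symm) ht)
              (fun h => b3 (h.mid ax).2) hp.1 h q0 (a4.symm.trans b4)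
          · exact (rad_unique (fun t ht => (rect w).ins (hc w) b2 (Or.inl ax.symm) ht)
              (fun h => a3 (h.mid ay).2) hq.1 h p0 (b4.symm.trans a4)).symm
        exact dj e f hef _ a1 (mid_inj ay ax em ▸ b1)
      · exact vm w f _ k0 j
      · exact vc w f _ k0 j
    · exfalso
      rcases c2 with ⟨w', j1, -⟩ | j | j
      · exact vm w' e _ (j1.ins (rect w') (hc w') (ch f)) k
      · obtain ⟨y, y', a1, a2⟩ := k
        obtain ⟨x, x', b1, b2⟩ := j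
        exact dj e f hef _ a1 (mid_inj (adj_of_mem_edg (ch e) a1) (adj_of_mem_edg (ch f) b1)
          (a2.symm.trans b2) ▸ b1)
      · exact mc e f _ k j
    · rcases c2 with ⟨w', j1, -⟩ | j | j
      · exact (vc w' e _ (j1.ins (rect w') (hc w') (ch f)) k).elim
      · exact (mc f e _ j k).elim
      obtain ⟨A, a, x, b, B, a1, p, hp, a2⟩ := k
      obtain ⟨A', a', x', b', B', b1, q, hq, b2⟩ := j
      obtain ⟨j1, j2, j3⟩ := pass_facts (a1 ▸ ch e) (a1 ▸ (hP e).2)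
      obtain ⟨j4, j5, j6⟩ := pass_facts (b1 ▸ ch f) (b1 ▸ (hP f).2)
      obtain ⟨w, rfl, rfl⟩ := (a2 ▸ ins_cell j1 j2 j3 hp : Ins {x} (arc e s)).meet
        (b2 ▸ ins_cell j4 j5 j6 hq : Ins {x'} (arc e s))
      have m1 : s(a, w) ∈ edg (P e) := a1 ▸ mem_edg A a w (b :: B)
      have m2 : s(b, w) ∈ edg (P e) := by
        rw [a1, Sym2.eq_swap]
        simpa using mem_edg (A ++ [a]) w b B
      have m3 : s(a', w) ∈ edg (P f) := b1 ▸ mem_edg A' a' w (b' :: B')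
      have m4 : s(b', w) ∈ edg (P f) := by
        rw [b1, Sym2.eq_swap]
        simpa using mem_edg (A' ++ [a']) w b' B'
      obtain ⟨k1, k2, k3⟩ := cross_cell j1 j2 j4 j5 j3 j6
        (fun h => dj e f hef _ m1 (h ▸ m3)) (fun h => dj e f hef _ m1 (h ▸ m4))
        (fun h => dj e f hef _ m2 (h ▸ m3)) (fun h => dj e f hef _ m2 (h ▸ m4)) hp hq
        (a2.symm.trans b2)
      exact ⟨w, a2.trans k1, ⟨A, a, b, B, a1, k2⟩, A', a', b', B', b1, k3⟩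

end

theorem redrawT : ∃ T : ℕ, ∀ (R E : Type) [Fintype E] (ends : E → Sym2 R),
    Function.Injective ends → (∀ e, ¬ (ends e).IsDiag) → ∀ (k : ℕ) (B : R → Set (ℤ × ℤ))
    (D : E → Set (ℤ × ℤ)), Model ends k B D →
    ∃ (pos : R → ℝ × ℝ) (arc : E → ℝ → ℝ × ℝ), Function.Injective pos ∧
      (∀ e, Continuous (arc e) ∧ InjOn (arc e) (Icc 0 1) ∧
        (∃ u v, ends e = s(u, v) ∧ arc e 0 = pos u ∧ arc e 1 = pos v) ∧
        ∀ w, ∀ t ∈ Ioo (0 : ℝ) 1, arc e t ≠ pos w) ∧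
      (∀ e f, e ≠ f → (arc e '' Ioo 0 1 ∩ arc f '' Ioo 0 1).Subsingleton ∧
        ((∃ w, w ∈ ends e ∧ w ∈ ends f) → arc e '' Ioo 0 1 ∩ arc f '' Ioo 0 1 = ∅)) ∧
      (∀ e f, e ≠ f → ∀ z ∈ arc e '' Ioo 0 1 ∩ arc f '' Ioo 0 1,
        (Hor (arc e '' Icc 0 1) z ∧ Ver (arc f '' Icc 0 1) z) ∨
          (Hor (arc f '' Icc 0 1) z ∧ Ver (arc e '' Icc 0 1) z)) ∧
      ∀ e, ∃ X : Finset E, X.card ≤ 4 * (k + 1) ^ T ∧
        ∀ f, f ≠ e → (arc e '' Ioo 0 1 ∩ arc f '' Ioo 0 1).Nonempty → f ∈ X := by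
  obtain ⟨M, h, part⟩ := partition
  refine ⟨2 * (3 * (h * (2 * M + 1) + 2 * M) + 1), fun R E _ ends inj hd k B D H => ?_⟩
  classical
  let Γ : SimpleGraph (ℤ × ℤ) :=
    { Adj := fun x y => grid.Adj x y ∧ ∃ e, x ∈ D e ∧ y ∈ D e
      symm := ⟨fun x y h => ⟨h.1.symm, h.2.imp fun _ => And.symm⟩⟩
      loopless := ⟨fun x h => h.1.ne rfl⟩ }
  let W : Set (ℤ × ℤ) := ⋃ e, D e
  have hE : ∀ x y, Γ.Adj x y → ∃ e, x ∈ D e ∧ y ∈ D e := fun x y h => h.2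
  have hW : ∀ x y, Γ.Adj x y → x ∈ W ∧ y ∈ W := by
    rintro x y ⟨-, e, h1, h2⟩
    exact ⟨mem_iUnion.2 ⟨e, h1⟩, mem_iUnion.2 ⟨e, h2⟩⟩
  have cm : ∀ S, Conn Γ S → Conn grid S := fun S h x hx y hy =>
    (h x hx y hy).ind (Rch grid S x) (Rch.refl _ _) fun a b ha hb hab ih =>
      ih.trans (Rch.step hab.1 ha hb)
  have tm : ∀ S T, Tch Γ S T → Tch grid S T := fun S T ⟨x, hx, y, hy, h⟩ => ⟨x, hx, y, hy, h.1⟩
  have N5 : NoK5 Γ := fun A B C D E h1 h2 h3 h4 h5 d1 d2 d3 d4 d5 d6 d7 d8 d9 d10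
      t1 t2 t3 t4 t5 t6 t7 t8 t9 t10 =>
    grid_noK5 A B C D E (cm _ h1) (cm _ h2) (cm _ h3) (cm _ h4) (cm _ h5) d1 d2 d3 d4 d5 d6 d7 d8
      d9 d10 (tm _ _ t1) (tm _ _ t2) (tm _ _ t3) (tm _ _ t4) (tm _ _ t5) (tm _ _ t6) (tm _ _ t7)
      (tm _ _ t8) (tm _ _ t9) (tm _ _ t10)
  obtain ⟨c, s1, s2, s3⟩ := part (ℤ × ℤ) E Γ D hE N5 W (finite_iUnion H.fin)
  let Port : R → ℤ × ℤ → ℤ × ℤ → Prop := fun u b x =>
    grid.Adj b x ∧ b ∈ B u ∧ ∃ e, u ∈ ends e ∧ x ∈ D e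
  have N : Net Γ W B Port := by
    refine ⟨fun x y h => ⟨h.1, hW x y h⟩, ?_, ?_, H.disj⟩
    · rintro u b x ⟨h1, h2, e, -, h3⟩
      exact ⟨h1, h2, mem_iUnion.2 ⟨e, h3⟩⟩
    · intro u x hx hx'
      obtain ⟨e, he⟩ := mem_iUnion.1 hx'
      exact H.dBD u e x hx he
  have t0 : ∀ v ∈ W, Tr Γ c 0 v (c v) := fun v hv =>
    (s1 v hv).ind (Tr Γ c 0 v) (Tr.refl _ _) fun a b ha hb hab ih =>
      ih.free hab (ha.2.trans hb.2.symm)
  have t1 : ∀ n x y, Ch (HopR Γ W c) n x y → Tr Γ c n x y := by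
    intro n x y hc
    induction hc with
    | refl => exact Tr.refl _ _
    | tail _ hr ih =>
      obtain ⟨h1, h2, h3 | h3⟩ := hr
      · exact ((ih.trans (t0 _ h1)).trans (h3 ▸ (t0 _ h2).symm)).succ
      · exact ih.pay h3
  obtain ⟨m, P, hm, p1, p2, p3, p4, p5⟩ := routes (c := c) N ends hd h (by
    intro e
    obtain ⟨u, v, huv⟩ : ∃ u v, ends e = s(u, v) := by
      induction ends e using Sym2.ind with
      | _ u v => exact ⟨u, v, rfl⟩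
    have mu : u ∈ ends e := by simp [huv]
    have mv : v ∈ ends e := by simp [huv]
    obtain ⟨x, hx, b, hb, h1⟩ := H.tch e u mu
    obtain ⟨y, hy, b', hb', h2⟩ := H.tch e v mv
    have sub : D e ⊆ W := subset_iUnion D e
    refine ⟨u, v, x, y, huv, ⟨b, h1.symm, hb, e, mu, hx⟩, ⟨b', h2.symm, hb', e, mv, hy⟩,
      t1 _ _ _ (s3 e x y ⟨hx, sub hx⟩ ?_)⟩
    exact (H.conn e x hx y hy).ind (Rch Γ (D e ∩ W) x) (Rch.refl _ _) fun a b ha hb hab ih =>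
      ih.trans (Rch.step ⟨hab, e, ha, hb⟩ ⟨ha, sub ha⟩ ⟨hb, sub hb⟩))
  obtain ⟨pos, arc, a1, a2, a4, a3⟩ := realizeT ends (fun u => (H.rect u).prj hm) (fun u => by
      obtain ⟨x, hx⟩ := H.ne u
      exact ⟨(m * x.1 + 0, m * x.2 + 0), by rwa [mem_preimage, prj_pt le_rfl hm le_rfl hm]⟩)
    (fun u x => N.dW u _) (fun u v huv x => N.dB u v huv _) hd P p1 p2
  refine ⟨pos, arc, a1, a2, fun e f hef => ⟨fun z hz z' hz' => ?_, fun hw => ?_⟩,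
    fun e f hef z hz => ?_, fun e => ?_⟩
  · obtain ⟨x, rfl, h1, h2⟩ := a3 e f hef z hz
    obtain ⟨x', rfl, h3, h4⟩ := a3 e f hef z' hz'
    rw [p3 e f hef x x' h1 h2 h3 h4]
  · refine eq_empty_of_forall_notMem fun z hz => ?_
    obtain ⟨x, rfl, h1, h2⟩ := a3 e f hef z hz
    exact p4 e f hef hw x h1 h2
  · obtain ⟨x, rfl, ⟨A, a, b, B', h1, h2⟩, A', a', b', B'', h3, h4⟩ := a3 e f hef z hz
    have ch : ∀ e, (P e).IsChain grid.Adj := fun e => (p1 e).1.choose_spec.choose_spec.2.1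
    obtain ⟨j1, j2, -⟩ := pass_facts (h1 ▸ ch e) (h1 ▸ (p1 e).2)
    obtain ⟨j3, j4, -⟩ := pass_facts (h3 ▸ ch f) (h3 ▸ (p1 f).2)
    have m1 : s(a, x) ∈ edg (P e) := h1 ▸ mem_edg A a x (b :: B')
    have m3 : s(a', x) ∈ edg (P f) := h3 ▸ mem_edg A' a' x (b' :: B'')
    have m4 : s(b', x) ∈ edg (P f) := by
      rw [h3, Sym2.eq_swap]
      simpa using mem_edg (A' ++ [a']) x b' B''
    have n1 : a ≠ a' := fun h => p2 e f hef _ m1 (h ▸ m3)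
    have n2 : a ≠ b' := fun h => p2 e f hef _ m1 (h ▸ m4)
    have he := fun h1' h2' => hor_of_line (a2 e).1 (a2 e).2.1 hz.1 h1' h2' (a4 e A a x b B' h1)
    have hf := fun h1' h2' => hor_of_line (a2 f).1 (a2 f).2.1 hz.2 h1' h2' (a4 f A' a' x b' B'' h3)
    have ve := fun h1' h2' => ver_of_line (a2 e).1 (a2 e).2.1 hz.1 h1' h2' (a4 e A a x b B' h1)
    have vf := fun h1' h2' => ver_of_line (a2 f).1 (a2 f).2.1 hz.2 h1' h2' (a4 f A' a' x b' B'' h3)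
    rcases dir_cases j1 j3 h2 h4 n1 n2 with ⟨q1, q2, q3, q4⟩ | ⟨q1, q2, q3, q4⟩
    · exact Or.inl ⟨he q1 q2, vf q3 q4⟩
    · exact Or.inr ⟨hf q1 q2, ve q3 q4⟩
  set T := h * (2 * M + 1) + 2 * M with hT
  have nr : ∀ x ∈ W, ∀ y ∈ W, Tr Γ c h x y → Near Γ D univ T x y := fun x hx y hy hxy =>
    (((s2 x hx).trans (tr_near hE hW s2 hxy)).trans (s2 y hy).symm).le (by omega)
  obtain ⟨u, v, xu, xv, -, -, ⟨bv, h3⟩, -, h5⟩ := p5 e
  obtain ⟨Y, y1, y2⟩ := ball_card (G := Γ) H.cross xv (3 * T)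
  let Z : Finset R := Y.biUnion fun g => (ends g).toFinset
  have z1 : Z.card ≤ (k + 1) ^ (3 * T + 1) * 2 :=
    (Finset.card_biUnion_le_card_mul _ _ 2 fun g _ => by
      rw [Sym2.card_toFinset]; split_ifs <;> omega).trans (Nat.mul_le_mul_right _ y1)
  obtain ⟨Z2, z2, z3⟩ : ∃ Z2 : Finset (Sym2 R), Z2.card ≤ (Z ×ˢ Z).card ∧
      ∀ a ∈ Z, ∀ b ∈ Z, s(a, b) ∈ Z2 :=
    ⟨(Z ×ˢ Z).image fun p => s(p.1, p.2), Finset.card_image_le, fun a ha b hb =>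
      Finset.mem_image.2 ⟨(a, b), Finset.mem_product.2 ⟨ha, hb⟩, rfl⟩⟩
  refine ⟨Z2.preimage ends inj.injOn, ?_, fun f hf ⟨z, hz⟩ => ?_⟩
  · have z4 : (Z2.preimage ends inj.injOn).card ≤ Z2.card :=
      Finset.card_le_card_of_injOn ends (fun f hf => Finset.mem_preimage.1 hf) inj.injOn
    refine z4.trans (z2.trans ?_)
    rw [Finset.card_product]
    have : ∀ a n : ℕ, a ^ n * 2 * (a ^ n * 2) = 4 * a ^ (2 * n) := fun a n => by ring
    exact (Nat.mul_le_mul z1 z1).trans (this _ _).le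
  · obtain ⟨x, -, k1, k2⟩ := a3 e f hf.symm z hz
    obtain ⟨u', v', xu', xv', j1, ⟨bu', j2⟩, ⟨bv', j3⟩, j4, j5⟩ := p5 f
    have w1 := (N.port _ _ _ h3).2.2
    have w2 := (N.port _ _ _ j2).2.2
    have w3 := (N.port _ _ _ j3).2.2
    have n1 := (nr _ (h5 x k1).1 _ w1 (h5 x k1).2).symm.trans (nr _ (j5 x k2).1 _ w3 (j5 x k2).2)
    have n2 := n1.trans (nr _ w2 _ w3 j4).symm
    obtain ⟨-, -, g, g1, g2⟩ := j2
    obtain ⟨-, -, g', g3, g4⟩ := j3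
    rw [Finset.mem_preimage, j1]
    refine z3 _ ?_ _ ?_
    · exact Finset.mem_biUnion.2 ⟨g, y2 g _ g2 (n2.le (by omega)), Sym2.mem_toFinset.2 g1⟩
    · exact Finset.mem_biUnion.2 ⟨g', y2 g' _ g4 (n1.le (by omega)), Sym2.mem_toFinset.2 g3⟩

end Pool.Agent.Lib.MP_b893bf_co
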